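import Mathlib
import Pool.Agent.H410R3.KS.Circ

/-!
# The one-dimensional map
-/

open Set Filter Topology
open scoped ContDiff

namespace Pool.Agent.H410R3.AX

open Pool.Agent.H410R3.KS

/-- the lift of the circle diffeomorphism -/
noncomputable def G (x : ℝ) : ℝ := x - 1 / 8 * Real.sin (2 * Real.pi * x)

theorem G_contDiff : ContDiff ℝ ∞ G := by
  unfold G
  fun_prop

theorem G_continuous : Continuous G := G_contDiff.continuous

theorem G_hasDerivAt (x : ℝ) : HasDerivAt G (1 - Real.pi / 4 * Real.cos (2 * Real.pi * x)) x := by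
  have h1 : HasDerivAt (fun x : ℝ => 2 * Real.pi * x) (2 * Real.pi) x := by
    simpa using (hasDerivAt_id x).const_mul (2 * Real.pi)
  have h2 := (Real.hasDerivAt_sin (2 * Real.pi * x)).comp x h1
  have h3 := (hasDerivAt_id x).sub (h2.const_mul (1/8))
  exact h3.congr_deriv (by ring)

theorem G_deriv_pos (x : ℝ) : 0 < 1 - Real.pi / 4 * Real.cos (2 * Real.pi * x) := by
  have h1 := Real.cos_le_one (2 * Real.pi * x)
  have h2 := Real.pi_pos
  have h3 := Real.pi_lt_four
  nlinarith

theorem G_strictMono : StrictMono G :=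
  strictMono_of_deriv_pos fun x => by
    rw [(G_hasDerivAt x).deriv]; exact G_deriv_pos x

theorem G_add_one (x : ℝ) : G (x + 1) = G x + 1 := by
  unfold G
  rw [mul_add, mul_one, Real.sin_add_two_pi]; ring

theorem G_neg (x : ℝ) : G (-x) = - G x := by
  unfold G
  rw [mul_neg, Real.sin_neg]; ring

theorem G_zero : G 0 = 0 := by simp [G]

theorem G_half : G (1 / 2) = 1 / 2 := by
  unfold G
  rw [show 2 * Real.pi * (1 / 2) = Real.pi by ring, Real.sin_pi]; ring

theorem G_quarter : G (1 / 4) = 1 / 8 := by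
  unfold G
  rw [show 2 * Real.pi * (1 / 4) = Real.pi / 2 by ring, Real.sin_pi_div_two]; ring

theorem abs_G_sub (x : ℝ) : |G x - x| ≤ 1 / 8 := by
  unfold G
  have := Real.abs_sin_le_one (2 * Real.pi * x)
  rw [abs_le] at this ⊢
  constructor <;> linarith [this.1, this.2]

theorem G_surjective : Function.Surjective G := by
  refine G_continuous.surjective ?_ ?_
  · refine tendsto_atTop_mono (f := fun x => x - 1/8) (fun x => ?_) ?_
    · have := (abs_le.1 (abs_G_sub x)).1; linarith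
    · exact tendsto_atTop_add_const_right _ _ tendsto_id
  · refine tendsto_atBot_mono (f := fun x => x + 1/8) (fun x => ?_) ?_
    · have := (abs_le.1 (abs_G_sub x)).2; linarith
    · exact tendsto_atBot_add_const_right _ _ tendsto_id

/-- the lift as a homeomorphism -/
noncomputable def GH : ℝ ≃ₜ ℝ := (G_strictMono.orderIsoOfSurjective _ G_surjective).toHomeomorph

theorem GH_apply (x : ℝ) : GH x = G x := rfl

theorem GH_symm_contDiff : ContDiff ℝ ∞ GH.symm :=
  GH.contDiff_symm_deriv (f' := fun x => 1 - Real.pi / 4 * Real.cos (2 * Real.pi * x))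
    (fun x => (G_deriv_pos x).ne') (fun x => G_hasDerivAt x) G_contDiff

theorem GH_symm_strictMono : StrictMono GH.symm := by
  intro x y h
  apply G_strictMono.lt_iff_lt.1
  show GH (GH.symm x) < GH (GH.symm y)
  rw [GH.apply_symm_apply, GH.apply_symm_apply]; exact h

theorem GH_symm_add_one (x : ℝ) : GH.symm (x + 1) = GH.symm x + 1 := symm_add_one GH G_add_one x

theorem G_symm_G (x : ℝ) : GH.symm (G x) = x := GH.symm_apply_apply x

theorem G_G_symm (x : ℝ) : G (GH.symm x) = x := GH.apply_symm_apply x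

/-- the expansion at the repelling point -/
noncomputable def kap (s : ℝ) : ℝ := s + 1 / 8 * Real.sin (2 * Real.pi * s)

theorem G_half_sub (s : ℝ) : G (1 / 2 - s) = 1 / 2 - kap s := by
  unfold G kap
  rw [show 2 * Real.pi * (1 / 2 - s) = Real.pi - 2 * Real.pi * s by ring, Real.sin_pi_sub]; ring

theorem G_half_add (s : ℝ) : G (1 / 2 + s) = 1 / 2 + kap s := by
  unfold G kap
  rw [show 2 * Real.pi * (1 / 2 + s) = 2 * Real.pi * s + Real.pi by ring, Real.sin_add_pi]; ring

theorem kap_eq (s : ℝ) : kap s = 1 / 2 - G (1 / 2 - s) := by rw [G_half_sub]; ring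

theorem kap_strictMono : StrictMono kap := by
  intro x y h
  rw [kap_eq, kap_eq]
  have := G_strictMono (show 1 / 2 - y < 1 / 2 - x by linarith)
  linarith

theorem kap_zero : kap 0 = 0 := by simp [kap]

theorem kap_le {s : ℝ} (hs : 0 ≤ s) : kap s ≤ 2 * s := by
  unfold kap
  have h1 := Real.sin_le (show 0 ≤ 2 * Real.pi * s by have := Real.pi_pos; positivity)
  have h3 := Real.pi_lt_four
  nlinarith

/-- lower bound for the sine -/
theorem sin_lb {r s : ℝ} (hr : 0 ≤ r) (hr' : r ≤ 1 / 4) (hs : 0 ≤ s) (hs' : s ≤ 1 / 2 - r) :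
    8 * r * s ≤ Real.sin (2 * Real.pi * s) := by
  have hpi := Real.pi_pos
  rcases le_total s (1 / 4) with h | h
  · have h1 := Real.mul_le_sin (x := 2 * Real.pi * s) (by positivity) (by nlinarith)
    have h2 : 2 / Real.pi * (2 * Real.pi * s) = 4 * s := by field_simp; ring
    rw [h2] at h1
    nlinarith
  · have h1 := Real.mul_le_sin (x := 2 * Real.pi * (1 / 2 - s)) (by
      apply mul_nonneg (by positivity); linarith) (by nlinarith)
    have h2 : 2 / Real.pi * (2 * Real.pi * (1 / 2 - s)) = 4 * (1 / 2 - s) := by field_simp; ring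
    rw [h2, show 2 * Real.pi * (1 / 2 - s) = Real.pi - 2 * Real.pi * s by ring,
      Real.sin_pi_sub] at h1
    nlinarith

theorem G_le {r s : ℝ} (hr : 0 ≤ r) (hr' : r ≤ 1 / 4) (hs : 0 ≤ s) (hs' : s ≤ 1 / 2 - r) :
    G s ≤ (1 - r) * s := by
  have := sin_lb hr hr' hs hs'
  unfold G
  linarith

theorem le_kap {r s : ℝ} (hr : 0 ≤ r) (hr' : r ≤ 1 / 4) (hs : 0 ≤ s) (hs' : s ≤ 1 / 2 - r) :
    (1 + r) * s ≤ kap s := by
  have := sin_lb hr hr' hs hs'
  unfold kap
  linarith

theorem G_nonneg {s : ℝ} (hs : 0 ≤ s) : 0 ≤ G s := by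
  have := G_strictMono.monotone hs
  rwa [G_zero] at this

theorem G_iter_mono (n : ℕ) : StrictMono (G^[n]) := G_strictMono.iterate n

theorem G_iter_zero (n : ℕ) : G^[n] 0 = 0 := Function.iterate_fixed G_zero n

theorem G_iter_half (n : ℕ) : G^[n] (1 / 2) = 1 / 2 := Function.iterate_fixed G_half n

theorem Gs_zero : GH.symm 0 = 0 := by
  have := G_symm_G 0
  rwa [G_zero] at this

theorem Gs_half : GH.symm (1 / 2) = 1 / 2 := by
  have := G_symm_G (1 / 2)
  rwa [G_half] at this

theorem G_iter_le {r s : ℝ} (hr : 0 ≤ r) (hr' : r ≤ 1 / 4) (hs : 0 ≤ s) (hs' : s ≤ 1 / 2 - r)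
    (n : ℕ) : 0 ≤ G^[n] s ∧ G^[n] s ≤ (1 - r) ^ n * s := by
  induction n with
  | zero => simp [hs]
  | succ n ih =>
    rw [Function.iterate_succ_apply']
    have h1 : (1 - r) ^ n ≤ 1 := pow_le_one₀ (by linarith) (by linarith)
    have h2 : G^[n] s ≤ 1 / 2 - r := ih.2.trans (by nlinarith)
    refine ⟨G_nonneg ih.1, (G_le hr hr' ih.1 h2).trans ?_⟩
    rw [pow_succ]
    nlinarith [ih.2]

/-- iterates of the inverse near the repelling point -/
theorem Gs_half_add {r s : ℝ} (hr : 0 ≤ r) (hr' : r ≤ 1 / 4) (hs : |s| ≤ 1 / 2 - r) :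
    |GH.symm (1 / 2 + s) - 1 / 2| ≤ |s| / (1 + r) := by
  -- nonnegative case
  have key : ∀ s : ℝ, 0 ≤ s → s ≤ 1 / 2 - r →
      0 ≤ GH.symm (1 / 2 + s) - 1 / 2 ∧ GH.symm (1 / 2 + s) - 1 / 2 ≤ s / (1 + r) := by
    intro s h0 h1
    set t := GH.symm (1 / 2 + s) - 1 / 2 with ht
    have h2 : kap t = s := by
      have h3 := G_half_add t
      rw [show 1 / 2 + t = GH.symm (1 / 2 + s) by rw [ht]; ring, G_G_symm] at h3
      linarith
    have h4 : 0 ≤ t := by
      by_contra hneg
      have h5 := kap_strictMono (not_le.1 hneg)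
      rw [h2, kap_zero] at h5
      linarith
    have h6 : t ≤ s := by
      by_contra hneg
      have h7 := kap_strictMono (not_le.1 hneg)
      have h8 := le_kap hr hr' h0 h1
      rw [h2] at h7
      nlinarith
    refine ⟨h4, ?_⟩
    rw [le_div_iff₀ (by linarith)]
    have := le_kap hr hr' h4 (h6.trans h1)
    rw [h2] at this
    linarith
  rcases le_total 0 s with h0 | h0
  · rw [abs_of_nonneg h0] at hs ⊢
    have := key s h0 hs
    rw [abs_of_nonneg this.1]
    exact this.2
  · rw [abs_of_nonpos h0] at hs ⊢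
    have h1 := key (-s) (by linarith) hs
    -- symmetry: GH.symm (1/2 + s) - 1/2 = -(GH.symm (1/2 - s) - 1/2)
    have h2 : GH.symm (1 / 2 + s) = 1 - GH.symm (1 / 2 + -s) := by
      apply G_strictMono.injective
      rw [G_G_symm, show (1 : ℝ) - GH.symm (1 / 2 + -s) = -GH.symm (1 / 2 + -s) + 1 by ring,
        G_add_one, G_neg, G_G_symm]
      ring
    rw [h2, show 1 - GH.symm (1 / 2 + -s) - 1 / 2 = -(GH.symm (1 / 2 + -s) - 1 / 2) by ring,
      abs_neg, abs_of_nonneg h1.1]
    exact h1.2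

theorem Gs_iter {r s : ℝ} (hr : 0 ≤ r) (hr' : r ≤ 1 / 4) (hs : |s| ≤ 1 / 2 - r) (n : ℕ) :
    |GH.symm^[n] (1 / 2 + s) - 1 / 2| ≤ |s| / (1 + r) ^ n := by
  induction n with
  | zero => simp
  | succ n ih =>
    rw [Function.iterate_succ_apply']
    have h1 : (1:ℝ) ≤ (1 + r) ^ n := one_le_pow₀ (by linarith)
    have h2 : |s| / (1 + r) ^ n ≤ |s| := div_le_self (abs_nonneg _) h1
    have h3 := Gs_half_add hr hr' (s := GH.symm^[n] (1 / 2 + s) - 1 / 2) (ih.trans (h2.trans hs))
    rw [show 1 / 2 + (GH.symm^[n] (1 / 2 + s) - 1 / 2) = GH.symm^[n] (1 / 2 + s) by ring] at h3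
    refine h3.trans ?_
    rw [pow_succ, ← div_div]
    exact div_le_div_of_nonneg_right ih (by linarith)

end Pool.Agent.H410R3.AX
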