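import Mathlib
import Pool.Agent.H410R3.KS.Bump

/-!
# Series of periodic bumps
-/

open Set Filter Topology
open scoped ContDiff

namespace Pool.Agent.H410R3.AX

open Pool.Agent.H410R3.KS (PP Ln Ln_apply norm_Ln_le)

/-- periodic bump, positive exactly on `(-a / 2, a / 2) + ℤ` -/
noncomputable def gw (a : ℝ) (y : ℝ) : ℝ :=
  expNegInvGlue (Real.cos (2 * Real.pi * y) - Real.cos (Real.pi * a))

theorem gw_contDiff (a : ℝ) : ContDiff ℝ ∞ (gw a) := by
  unfold gw
  refine expNegInvGlue.contDiff.comp ?_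
  exact (Real.contDiff_cos.comp (contDiff_const.mul contDiff_id)).sub contDiff_const

theorem gw_periodic (a y : ℝ) : gw a (y + 1) = gw a y := by
  unfold gw
  rw [mul_add, mul_one, Real.cos_add_two_pi]

theorem gw_periodic_int (a y : ℝ) (k : ℤ) : gw a (y + k) = gw a y := by
  unfold gw
  rw [mul_add, show 2 * Real.pi * (k : ℝ) = k * (2 * Real.pi) by ring, Real.cos_add_int_mul_two_pi]

theorem gw_nonneg (a y : ℝ) : 0 ≤ gw a y := expNegInvGlue.nonneg _

theorem expNegInvGlue_le_one (x : ℝ) : expNegInvGlue x ≤ 1 := by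
  unfold expNegInvGlue
  split_ifs with h
  · exact zero_le_one
  · rw [Real.exp_le_one_iff, neg_nonpos, inv_nonneg]
    exact (not_le.1 h).le

theorem gw_le_one (a y : ℝ) : gw a y ≤ 1 := expNegInvGlue_le_one _

theorem gw_pos {a : ℝ} (ha : a ≤ 1) {y : ℝ} (h : |y| < a / 2) : 0 < gw a y := by
  unfold gw
  apply expNegInvGlue.pos_of_pos
  have hpi := Real.pi_pos
  rw [sub_pos, ← Real.cos_abs (2 * Real.pi * y)]
  have e : |2 * Real.pi * y| = 2 * Real.pi * |y| := by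
    rw [abs_mul, abs_of_pos (by positivity)]
  rw [e]
  apply Real.cos_lt_cos_of_nonneg_of_le_pi
  · positivity
  · nlinarith
  · nlinarith

theorem gw_zero {a : ℝ} (ha : 0 ≤ a) {y : ℝ} (h : a / 2 ≤ |y|)
    (h' : |y| ≤ 1 - a / 2) : gw a y = 0 := by
  unfold gw
  rw [expNegInvGlue.zero_iff_nonpos]
  have hpi := Real.pi_pos
  rw [sub_nonpos, ← Real.cos_abs (2 * Real.pi * y)]
  have e : |2 * Real.pi * y| = 2 * Real.pi * |y| := by
    rw [abs_mul, abs_of_pos (by positivity)]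
  rw [e]
  rcases le_total |y| (1 / 2) with h1 | h1
  · apply Real.cos_le_cos_of_nonneg_of_le_pi
    · positivity
    · nlinarith
    · nlinarith
  · have e2 : Real.cos (2 * Real.pi * |y|) = Real.cos (2 * Real.pi * (1 - |y|)) := by
      rw [show 2 * Real.pi * (1 - |y|) = 2 * Real.pi - 2 * Real.pi * |y| by ring,
        Real.cos_two_pi_sub]
    rw [e2]
    apply Real.cos_le_cos_of_nonneg_of_le_pi
    · positivity
    · nlinarith
    · nlinarith

theorem gw_bdd (a : ℝ) (k : ℕ) : ∃ C, 0 ≤ C ∧ ∀ y, ‖iteratedFDeriv ℝ k (gw a) y‖ ≤ C := by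
  have hc : Continuous (iteratedFDeriv ℝ k (gw a)) :=
    (gw_contDiff a).continuous_iteratedFDeriv (by exact_mod_cast le_top)
  have hp : Function.Periodic (iteratedFDeriv ℝ k (gw a)) 1 := by
    intro y
    have h := iteratedFDeriv_comp_add_right (𝕜 := ℝ) (f := gw a) k (1 : ℝ) y
    rw [← h]
    congr 1
    funext z
    exact gw_periodic a z
  obtain ⟨C, hC⟩ := (isCompact_Icc (a := (0:ℝ)) (b := 1)).exists_bound_of_continuousOn hc.continuousOn
  refine ⟨max C 0, le_max_right _ _, fun y => ?_⟩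
  obtain ⟨z, hz, he⟩ := hp.exists_mem_Ico₀ one_pos y
  rw [he]
  exact (hC z (Ico_subset_Icc_self hz)).trans (le_max_left _ _)

/-- widths -/
noncomputable def v (n : ℕ) : ℝ := (1 / 2) ^ (n + 6)

theorem v_pos (n : ℕ) : 0 < v n := by unfold v; positivity

theorem v_le (n : ℕ) : v n ≤ 1 / 64 := by
  unfold v
  rw [pow_add]
  have : ((1 : ℝ) / 2) ^ n ≤ 1 := pow_le_one₀ (by norm_num) (by norm_num)
  nlinarith

theorem v_succ (n : ℕ) : v (n + 1) = v n / 2 := by
  unfold v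
  rw [show n + 1 + 6 = (n + 6) + 1 by ring, pow_succ]; ring

/-- bounds for the derivatives of the bumps -/
noncomputable def Cw (n k : ℕ) : ℝ := (gw_bdd (v n) k).choose

theorem Cw_nonneg (n k : ℕ) : 0 ≤ Cw n k := (gw_bdd (v n) k).choose_spec.1

theorem le_Cw (n k : ℕ) (y : ℝ) : ‖iteratedFDeriv ℝ k (gw (v n)) y‖ ≤ Cw n k :=
  (gw_bdd (v n) k).choose_spec.2 y

/-- the heights -/
noncomputable def ep (n : ℕ) : ℝ :=
  (1 / 2) ^ (n + 5) / (1 + ∑ k ∈ Finset.range (n + 2), Cw n k * (1 + 2 ^ n) ^ k)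

theorem ep_den_pos (n : ℕ) :
    0 < 1 + ∑ k ∈ Finset.range (n + 2), Cw n k * (1 + 2 ^ n) ^ k := by
  have : 0 ≤ ∑ k ∈ Finset.range (n + 2), Cw n k * (1 + (2:ℝ) ^ n) ^ k :=
    Finset.sum_nonneg fun k _ => mul_nonneg (Cw_nonneg n k) (by positivity)
  linarith

theorem ep_pos (n : ℕ) : 0 < ep n := div_pos (by positivity) (ep_den_pos n)

theorem ep_le (n : ℕ) : ep n ≤ (1 / 2) ^ (n + 5) := by
  unfold ep
  refine div_le_self (by positivity) ?_
  have : 0 ≤ ∑ k ∈ Finset.range (n + 2), Cw n k * (1 + (2:ℝ) ^ n) ^ k :=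
    Finset.sum_nonneg fun k _ => mul_nonneg (Cw_nonneg n k) (by positivity)
  linarith

theorem ep_bound {n k : ℕ} (h : k < n + 2) :
    ep n * (Cw n k * (1 + 2 ^ n) ^ k) ≤ (1 / 2) ^ (n + 5) := by
  unfold ep
  rw [div_mul_eq_mul_div, div_le_iff₀ (ep_den_pos n)]
  refine mul_le_mul_of_nonneg_left ?_ (by positivity)
  have := Finset.single_le_sum (f := fun k => Cw n k * (1 + (2:ℝ) ^ n) ^ k)
    (fun k _ => mul_nonneg (Cw_nonneg n k) (by positivity)) (Finset.mem_range.2 h)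
  linarith

theorem hasSum_half5 : HasSum (fun n : ℕ => ((1:ℝ) / 2) ^ (n + 5)) (1 / 16) := by
  have h := hasSum_geometric_two.mul_right ((1:ℝ)/32)
  have e1 : (fun n : ℕ => ((1:ℝ) / 2) ^ (n + 5)) = fun n : ℕ => ((1:ℝ) / 2) ^ n * (1 / 32) := by
    funext n
    rw [pow_add]; norm_num
  have e2 : (1:ℝ) / 16 = 2 * (1 / 32) := by norm_num
  rw [e1, e2]
  exact h

section

variable {ht : ℕ → ℝ} (h0 : ∀ n, 0 ≤ ht n) (h1 : ∀ n, ht n ≤ ep n)

/-- the `n`-th term -/
noncomputable def tw (ht : ℕ → ℝ) (n : ℕ) (q : PP × ℝ) : ℝ := ht n * gw (v n) (Ln n q)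

theorem tw_contDiff (ht : ℕ → ℝ) (n : ℕ) : ContDiff ℝ ∞ (tw ht n) :=
  contDiff_const.mul ((gw_contDiff (v n)).comp (Ln n).contDiff)

include h0 h1

theorem tw_bound (n k : ℕ) (q : PP × ℝ) :
    ‖iteratedFDeriv ℝ k (tw ht n) q‖ ≤ ep n * (Cw n k * (1 + 2 ^ n) ^ k) := by
  have h2 : ContDiff ℝ ∞ (ht n • gw (v n)) := contDiff_const.smul (gw_contDiff (v n))
  have h3 : tw ht n = (ht n • gw (v n)) ∘ Ln n := by
    funext q; rfl
  rw [h3, (Ln n).iteratedFDeriv_comp_right h2 q (i := k) (by exact_mod_cast le_top)]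
  refine (ContinuousMultilinearMap.norm_compContinuousLinearMap_le _ _).trans ?_
  rw [Finset.prod_const, Finset.card_univ, Fintype.card_fin, ← mul_assoc]
  have h4 : ‖iteratedFDeriv ℝ k (ht n • gw (v n)) (Ln n q)‖ ≤ ep n * Cw n k := by
    rw [iteratedFDeriv_const_smul_apply
      ((gw_contDiff (v n)).of_le (by exact_mod_cast le_top)).contDiffAt,
      norm_smul, Real.norm_of_nonneg (h0 n)]
    exact mul_le_mul (h1 n) (le_Cw n k _) (norm_nonneg _) (ep_pos n).le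
  exact mul_le_mul h4 (pow_le_pow_left₀ (norm_nonneg _) (norm_Ln_le n) k)
    (by positivity) (mul_nonneg (ep_pos n).le (Cw_nonneg n k))

omit h0 h1 in
theorem tw_summable (k : ℕ) : Summable fun n => ep n * (Cw n k * (1 + 2 ^ n) ^ k) := by
  refine Summable.of_norm_bounded_eventually_nat hasSum_half5.summable ?_
  filter_upwards [eventually_ge_atTop k] with n hn
  rw [Real.norm_of_nonneg (mul_nonneg (ep_pos n).le (mul_nonneg (Cw_nonneg n k) (by positivity)))]
  exact ep_bound (by omega)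

omit h0 h1 in
/-- the sum of the bumps -/
noncomputable def Pw (ht : ℕ → ℝ) (q : PP × ℝ) : ℝ := ∑' n, tw ht n q

theorem Pw_contDiff : ContDiff ℝ ∞ (Pw ht) :=
  contDiff_tsum (v := fun k n => ep n * (Cw n k * (1 + 2 ^ n) ^ k)) (fun n => tw_contDiff ht n)
    (fun k _ => tw_summable k) (fun k n q _ => tw_bound h0 h1 n k q)

omit h1 in
theorem tw_nonneg (n : ℕ) (q : PP × ℝ) : 0 ≤ tw ht n q := mul_nonneg (h0 n) (gw_nonneg _ _)

theorem tw_le (n : ℕ) (q : PP × ℝ) : tw ht n q ≤ (1 / 2) ^ (n + 5) :=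
  calc tw ht n q ≤ ht n * 1 := mul_le_mul_of_nonneg_left (gw_le_one _ _) (h0 n)
    _ = ht n := mul_one _
    _ ≤ _ := (h1 n).trans (ep_le n)

theorem tw_summable' (q : PP × ℝ) : Summable fun n => tw ht n q :=
  Summable.of_nonneg_of_le (fun n => tw_nonneg h0 n q) (fun n => tw_le h0 h1 n q)
    hasSum_half5.summable

omit h1 in
theorem Pw_nonneg (q : PP × ℝ) : 0 ≤ Pw ht q := tsum_nonneg fun n => tw_nonneg h0 n q

theorem Pw_le (q : PP × ℝ) : Pw ht q ≤ 1 / 16 := by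
  rw [← hasSum_half5.tsum_eq]
  exact (tw_summable' h0 h1 q).tsum_le_tsum (fun n => tw_le h0 h1 n q) hasSum_half5.summable

omit h0 h1 in
theorem Pw_periodic (p : PP) (x : ℝ) : Pw ht (p, x + 1) = Pw ht (p, x) := by
  unfold Pw
  congr 1
  funext n
  unfold tw
  rw [Ln_apply, Ln_apply]
  simp only
  rw [show x + 1 - 2 ^ n * p n = (x - 2 ^ n * p n) + 1 by ring, gw_periodic]

end

end Pool.Agent.H410R3.AX
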