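import Mathlib
import Pool.Agent.H410R3.AX.Ser
import Pool.Agent.H410R3.AX.G1

/-!
# The functions `δ`
-/

open Set Filter Topology
open scoped ContDiff

namespace Pool.Agent.H410R3.AX

open Pool.Agent.H410R3.KS (PP Ln Ln_apply norm_Ln_le emb emb_apply two_emb emb_continuous)
open Pool.Agent.Helper114.AB (Pm)

/-- points of tangency -/
noncomputable def cc (n : ℕ) : ℝ := 3 / 16 - (1 / 2) ^ (n + 5)
/-- centres of the gaps -/
noncomputable def md (n : ℕ) : ℝ := 3 / 16 - 3 * (1 / 2) ^ (n + 7)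

theorem half_pow_pos (n : ℕ) : (0:ℝ) < (1 / 2) ^ n := by positivity

theorem half_pow_le (n m : ℕ) : ((1:ℝ) / 2) ^ (n + m) ≤ (1 / 2) ^ m := by
  rw [pow_add]
  have : ((1 : ℝ) / 2) ^ n ≤ 1 := pow_le_one₀ (by norm_num) (by norm_num)
  have := half_pow_pos m
  nlinarith

theorem cc_zero : cc 0 = 5 / 32 := by norm_num [cc]

theorem cc_lt (n : ℕ) : cc n < 3 / 16 := by
  have := half_pow_pos (n + 5)
  unfold cc; linarith

theorem cc_succ (n : ℕ) : cc (n + 1) = cc n + v n := by
  unfold cc v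
  rw [show n + 1 + 5 = n + 6 by ring, show n + 6 = (n + 5) + 1 by ring, pow_succ]; ring

theorem cc_strictMono : StrictMono cc :=
  strictMono_nat_of_lt_succ fun n => by rw [cc_succ]; linarith [v_pos n]

theorem cc_ge (n : ℕ) : 5 / 32 ≤ cc n := by
  rw [← cc_zero]; exact cc_strictMono.monotone (Nat.zero_le n)

theorem md_eq (n : ℕ) : md n = cc n + v n / 2 := by
  unfold cc v md
  rw [show n + 7 = (n + 5) + 2 by ring, show n + 6 = (n + 5) + 1 by ring, pow_add, pow_succ]; ring

theorem cc_tendsto : Tendsto cc atTop (𝓝 (3 / 16)) := by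
  unfold cc
  have h : Tendsto (fun n : ℕ => ((1:ℝ) / 2) ^ (n + 5)) atTop (𝓝 0) :=
    (tendsto_add_atTop_iff_nat 5).2 (tendsto_pow_atTop_nhds_zero_of_lt_one (by norm_num) (by norm_num))
  simpa using (tendsto_const_nhds (x := (3:ℝ)/16)).sub h

theorem exists_gap {X : ℝ} (h : 5 / 32 ≤ X) (h' : X < 3 / 16) : ∃ n, cc n ≤ X ∧ X < cc (n + 1) := by
  classical
  have hex : ∃ n, X < cc n := (cc_tendsto.eventually (lt_mem_nhds h')).exists
  have h0 : Nat.find hex ≠ 0 := by
    intro h0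
    have := Nat.find_spec hex
    rw [h0, cc_zero] at this
    linarith
  obtain ⟨n, hn⟩ := Nat.exists_eq_succ_of_ne_zero h0
  refine ⟨n, ?_, ?_⟩
  · by_contra hlt
    exact Nat.find_min hex (m := n) (by omega) (not_le.1 hlt)
  · have := Nat.find_spec hex
    rwa [hn] at this

theorem md_mem (n : ℕ) : md n ∈ Icc (0:ℝ) 1 := by
  have h1 := cc_ge n
  have h2 := v_pos n
  have h3 := cc_lt (n + 1)
  rw [cc_succ] at h3
  rw [md_eq]
  constructor <;> linarith

/-- centres of the gaps as a parameter -/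
noncomputable def mdP : Pm := fun n => ⟨md n, md_mem n⟩

/-- the position of the bumps -/
noncomputable def ctrP (x : ℕ → Bool) : Pm := fun k =>
  if 2 ≤ k ∧ x (k - 2) = true then ⟨md (k - 2), md_mem (k - 2)⟩ else ⟨7 / 32, by constructor <;> norm_num⟩

theorem ctrP_continuous : Continuous ctrP := by
  refine continuous_pi fun k => ?_
  unfold ctrP
  by_cases hk : 2 ≤ k
  · simp only [hk, true_and]
    have h : Continuous (fun b : Bool => if b = true then (⟨md (k - 2), md_mem (k - 2)⟩ : Icc (0:ℝ) 1)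
      else ⟨7 / 32, by constructor <;> norm_num⟩) := continuous_of_discreteTopology
    exact h.comp (continuous_apply (k - 2))
  · simp only [hk, false_and, if_false]
    exact continuous_const

/-- heights of the large bumps -/
noncomputable def big (n : ℕ) : ℝ := ep (n + 2) * gw (v (n + 2)) 0

theorem big_pos (n : ℕ) : 0 < big n :=
  mul_pos (ep_pos _) (gw_pos ((v_le _).trans (by norm_num)) (by simpa using v_pos _))

/-- heights of the small bumps -/
noncomputable def tau (n : ℕ) : ℝ := min (ep n) (big n / 2 ^ n)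

theorem tau_pos (n : ℕ) : 0 < tau n := lt_min (ep_pos n) (div_pos (big_pos n) (by positivity))

theorem tau_le (n : ℕ) : tau n ≤ ep n := min_le_left _ _

/-- the fixed part -/
noncomputable def Bf (X : ℝ) : ℝ := Pw tau (emb mdP, X)

theorem Bf_contDiff : ContDiff ℝ ∞ Bf :=
  (Pw_contDiff (fun n => (tau_pos n).le) tau_le).comp (contDiff_const.prodMk contDiff_id)

theorem tw_emb (ht : ℕ → ℝ) (a : Pm) (n : ℕ) (X : ℝ) :
    tw ht n (emb a, X) = ht n * gw (v n) (X - a n) := by
  unfold tw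
  rw [Ln_apply, two_emb]

theorem Bf_nonneg (X : ℝ) : 0 ≤ Bf X := Pw_nonneg (fun n => (tau_pos n).le) _

theorem Bf_le (X : ℝ) : Bf X ≤ 1 / 16 := Pw_le (fun n => (tau_pos n).le) tau_le _

theorem Bf_pos {n : ℕ} {X : ℝ} (h : |X - md n| < v n / 2) : 0 < Bf X := by
  have h1 : tw tau n (emb mdP, X) ≤ Bf X :=
    (tw_summable' (fun n => (tau_pos n).le) tau_le _).le_tsum n
      fun j _ => tw_nonneg (fun n => (tau_pos n).le) j _
  refine lt_of_lt_of_le ?_ h1
  rw [tw_emb]
  exact mul_pos (tau_pos n) (gw_pos ((v_le _).trans (by norm_num)) h)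

/-- a bump centred at `m` vanishes at `X ∈ [0, 1]` -/
theorem gw_zero' {n : ℕ} {m X : ℝ} (hm : 9 / 64 ≤ m) (hm' : m ≤ 15 / 64) (hX : 0 ≤ X) (hX' : X ≤ 1)
    (h : v n / 2 ≤ |X - m|) : gw (v n) (X - m) = 0 := by
  refine gw_zero (v_pos n).le h ?_
  have := v_le n
  rw [abs_le]
  constructor <;> linarith

theorem md_bd (n : ℕ) : 5 / 32 ≤ md n ∧ md n ≤ 3 / 16 := by
  have h1 := cc_ge n
  have h2 := v_pos n
  have h3 := cc_lt (n + 1)
  rw [cc_succ] at h3
  rw [md_eq]
  constructor <;> linarith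

theorem gap_dist {n : ℕ} {X : ℝ} (h : X ≤ cc n ∨ cc (n + 1) ≤ X) : v n / 2 ≤ |X - md n| := by
  rw [cc_succ] at h
  rw [md_eq]
  rcases h with h | h
  · rw [abs_of_nonpos (by linarith [v_pos n])]; linarith
  · rw [abs_of_nonneg (by linarith [v_pos n])]; linarith

theorem gap_dist' {n m : ℕ} (hmn : m ≠ n) {X : ℝ} (h : cc n ≤ X) (h' : X ≤ cc (n + 1)) :
    v m / 2 ≤ |X - md m| := by
  apply gap_dist
  rcases lt_or_gt_of_ne hmn with h1 | h1
  · right
    exact (cc_strictMono.monotone (Nat.succ_le_of_lt h1)).trans h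
  · left
    exact h'.trans (cc_strictMono.monotone (Nat.succ_le_of_lt h1))

theorem Bf_zero {X : ℝ} (hX : 0 ≤ X) (hX' : X ≤ 1) (h : ∀ n, X ≤ cc n ∨ cc (n + 1) ≤ X) :
    Bf X = 0 := by
  have h1 : (fun n => tw tau n (emb mdP, X)) = fun _ => 0 := by
    funext n
    rw [tw_emb]
    have := md_bd n
    rw [show ((mdP n : Icc (0:ℝ) 1) : ℝ) = md n from rfl,
      gw_zero' (by linarith) (by linarith) hX hX' (gap_dist (h n)), mul_zero]
  show (∑' n, tw tau n (emb mdP, X)) = 0
  rw [h1, tsum_zero]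

theorem Bf_gap {n : ℕ} {X : ℝ} (h : cc n ≤ X) (h' : X ≤ cc (n + 1)) : Bf X ≤ tau n := by
  have hX : 0 ≤ X := by linarith [cc_ge n]
  have hX' : X ≤ 1 := by linarith [cc_lt (n + 1)]
  show (∑' m, tw tau m (emb mdP, X)) ≤ tau n
  rw [tsum_eq_single n]
  · rw [tw_emb]
    calc tau n * gw (v n) (X - mdP n) ≤ tau n * 1 :=
          mul_le_mul_of_nonneg_left (gw_le_one _ _) (tau_pos n).le
      _ = _ := mul_one _
  · intro m hm
    rw [tw_emb]
    have := md_bd m
    rw [show ((mdP m : Icc (0:ℝ) 1) : ℝ) = md m from rfl,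
      gw_zero' (by linarith) (by linarith) hX hX' (gap_dist' hm h h'), mul_zero]

/-- the variable part -/
noncomputable def Pf (x : ℕ → Bool) (X : ℝ) : ℝ := Pw ep (emb (ctrP x), X)

theorem Pf_nonneg (x : ℕ → Bool) (X : ℝ) : 0 ≤ Pf x X := Pw_nonneg (fun n => (ep_pos n).le) _

theorem Pf_le (x : ℕ → Bool) (X : ℝ) : Pf x X ≤ 1 / 16 :=
  Pw_le (fun n => (ep_pos n).le) (fun _ => le_rfl) _

theorem ctrP_bd (x : ℕ → Bool) (k : ℕ) : 9 / 64 ≤ (ctrP x k : ℝ) ∧ (ctrP x k : ℝ) ≤ 15 / 64 := by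
  unfold ctrP
  split_ifs with h
  · have := md_bd (k - 2)
    constructor
    · show 9 / 64 ≤ md (k - 2); linarith
    · show md (k - 2) ≤ 15 / 64; linarith
  · constructor <;> norm_num

theorem v_add_two (n : ℕ) : v (n + 2) = v n / 4 := by
  rw [v_succ, v_succ]; ring

/-- the bumps vanish away from their position -/
theorem Pf_zero {x : ℕ → Bool} {X : ℝ} (hX : 0 ≤ X) (hX' : X ≤ 1)
    (h : ∀ n, x n = true → v n / 8 ≤ |X - md n|) (h' : 1 / 128 ≤ |X - 7 / 32|) : Pf x X = 0 := by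
  have h1 : (fun k => tw ep k (emb (ctrP x), X)) = fun _ => 0 := by
    funext k
    rw [tw_emb]
    have hb := ctrP_bd x k
    rw [gw_zero' hb.1 hb.2 hX hX', mul_zero]
    unfold ctrP
    split_ifs with hk
    · obtain ⟨n, rfl⟩ : ∃ n, k = n + 2 := ⟨k - 2, by omega⟩
      simp only [Nat.add_sub_cancel] at hk ⊢
      have := h n hk.2
      rw [v_add_two]
      linarith
    · have := v_le k
      show v k / 2 ≤ |X - 7 / 32|
      linarith
  show (∑' k, tw ep k (emb (ctrP x), X)) = 0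
  rw [h1, tsum_zero]

theorem Pf_md {x : ℕ → Bool} {n : ℕ} (hx : x n = true) : big n ≤ Pf x (md n) := by
  have h1 : tw ep (n + 2) (emb (ctrP x), md n) ≤ Pf x (md n) :=
    (tw_summable' (fun n => (ep_pos n).le) (fun _ => le_rfl) _).le_tsum (n + 2)
      fun j _ => tw_nonneg (fun n => (ep_pos n).le) j _
  refine le_trans (le_of_eq ?_) h1
  rw [tw_emb]
  have : ((ctrP x (n + 2) : Icc (0:ℝ) 1) : ℝ) = md n := by
    unfold ctrP
    simp [hx]
  rw [this, sub_self]
  rfl

theorem Pf_contDiff (x : ℕ → Bool) : ContDiff ℝ ∞ (Pf x) :=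
  (Pw_contDiff (fun n => (ep_pos n).le) (fun _ => le_rfl)).comp (contDiff_const.prodMk contDiff_id)

/-- difference of the variable parts -/
theorem Pf_eq {x y : ℕ → Bool} {X : ℝ} (hX : 0 ≤ X) (hX' : X ≤ 1)
    (h : ∀ n, x n ≠ y n → v n / 8 ≤ |X - md n|) (h' : 1 / 128 ≤ |X - 7 / 32|) :
    Pf x X = Pf y X := by
  have h1 : (fun k => tw ep k (emb (ctrP x), X)) = fun k => tw ep k (emb (ctrP y), X) := by
    funext k
    rw [tw_emb, tw_emb]
    by_cases hk : 2 ≤ k ∧ x (k - 2) ≠ y (k - 2)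
    · have hz : ∀ z : ℕ → Bool, gw (v k) (X - ctrP z k) = 0 := by
        intro z
        have hb := ctrP_bd z k
        rw [gw_zero' hb.1 hb.2 hX hX']
        obtain ⟨n, rfl⟩ : ∃ n, k = n + 2 := ⟨k - 2, by omega⟩
        unfold ctrP
        split_ifs with hk'
        · have := h n hk.2
          simp only [Nat.add_sub_cancel]
          rw [v_add_two]
          linarith
        · have := v_le (n + 2)
          show v (n + 2) / 2 ≤ |X - 7 / 32|
          linarith
      rw [hz x, hz y]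
    · have : ctrP x k = ctrP y k := by
        unfold ctrP
        by_cases hk2 : 2 ≤ k
        · have hxy : x (k - 2) = y (k - 2) := by
            by_contra hne
            exact hk ⟨hk2, hne⟩
          rw [hxy]
        · simp [hk2]
      rw [this]
  show (∑' k, tw ep k (emb (ctrP x), X)) = ∑' k, tw ep k (emb (ctrP y), X)
  rw [h1]

/-- vanishes exactly on `[5/32, 3/16] + ℤ` -/
noncomputable def P1 (X : ℝ) : ℝ :=
  expNegInvGlue (Real.cos (Real.pi * (1 / 32)) - Real.cos (2 * Real.pi * (X - 11 / 64)))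

/-- positive exactly on `(9/64, 15/64) + ℤ` -/
noncomputable def P2 (X : ℝ) : ℝ := gw (3 / 32) (X - 3 / 16)

theorem P1_zero {X : ℝ} (h : 5 / 32 ≤ X) (h' : X ≤ 3 / 16) : P1 X = 0 := by
  unfold P1
  rw [expNegInvGlue.zero_iff_nonpos, sub_nonpos, ← Real.cos_abs (2 * Real.pi * (X - 11 / 64))]
  have hpi := Real.pi_pos
  have e : |2 * Real.pi * (X - 11/64)| = 2 * Real.pi * |X - 11/64| := by
    rw [abs_mul, abs_of_pos (by positivity)]
  have hab : |X - 11 / 64| ≤ 1 / 64 := by rw [abs_le]; constructor <;> linarith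
  rw [e]
  apply Real.cos_le_cos_of_nonneg_of_le_pi
  · positivity
  · nlinarith
  · nlinarith

theorem P1_pos {X : ℝ} (h0 : 0 ≤ X) (h1 : X ≤ 1) (h : X < 5 / 32 ∨ 3 / 16 < X) : 0 < P1 X := by
  unfold P1
  apply expNegInvGlue.pos_of_pos
  rw [sub_pos, ← Real.cos_abs (2 * Real.pi * (X - 11 / 64))]
  have hpi := Real.pi_pos
  have e : |2 * Real.pi * (X - 11/64)| = 2 * Real.pi * |X - 11/64| := by
    rw [abs_mul, abs_of_pos (by positivity)]
  have hab : 1 / 64 < |X - 11 / 64| := by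
    rcases h with h | h
    · rw [abs_of_neg (by linarith)]; linarith
    · rw [abs_of_pos (by linarith)]; linarith
  have hab' : |X - 11 / 64| ≤ 53 / 64 := by rw [abs_le]; constructor <;> linarith
  rw [e]
  rcases le_total |X - 11 / 64| (1 / 2) with h2 | h2
  · apply Real.cos_lt_cos_of_nonneg_of_le_pi
    · positivity
    · nlinarith
    · nlinarith
  · have e2 : Real.cos (2 * Real.pi * |X - 11/64|) = Real.cos (2 * Real.pi * (1 - |X - 11/64|)) := by
      rw [show 2 * Real.pi * (1 - |X - 11/64|) = 2 * Real.pi - 2 * Real.pi * |X - 11/64| by ring,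
        Real.cos_two_pi_sub]
    rw [e2]
    apply Real.cos_lt_cos_of_nonneg_of_le_pi
    · positivity
    · nlinarith
    · nlinarith

theorem P1_nonneg (X : ℝ) : 0 ≤ P1 X := expNegInvGlue.nonneg _

theorem P2_nonneg (X : ℝ) : 0 ≤ P2 X := gw_nonneg _ _

theorem P2_pos {X : ℝ} (h : 9 / 64 < X) (h' : X < 15 / 64) : 0 < P2 X := by
  refine gw_pos (by norm_num) ?_
  rw [abs_lt]; constructor <;> linarith

theorem P2_zero {X : ℝ} (h0 : 0 ≤ X) (h1 : X ≤ 1) (h : X ≤ 9 / 64 ∨ 15 / 64 ≤ X) : P2 X = 0 := by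
  refine gw_zero (by norm_num) ?_ ?_
  · rcases h with h | h
    · rw [abs_of_neg (by linarith)]; linarith
    · rw [abs_of_pos (by linarith)]; linarith
  · rw [abs_le]; constructor <;> linarith

theorem P1_periodic (X : ℝ) : P1 (X + 1) = P1 X := by
  unfold P1
  rw [show 2 * Real.pi * (X + 1 - 11 / 64) = 2 * Real.pi * (X - 11 / 64) + 2 * Real.pi by ring,
    Real.cos_add_two_pi]

theorem P2_periodic (X : ℝ) : P2 (X + 1) = P2 X := by
  unfold P2
  rw [show X + 1 - 3 / 16 = (X - 3 / 16) + 1 by ring, gw_periodic]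

theorem P12_pos' {X : ℝ} (h0 : 0 ≤ X) (h1 : X ≤ 1) : 0 < P1 X + P2 X := by
  by_cases h : X < 5 / 32 ∨ 3 / 16 < X
  · have := P1_pos h0 h1 h
    have := P2_nonneg X
    linarith
  · push Not at h
    have := P2_pos (X := X) (by linarith [h.1]) (by linarith [h.2])
    have := P1_nonneg X
    linarith

theorem P12_pos (X : ℝ) : 0 < P1 X + P2 X := by
  have hp : Function.Periodic (fun X => P1 X + P2 X) 1 := by
    intro X
    simp only [P1_periodic, P2_periodic]
  obtain ⟨z, hz, he⟩ := hp.exists_mem_Ico₀ one_pos X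
  have he' : P1 X + P2 X = P1 z + P2 z := he
  rw [he']
  exact P12_pos' hz.1 hz.2.le

/-- the transition function -/
noncomputable def Sf (X : ℝ) : ℝ := P1 X / (P1 X + P2 X)

theorem Sf_contDiff : ContDiff ℝ ∞ Sf := by
  have h1 : ContDiff ℝ ∞ P1 := by
    unfold P1
    refine expNegInvGlue.contDiff.comp ?_
    refine contDiff_const.sub (Real.contDiff_cos.comp ?_)
    exact contDiff_const.mul (contDiff_id.sub contDiff_const)
  have h2 : ContDiff ℝ ∞ P2 := (gw_contDiff _).comp (contDiff_id.sub contDiff_const)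
  exact h1.div (h1.add h2) fun X => (P12_pos X).ne'

theorem Sf_periodic (X : ℝ) : Sf (X + 1) = Sf X := by
  unfold Sf; rw [P1_periodic, P2_periodic]

theorem Sf_nonneg (X : ℝ) : 0 ≤ Sf X := div_nonneg (P1_nonneg X) (P12_pos X).le

theorem Sf_le_one (X : ℝ) : Sf X ≤ 1 := by
  unfold Sf
  rw [div_le_one (P12_pos X)]
  linarith [P2_nonneg X]

theorem Sf_zero {X : ℝ} (h : 5 / 32 ≤ X) (h' : X ≤ 3 / 16) : Sf X = 0 := by
  unfold Sf; rw [P1_zero h h', zero_div]

theorem Sf_pos {X : ℝ} (h0 : 0 ≤ X) (h1 : X ≤ 1) (h : X < 5 / 32 ∨ 3 / 16 < X) : 0 < Sf X :=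
  div_pos (P1_pos h0 h1 h) (P12_pos X)

theorem Sf_one {X : ℝ} (h0 : 0 ≤ X) (h1 : X ≤ 1) (h : X ≤ 9 / 64 ∨ 15 / 64 ≤ X) : Sf X = 1 := by
  unfold Sf
  rw [P2_zero h0 h1 h, add_zero]
  refine div_self (P1_pos h0 h1 ?_).ne'
  rcases h with h | h
  · left; linarith
  · right; linarith

/-- the function `δ` of the family, with parameter in the Banach space -/
noncomputable def delP (q : PP × ℝ) : ℝ := 1 / 2 * Sf q.2 + Bf q.2 + Pw ep q

theorem delP_contDiff : ContDiff ℝ ∞ delP :=
  ((contDiff_const.mul (Sf_contDiff.comp contDiff_snd)).add (Bf_contDiff.comp contDiff_snd)).add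
    (Pw_contDiff (fun n => (ep_pos n).le) (fun _ => le_rfl))

theorem delP_periodic (p : PP) (X : ℝ) : delP (p, X + 1) = delP (p, X) := by
  unfold delP
  simp only
  rw [Sf_periodic, Pw_periodic, show Bf (X + 1) = Bf X from Pw_periodic _ _]

/-- the function `δ_x` -/
noncomputable def del (x : ℕ → Bool) (X : ℝ) : ℝ := delP (emb (ctrP x), X)

theorem del_eq (x : ℕ → Bool) (X : ℝ) : del x X = 1 / 2 * Sf X + Bf X + Pf x X := rfl

theorem del_periodic (x : ℕ → Bool) (X : ℝ) : del x (X + 1) = del x X := delP_periodic _ _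

theorem del_contDiff (x : ℕ → Bool) : ContDiff ℝ ∞ (del x) :=
  delP_contDiff.comp (contDiff_const.prodMk contDiff_id)

theorem del_nonneg (x : ℕ → Bool) (X : ℝ) : 0 ≤ del x X := by
  rw [del_eq]
  linarith [Sf_nonneg X, Bf_nonneg X, Pf_nonneg x X]

theorem del_le (x : ℕ → Bool) (X : ℝ) : del x X ≤ 5 / 8 := by
  rw [del_eq]
  linarith [Sf_le_one X, Bf_le X, Pf_le x X]

theorem del_half (x : ℕ → Bool) {X : ℝ} (h0 : 0 ≤ X) (h1 : X ≤ 1) (h : X ≤ 9 / 64 ∨ 15 / 64 ≤ X) :
    del x X = 1 / 2 := by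
  rw [del_eq, Sf_one h0 h1 h, Bf_zero h0 h1, Pf_zero h0 h1]
  · ring
  · intro n _
    have := md_bd n
    have := v_le n
    rcases h with h | h
    · rw [abs_of_neg (by linarith)]; linarith
    · rw [abs_of_pos (by linarith)]; linarith
  · rcases h with h | h
    · rw [abs_of_neg (by linarith)]; linarith
    · rw [abs_of_pos (by linarith)]; linarith
  · intro n
    have := cc_ge n
    have := cc_lt (n + 1)
    rcases h with h | h
    · left; linarith
    · right; linarith

theorem del_zero_of_gapend (x : ℕ → Bool) {X : ℝ} (h : X = 3 / 16 ∨ ∃ n, X = cc n) :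
    del x X = 0 := by
  have hX : 5 / 32 ≤ X ∧ X ≤ 3 / 16 := by
    rcases h with rfl | ⟨n, rfl⟩
    · constructor <;> norm_num
    · exact ⟨cc_ge n, (cc_lt n).le⟩
  have h1 : ∀ n, X ≤ cc n ∨ cc (n + 1) ≤ X := by
    intro n
    rcases h with rfl | ⟨m, rfl⟩
    · right; exact (cc_lt _).le
    · rcases le_or_gt m n with h | h
      · left; exact cc_strictMono.monotone h
      · right; exact cc_strictMono.monotone h
  rw [del_eq, Sf_zero hX.1 hX.2, Bf_zero (by linarith [hX.1]) (by linarith [hX.2]) h1,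
    Pf_zero (by linarith [hX.1]) (by linarith [hX.2])]
  · ring
  · intro n _
    have := gap_dist (h1 n)
    linarith [v_pos n]
  · rw [abs_of_neg (by linarith [hX.2])]; linarith [hX.2]

theorem del_pos (x : ℕ → Bool) {X : ℝ} (h0 : 0 ≤ X) (h1 : X ≤ 1) (h : X ≠ 3 / 16)
    (h' : ∀ n, X ≠ cc n) : 0 < 1 / 2 * Sf X + Bf X := by
  by_cases hc : X < 5 / 32 ∨ 3 / 16 < X
  · linarith [Sf_pos h0 h1 hc, Bf_nonneg X]
  · push Not at hc
    obtain ⟨n, hn1, hn2⟩ := exists_gap hc.1 (lt_of_le_of_ne hc.2 h)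
    have h3 : cc n < X := lt_of_le_of_ne hn1 (Ne.symm (h' n))
    have h4 : |X - md n| < v n / 2 := by
      rw [cc_succ] at hn2
      rw [md_eq, abs_lt]
      constructor <;> linarith
    linarith [Bf_pos h4, Sf_nonneg X]

theorem del_eq_zero_iff (x : ℕ → Bool) {X : ℝ} (h0 : 0 ≤ X) (h1 : X ≤ 1) :
    del x X = 0 ↔ X = 3 / 16 ∨ ∃ n, X = cc n := by
  constructor
  · intro h
    by_contra hc
    push Not at hc
    have := del_pos x h0 h1 hc.1 hc.2
    rw [del_eq] at h
    linarith [Pf_nonneg x X]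
  · exact del_zero_of_gapend x

theorem del_gap {y : ℕ → Bool} {n : ℕ} (hy : y n = false) {X : ℝ} (h : cc n ≤ X)
    (h' : X ≤ cc (n + 1)) : del y X ≤ tau n := by
  have hX : 5 / 32 ≤ X := (cc_ge n).trans h
  have hX' : X ≤ 3 / 16 := h'.trans (cc_lt _).le
  rw [del_eq, Sf_zero hX hX', Pf_zero (by linarith) (by linarith)]
  · linarith [Bf_gap h h']
  · intro m hm
    have hmn : m ≠ n := by
      rintro rfl
      rw [hy] at hm; exact absurd hm (by simp)
    have := gap_dist' hmn h h'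
    linarith [v_pos m]
  · rw [abs_of_neg (by linarith)]; linarith

theorem del_md {x : ℕ → Bool} {n : ℕ} (hx : x n = true) :
    big n ≤ del x (md n) ∧ del x (md n) ≤ 1 / 8 := by
  have h := md_bd n
  rw [del_eq, Sf_zero h.1 h.2]
  constructor
  · linarith [Pf_md hx, Bf_nonneg (md n)]
  · linarith [Pf_le x (md n), Bf_le (md n)]

/-- if the sequences differ at finitely many places, the functions differ only where they are
bounded below -/
theorem del_diff {x y : ℕ → Bool} (hfin : {n | x n ≠ y n}.Finite) :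
    ∃ r > 0, ∀ X, del x X ≠ del y X → r ≤ del x X ∧ r ≤ del y X := by
  set K : Set ℝ := (⋃ n ∈ {n | x n ≠ y n}, Metric.closedBall (md n) (v n / 8)) ∪
    Metric.closedBall (7 / 32) (1 / 128) with hK
  have hKc : IsCompact K := by
    refine IsCompact.union ?_ (isCompact_closedBall _ _)
    exact hfin.isCompact_biUnion fun n _ => isCompact_closedBall _ _
  have hKpos : ∀ X ∈ K, 0 < 1 / 2 * Sf X + Bf X := by
    intro X hX
    rcases hX with hX | hX
    · simp only [mem_iUnion] at hX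
      obtain ⟨n, -, hn⟩ := hX
      rw [Metric.mem_closedBall, Real.dist_eq] at hn
      have : |X - md n| < v n / 2 := by linarith [v_pos n]
      linarith [Bf_pos this, Sf_nonneg X]
    · rw [Metric.mem_closedBall, Real.dist_eq, abs_le] at hX
      have := Sf_pos (X := X) (by linarith [hX.1]) (by linarith [hX.2]) (Or.inr (by linarith [hX.1]))
      linarith [Bf_nonneg X]
  have hcont : Continuous (fun X => 1 / 2 * Sf X + Bf X) :=
    (continuous_const.mul Sf_contDiff.continuous).add Bf_contDiff.continuous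
  have hKne : K.Nonempty := ⟨7 / 32, Or.inr (Metric.mem_closedBall_self (by norm_num))⟩
  obtain ⟨X0, hX0, hmin⟩ := hKc.exists_isMinOn hKne hcont.continuousOn
  refine ⟨1 / 2 * Sf X0 + Bf X0, hKpos X0 hX0, fun X hne => ?_⟩
  have hp : Function.Periodic (fun X => (del x X, del y X)) 1 := by
    intro X
    simp only [del_periodic]
  obtain ⟨z, hz, he⟩ := hp.exists_mem_Ico₀ one_pos X
  have he1 : del x X = del x z := congrArg Prod.fst he
  have he2 : del y X = del y z := congrArg Prod.snd he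
  rw [he1, he2] at hne ⊢
  have hzK : z ∈ K := by
    by_contra hzK
    apply hne
    rw [del_eq, del_eq, Pf_eq hz.1 hz.2.le]
    · intro n hn
      by_contra hlt
      apply hzK
      left
      simp only [mem_iUnion]
      refine ⟨n, hn, ?_⟩
      rw [Metric.mem_closedBall, Real.dist_eq]
      exact (not_le.1 hlt).le
    · by_contra hlt
      apply hzK
      right
      rw [Metric.mem_closedBall, Real.dist_eq]
      exact (not_le.1 hlt).le
  have h5 : 1 / 2 * Sf X0 + Bf X0 ≤ 1 / 2 * Sf z + Bf z := hmin hzK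
  rw [del_eq, del_eq]
  constructor
  · linarith [Pf_nonneg x z]
  · linarith [Pf_nonneg y z]

end Pool.Agent.H410R3.AX
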