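import Mathlib
import Pool.Agent.H410R3.AX.Del
import Pool.Agent.H410R3.KS.Smooth

/-!
# The torus maps
-/

open Set Filter Topology
open scoped Manifold ContDiff
open Pool.Agent.Helper114.AB

namespace Pool.Agent.H410R3.AX

open Pool.Agent.H410R3.KS

/-- the function `Θ` -/
noncomputable def thP (p : PP) (X : ℝ) : ℝ := 1 / 2 - delP (p, X)

theorem thP_periodic (p : PP) (X : ℝ) : thP p (X + 1) = thP p X := by
  unfold thP; rw [delP_periodic]

theorem thP_contDiff : ContDiff ℝ ∞ (fun q : PP × ℝ => thP q.1 q.2) := by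
  unfold thP
  exact contDiff_const.sub delP_contDiff

theorem thP_contDiff' (p : PP) : ContDiff ℝ ∞ (thP p) := by
  have h1 : ContDiff ℝ ∞ (fun x : ℝ => (p, x)) := contDiff_const.prodMk contDiff_id
  have h2 := ContDiff.comp (g := fun q : PP × ℝ => thP q.1 q.2) (f := fun x : ℝ => (p, x))
    thP_contDiff h1
  exact h2

/-- the circle homeomorphism `g` -/
noncomputable def gc : T1 ≃ₜ T1 := circH GH G_add_one

theorem gc_coe (x : ℝ) : gc (x : T1) = ((G x : ℝ) : T1) := rfl

theorem gc_symm_coe (x : ℝ) : gc.symm (x : T1) = ((GH.symm x : ℝ) : T1) := rfl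

theorem th_per (p : PP) : Function.Periodic (fun x => ((thP p x : ℝ) : T1)) 1 := by
  intro x
  simp only [thP_periodic]

/-- the function `Θ` on the circle -/
noncomputable def tc (p : PP) : T1 → T1 := (th_per p).lift

theorem tc_coe (p : PP) (x : ℝ) : tc p (x : T1) = ((thP p x : ℝ) : T1) := rfl

theorem tc_continuous (p : PP) : Continuous (tc p) := by
  have h1 : Continuous (fun x => ((thP p x : ℝ) : T1)) :=
    (AddCircle.continuous_mk' 1).comp (thP_contDiff' p).continuous
  exact continuous_coinduced_dom.2 h1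

/-- the torus homeomorphisms -/
noncomputable def AP (p : PP) : T2 ≃ₜ T2 where
  toFun z := (gc z.1, gc z.2 + tc p z.1)
  invFun z := (gc.symm z.1, gc.symm (z.2 - tc p (gc.symm z.1)))
  left_inv z := by simp
  right_inv z := by simp
  continuous_toFun := by
    have := tc_continuous p
    fun_prop
  continuous_invFun := by
    have := tc_continuous p
    fun_prop

theorem AP_apply (p : PP) (z : T2) : AP p z = (gc z.1, gc z.2 + tc p z.1) := rfl

theorem AP_symm_apply (p : PP) (z : T2) :
    (AP p).symm z = (gc.symm z.1, gc.symm (z.2 - tc p (gc.symm z.1))) := rfl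

theorem AP_coe (p : PP) (s t : ℝ) :
    AP p ((s : T1), (t : T1)) = (((G s : ℝ) : T1), ((G t + thP p s : ℝ) : T1)) := by
  rw [AP_apply]
  simp only [gc_coe, tc_coe, AddCircle.coe_add]

theorem AP_symm_coe (p : PP) (s t : ℝ) :
    (AP p).symm ((s : T1), (t : T1)) =
      (((GH.symm s : ℝ) : T1), ((GH.symm (t - thP p (GH.symm s)) : ℝ) : T1)) := by
  rw [AP_symm_apply]
  simp only [gc_symm_coe, tc_coe, ← AddCircle.coe_sub]

theorem AP_smooth : ContMDiff (𝓘(ℝ, PP).prod II) II ∞
    (fun q : PP × CC => EM (AP q.1 (EM.symm q.2))) := by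
  refine descend (fun q : PP × (ℝ × ℝ) => (G q.2.1, G q.2.2 + thP q.1 q.2.1)) ?_ (fun p => AP p) ?_
  · have e1 : ContDiff ℝ ∞ (fun q : PP × (ℝ × ℝ) => q.2.1) := contDiff_fst.comp contDiff_snd
    have e2 : ContDiff ℝ ∞ (fun q : PP × (ℝ × ℝ) => q.2.2) := contDiff_snd.comp contDiff_snd
    have e3 : ContDiff ℝ ∞ (fun q : PP × (ℝ × ℝ) => G q.2.1) := G_contDiff.comp e1
    have e4 : ContDiff ℝ ∞ (fun q : PP × (ℝ × ℝ) => G q.2.2) := G_contDiff.comp e2
    have e5 : ContDiff ℝ ∞ (fun q : PP × (ℝ × ℝ) => (q.1, q.2.1)) := contDiff_fst.prodMk e1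
    have e6 := ContDiff.comp (g := fun q : PP × ℝ => thP q.1 q.2)
      (f := fun q : PP × (ℝ × ℝ) => (q.1, q.2.1)) thP_contDiff e5
    exact e3.prodMk (e4.add e6)
  · intro a v
    exact AP_coe a v.1 v.2

theorem AP_smooth' (p : PP) : ContMDiff II II ∞ (fun q : CC => EM (AP p (EM.symm q))) := by
  have h2 : ContMDiff II (𝓘(ℝ, PP).prod II) ∞ (fun q : CC => (p, q)) :=
    contMDiff_const.prodMk contMDiff_id
  have h := AP_smooth
  have h3 := ContMDiff.comp (g := fun q : PP × CC => EM (AP q.1 (EM.symm q.2))) h h2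
  exact h3

theorem AP_symm_smooth (p : PP) : ContMDiff II II ∞
    (fun q : CC => EM ((AP p).symm (EM.symm q))) := by
  have h : ContMDiff (𝓘(ℝ, PP).prod II) II ∞
      (fun q : PP × CC => EM ((AP p).symm (EM.symm q.2))) := by
    refine descend (fun q : PP × (ℝ × ℝ) =>
      (GH.symm q.2.1, GH.symm (q.2.2 - thP p (GH.symm q.2.1)))) ?_ (fun _ => (AP p).symm) ?_
    · have h1 : ContDiff ℝ ∞ (fun q : PP × (ℝ × ℝ) => GH.symm q.2.1) :=
        GH_symm_contDiff.comp (contDiff_fst.comp contDiff_snd)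
      refine ContDiff.prodMk h1 ?_
      refine GH_symm_contDiff.comp ((contDiff_snd.comp contDiff_snd).sub ?_)
      exact (thP_contDiff' p).comp h1
    · intro a v
      exact AP_symm_coe p v.1 v.2
  have h2 : ContMDiff II (𝓘(ℝ, PP).prod II) ∞ (fun q : CC => ((0 : PP), q)) :=
    contMDiff_const.prodMk contMDiff_id
  have h3 := ContMDiff.comp (g := fun q : PP × CC => EM ((AP p).symm (EM.symm q.2))) h h2
  exact h3

/-- the diffeomorphisms of the torus -/
noncomputable def dA (p : PP) : DiffR II CC ⊤ :=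
  { toEquiv := (EM.symm.trans ((AP p).trans EM)).toEquiv
    contMDiff_toFun := AP_smooth' p
    contMDiff_invFun := AP_symm_smooth p }

theorem dA_map (p : PP) (q : CC) : (dA p).map q = EM (AP p (EM.symm q)) := rfl

theorem dA_inv (p : PP) (q : CC) : (dA p).inv q = EM ((AP p).symm (EM.symm q)) := rfl

theorem dA_iter (p : PP) (k : ℕ) (q : CC) :
    ((dA p).map^[k] q) = EM ((AP p)^[k] (EM.symm q)) := by
  induction k generalizing q with
  | zero => simp
  | succ n ih =>
    rw [Function.iterate_succ_apply, ih, dA_map, EM.symm_apply_apply, Function.iterate_succ_apply]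

theorem conj_iff (p p' : PP) :
    TopConj (dA p).map (dA p').map ↔
      ∃ H : T2 ≃ₜ T2, ∀ q, H (AP p q) = AP p' (H q) := by
  constructor
  · rintro ⟨h, hh⟩
    refine ⟨EM.trans (h.trans EM.symm), fun q => ?_⟩
    have h1 := hh (EM q)
    have e1 : (dA p).map (EM q) = EM (AP p q) := by
      show EM (AP p (EM.symm (EM q))) = _
      rw [EM.symm_apply_apply]
    rw [e1] at h1
    simp only [Homeomorph.trans_apply]
    rw [h1]
    show EM.symm (EM (AP p' (EM.symm (h (EM q))))) = _
    rw [EM.symm_apply_apply]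
  · rintro ⟨H, hH⟩
    refine ⟨EM.symm.trans (H.trans EM), fun x => ?_⟩
    simp only [Homeomorph.trans_apply]
    have e1 : EM.symm ((dA p).map x) = AP p (EM.symm x) := by
      show EM.symm (EM (AP p (EM.symm x))) = _
      rw [EM.symm_apply_apply]
    rw [e1, hH]
    show _ = EM (AP p' (EM.symm (EM (H (EM.symm x)))))
    rw [EM.symm_apply_apply]

end Pool.Agent.H410R3.AX
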