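import Mathlib
import Pool.Agent.H410R3.AX.Tor

/-!
# Continuity of a smooth family in the `C^∞` topology
-/

open Set Filter Topology
open scoped Manifold ContDiff
open Pool.Agent.Helper114.AB

namespace Pool.Agent.H410R3.AX

open Pool.Agent.H410R3.KS

/-- the model topological space of the torus -/
abbrev HH : Type := ModelProd (EuclideanSpace ℝ (Fin 1)) (EuclideanSpace ℝ (Fin 1))

section

variable (FF : PP × CC → CC) (hFF : ContMDiff (𝓘(ℝ, PP).prod II) II ∞ FF)

include hFF in
/-- joint smoothness of the local representatives -/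
theorem rep_smooth (x y : CC) (p0 : PP) (z0 : CC)
    (hz0 : z0 ∈ (chartAt HH x).source) (hy : FF (p0, z0) ∈ (chartAt HH y).source) :
    ContDiffAt ℝ ∞ (fun q : PP × EE => extChartAt II y (FF (q.1, (extChartAt II x).symm q.2)))
      (p0, extChartAt II x z0) := by
  rw [← contMDiffAt_iff_contDiffAt]
  have hx : (extChartAt II x).symm (extChartAt II x z0) = z0 :=
    (extChartAt II x).left_inv (by rwa [extChartAt_source])
  have htgt : extChartAt II x z0 ∈ (extChartAt II x).target :=
    (extChartAt II x).map_source (by rwa [extChartAt_source])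
  have h1 : ContMDiffAt 𝓘(ℝ, PP × EE) 𝓘(ℝ, PP) ∞ (fun q : PP × EE => q.1)
      (p0, extChartAt II x z0) := contDiff_fst.contMDiff.contMDiffAt
  have h2 : ContMDiffAt 𝓘(ℝ, PP × EE) 𝓘(ℝ, EE) ∞ (fun q : PP × EE => q.2)
      (p0, extChartAt II x z0) := contDiff_snd.contMDiff.contMDiffAt
  have h3 : ContMDiffAt 𝓘(ℝ, EE) II ∞ (extChartAt II x).symm (extChartAt II x z0) :=
    (contMDiffOn_extChartAt_symm x).contMDiffAt (extChartAt_target_mem_nhds' htgt)
  have h4 := ContMDiffAt.comp (g := (extChartAt II x).symm) (f := fun q : PP × EE => q.2)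
    (p0, extChartAt II x z0) h3 h2
  have h5 := h1.prodMk h4
  have h6 := ContMDiffAt.comp (g := FF) (p0, extChartAt II x z0) (hFF.contMDiffAt) h5
  have h7 : ContMDiffAt II 𝓘(ℝ, EE) ∞ (extChartAt II y)
      (FF (p0, (extChartAt II x).symm (extChartAt II x z0))) := by
    rw [hx]
    exact contMDiffAt_extChartAt' hy
  have h8 := ContMDiffAt.comp (g := extChartAt II y) (p0, extChartAt II x z0) h7 h6
  exact h8

/-- smoothness of the local representative of one diffeomorphism -/
theorem rep_one {r : ℕ∞} (f : DiffR II CC r) (x y z0 : CC)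
    (hz0 : z0 ∈ (chartAt HH x).source) (hy : f.map z0 ∈ (chartAt HH y).source) :
    ContDiffAt ℝ (r : WithTop ℕ∞) (localRep II x y f.map) (extChartAt II x z0) := by
  rw [← contMDiffAt_iff_contDiffAt]
  have hx : (extChartAt II x).symm (extChartAt II x z0) = z0 :=
    (extChartAt II x).left_inv (by rwa [extChartAt_source])
  have htgt : extChartAt II x z0 ∈ (extChartAt II x).target :=
    (extChartAt II x).map_source (by rwa [extChartAt_source])
  have h3 : ContMDiffAt 𝓘(ℝ, EE) II (r : WithTop ℕ∞) (extChartAt II x).symm (extChartAt II x z0) :=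
    (contMDiffOn_extChartAt_symm x).contMDiffAt (extChartAt_target_mem_nhds' htgt)
  have hf : ContMDiff II II (r : WithTop ℕ∞) f.map := Diffeomorph.contMDiff_toFun f
  have h6 := ContMDiffAt.comp (g := f.map) (extChartAt II x z0) (hf.contMDiffAt) h3
  have h7 : ContMDiffAt II 𝓘(ℝ, EE) (r : WithTop ℕ∞) (extChartAt II y)
      (f.map ((extChartAt II x).symm (extChartAt II x z0))) := by
    rw [hx]
    exact contMDiffAt_extChartAt' hy
  have h8 := ContMDiffAt.comp (g := extChartAt II y) (extChartAt II x z0) h7 h6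
  exact h8

theorem iter_cont {G : EE → EE} {u : EE} {r : ℕ∞} (h : ContDiffAt ℝ (r : WithTop ℕ∞) G u) {j : ℕ}
    (hj : (j : ℕ∞) ≤ r) : ContinuousAt (iteratedFDeriv ℝ j G) u := by
  have h2 : ContDiffAt ℝ 0 (iteratedFDeriv ℝ j G) u := h.iteratedFDeriv_right (m := 0) (i := j)
      (by rw [zero_add]; exact_mod_cast hj)
  exact h2.continuousAt

include hFF in
theorem open_pre {r : ℕ∞} (D : PP → DiffR II CC r) (hD : ∀ p z, (D p).map z = FF (p, z))
    (f : DiffR II CC r) (x y : CC) (K : Set CC) (k : ℕ) (ε : ℝ)
    (hK : IsCompact K) (hKx : K ⊆ (chartAt HH x).source) (hf : MapsTo f.map K (chartAt HH y).source)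
    (hk : (k : ℕ∞) ≤ r) : IsOpen {p : PP | D p ∈ basicNhd II f x y K k ε} := by
  have hFc : Continuous FF := hFF.continuous
  have hD' : ∀ p, (D p).map = fun z => FF (p, z) := fun p => funext (hD p)
  have hloc : ∀ p, localRep II x y (D p).map =
      fun u => extChartAt II y (FF (p, (extChartAt II x).symm u)) := by
    intro p
    rw [hD']
    rfl
  rw [isOpen_iff_eventually]
  rintro p0 ⟨hp1, hp2⟩
  have key : ∀ z ∈ K, ∀ᶠ q : PP × CC in 𝓝 (p0, z), FF q ∈ (chartAt HH y).source ∧
      ∀ j ≤ k, ‖iteratedFDeriv ℝ j (fun u => extChartAt II y (FF (q.1, (extChartAt II x).symm u)))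
          (extChartAt II x q.2) -
        iteratedFDeriv ℝ j (localRep II x y f.map) (extChartAt II x q.2)‖ < ε := by
    intro z hz
    have hzx := hKx hz
    have hFz : FF (p0, z) ∈ (chartAt HH y).source := by
      have := hp1 hz
      rwa [hD] at this
    refine (hFc.continuousAt.eventually_mem
      ((chartAt HH y).open_source.mem_nhds hFz)).and ?_
    have hfin : ∀ j ∈ Finset.range (k + 1), ∀ᶠ q : PP × CC in 𝓝 (p0, z),
        ‖iteratedFDeriv ℝ j (fun u => extChartAt II y (FF (q.1, (extChartAt II x).symm u)))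
          (extChartAt II x q.2) -
        iteratedFDeriv ℝ j (localRep II x y f.map) (extChartAt II x q.2)‖ < ε := by
      intro j hj
      have hj' : j ≤ k := Nat.lt_succ_iff.1 (Finset.mem_range.1 hj)
      have hch : ContinuousAt (extChartAt II x) z := continuousAt_extChartAt' (by
        rwa [extChartAt_source])
      have c1 : ContinuousAt (fun q : PP × CC => (q.1, extChartAt II x q.2)) (p0, z) :=
        ContinuousAt.prodMk continuousAt_fst (ContinuousAt.comp (f := Prod.snd) hch continuousAt_snd)
      have c2 := partial_cont (rep_smooth FF hFF x y p0 z hzx hFz) j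
      have c3 := ContinuousAt.comp (x := (p0, z)) (f := fun q : PP × CC => (q.1, extChartAt II x q.2))
        c2 c1
      have c4 := iter_cont (rep_one f x y z hzx (hf hz)) (j := j)
        (le_trans (by exact_mod_cast hj') hk)
      have c5 : ContinuousAt (fun q : PP × CC => extChartAt II x q.2) (p0, z) :=
        ContinuousAt.comp (f := Prod.snd) hch continuousAt_snd
      have c6 := ContinuousAt.comp (x := (p0, z)) (f := fun q : PP × CC => extChartAt II x q.2) c4 c5
      have c7 := (c3.sub c6).norm
      have hlt := hp2 z hz j hj'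
      rw [hloc] at hlt
      exact c7.eventually_lt continuousAt_const hlt
    have := (Finset.eventually_all _).2 hfin
    filter_upwards [this] with q hq j hj
    exact hq j (Finset.mem_range.2 (Nat.lt_succ_of_le hj))
  have h2 := hK.eventually_forall_of_forall_eventually (x₀ := p0)
    (P := fun (p : PP) (z : CC) => FF (p, z) ∈ (chartAt HH y).source ∧
      ∀ j ≤ k, ‖iteratedFDeriv ℝ j (fun u => extChartAt II y (FF (p, (extChartAt II x).symm u)))
          (extChartAt II x z) -
        iteratedFDeriv ℝ j (localRep II x y f.map) (extChartAt II x z)‖ < ε) key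
  filter_upwards [h2] with p hp
  refine ⟨fun z hz => ?_, fun z hz => ?_⟩
  · rw [hD]
    exact (hp z hz).1
  · rw [hloc]
    exact (hp z hz).2

include hFF in
theorem fam_continuous {r : ℕ∞} (D : PP → DiffR II CC r) (hD : ∀ p z, (D p).map z = FF (p, z)) :
    @Continuous _ _ _ (crTopology II CC r) D := by
  refine continuous_generateFrom_iff.2 ?_
  rintro _ ⟨f, x, y, K, k, ε, hK, hKx, hf, hk, hε, rfl⟩
  exact open_pre FF hFF D hD f x y K k ε hK hKx hf hk

end

/-- the family of diffeomorphisms -/
noncomputable def fam (x : ℕ → Bool) : DiffR II CC ⊤ := dA (emb (ctrP x))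

theorem dA_continuous : @Continuous _ _ _ (crTopology II CC ⊤) dA :=
  fam_continuous (fun q : PP × CC => EM (AP q.1 (EM.symm q.2))) AP_smooth dA fun _ _ => rfl

theorem fam_cont : @Continuous _ _ _ (crTopology II CC ⊤) fam := by
  let _ : TopologicalSpace (DiffR II CC ⊤) := crTopology II CC ⊤
  exact dA_continuous.comp (emb_continuous.comp ctrP_continuous)

end Pool.Agent.H410R3.AX
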