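import Mathlib
import Pool.Agent.H410R3.KS.Defs

/-!
# Axiom A diffeomorphisms
-/

open Set Filter Topology
open scoped Manifold ContDiff

namespace Pool.Agent.H410R3.AX

open Pool.Agent.H410R3.KS (DiffR DiffR.map DiffR.inv crTopology TopConj)

section General

variable {E H : Type} [NormedAddCommGroup E] [NormedSpace ℝ E] [FiniteDimensional ℝ E]
  [TopologicalSpace H] (I : ModelWithCorners ℝ E H)
  {M : Type} [TopologicalSpace M] [ChartedSpace H M]

/-- The set of the nonwandering points of `f`. -/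
def nonwandering (f : M → M) : Set M :=
  {x | ∀ U ∈ 𝓝 x, ∃ n : ℕ, 0 < n ∧ (f^[n] '' U ∩ U).Nonempty}

variable [IsManifold I ∞ M]

/-- `N` is a continuous norm on the tangent bundle of `M`: it is continuous, and its restriction to
each tangent space is a norm. -/
structure IsTangentNorm (N : TangentBundle I M → ℝ) : Prop where
  continuous : Continuous N
  add_le : ∀ (x : M) (v w : TangentSpace I x), N ⟨x, v + w⟩ ≤ N ⟨x, v⟩ + N ⟨x, w⟩
  smul : ∀ (x : M) (c : ℝ) (v : TangentSpace I x), N ⟨x, c • v⟩ = |c| * N ⟨x, v⟩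
  pos : ∀ (x : M) (v : TangentSpace I x), v ≠ 0 → 0 < N ⟨x, v⟩

/-- The set `K` is a hyperbolic set of the diffeomorphism `f`: it is compact and invariant, and the
tangent bundle of `M` over `K` is a direct sum `Es ⊕ Eu`, invariant by the derivative of `f`, such
that, for a continuous norm on the tangent bundle, `‖D(f^n) v‖ ≤ C λ^n ‖v‖` for `v` in `Es` and
`‖D(f^{-n}) v‖ ≤ C λ^n ‖v‖` for `v` in `Eu`, with constants `C > 0` and `0 < λ < 1`. -/
structure IsHyperbolicSet (f : DiffR I M ⊤) (K : Set M) : Prop where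
  compact : IsCompact K
  invariant : f.map '' K = K
  splitting : ∃ (N : TangentBundle I M → ℝ) (Es Eu : ∀ x : M, Submodule ℝ (TangentSpace I x))
    (C lam : ℝ), IsTangentNorm I N ∧ 0 < C ∧ 0 < lam ∧ lam < 1 ∧
    ∀ x ∈ K, IsCompl (Es x) (Eu x) ∧
      (Es x).map (mfderiv I I f.map x).toLinearMap = Es (f.map x) ∧
      (Eu x).map (mfderiv I I f.map x).toLinearMap = Eu (f.map x) ∧
      (∀ v ∈ Es x, ∀ n : ℕ, N (tangentMap I I (f.map^[n]) ⟨x, v⟩) ≤ C * lam ^ n * N ⟨x, v⟩) ∧
      (∀ v ∈ Eu x, ∀ n : ℕ, N (tangentMap I I (f.inv^[n]) ⟨x, v⟩) ≤ C * lam ^ n * N ⟨x, v⟩)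

/-- Axiom A: the nonwandering set is hyperbolic and the periodic points are dense in it. -/
structure AxiomA (f : DiffR I M ⊤) : Prop where
  hyperbolic : IsHyperbolicSet I f (nonwandering f.map)
  dense : nonwandering f.map ⊆ closure (Function.periodicPts f.map)

/-- The equivalence relation `E_0` on `2^ℕ`. -/
def E0 (x y : ℕ → Bool) : Prop := {n | x n ≠ y n}.Finite

variable (M) in
/-- `E_0` is Borel reducible to topological conjugacy of the Axiom A diffeomorphisms of `M`. -/
def E0Embeds : Prop :=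
  ∃ φ : (ℕ → Bool) → DiffR I M ⊤,
    @Measurable (ℕ → Bool) (DiffR I M ⊤) (borel (ℕ → Bool)) (@borel _ (crTopology I M ⊤)) φ ∧
    (∀ x, AxiomA I (φ x)) ∧
    ∀ x y, E0 x y ↔ TopConj (φ x).map (φ y).map

end General

end Pool.Agent.H410R3.AX
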