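import Mathlib
import Pool.Agent.H410R3.AX.Defs
import Pool.Agent.H410R3.AX.Cont

/-!
# A continuous norm on the tangent bundle of the torus, and the covering map
-/

open Set Filter Topology
open scoped Manifold ContDiff
open Pool.Agent.Helper114.AB

namespace Pool.Agent.H410R3.AX

open Pool.Agent.H410R3.KS

attribute [local instance] finrank_real_complex_fact'

/-- the inclusion of the torus in `ℂ²` -/
noncomputable def inc (z : CC) : ℂ × ℂ := ((z.1 : ℂ), (z.2 : ℂ))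

theorem coe_smooth : ContMDiff (𝓡 1) 𝓘(ℝ, ℂ) ∞ (fun z : Circle => (z:ℂ)) :=
  contMDiff_coe_sphere (E := ℂ) (n := 1) (m := ∞)

theorem inc_smooth : ContMDiff II 𝓘(ℝ, ℂ × ℂ) ∞ inc := by
  have h1 := ContMDiff.comp (g := fun z : Circle => (z:ℂ)) (f := (Prod.fst : CC → Circle))
    coe_smooth (contMDiff_fst (I := 𝓡 1) (J := 𝓡 1))
  have h2 := ContMDiff.comp (g := fun z : Circle => (z:ℂ)) (f := (Prod.snd : CC → Circle))
    coe_smooth (contMDiff_snd (I := 𝓡 1) (J := 𝓡 1))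
  exact h1.prodMk_space h2

/-- the covering -/
noncomputable def cov (w : ℝ × ℝ) : CC :=
  (Circle.exp (2 * Real.pi / 1 * w.1), Circle.exp (2 * Real.pi / 1 * w.2))

theorem EM_cov (w : ℝ × ℝ) : EM (((w.1 : ℝ) : T1), ((w.2 : ℝ) : T1)) = cov w := EM_mk w.1 w.2

theorem EM_symm_cov (w : ℝ × ℝ) : EM.symm (cov w) = (((w.1 : ℝ) : T1), ((w.2 : ℝ) : T1)) := by
  rw [Homeomorph.symm_apply_eq, EM_cov]

theorem cov_smooth : ContMDiff 𝓘(ℝ, ℝ × ℝ) II ∞ cov := by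
  have h1 : ContDiff ℝ ∞ (fun w : ℝ × ℝ => 2 * Real.pi / 1 * w.1) :=
    contDiff_const.mul contDiff_fst
  have h2 : ContDiff ℝ ∞ (fun w : ℝ × ℝ => 2 * Real.pi / 1 * w.2) :=
    contDiff_const.mul contDiff_snd
  have m1 := ContMDiff.comp (g := fun t : ℝ => Circle.exp t)
    (f := fun w : ℝ × ℝ => 2 * Real.pi / 1 * w.1) contMDiff_circleExp h1.contMDiff
  have m2 := ContMDiff.comp (g := fun t : ℝ => Circle.exp t)
    (f := fun w : ℝ × ℝ => 2 * Real.pi / 1 * w.2) contMDiff_circleExp h2.contMDiff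
  exact m1.prodMk m2

/-- a local section of the covering -/
noncomputable def sec (z0 z : CC) : ℝ × ℝ := (lcv z0.1 z.1, lcv z0.2 z.2)

theorem cov_sec (z0 z : CC) : cov (sec z0 z) = z := by
  unfold cov sec
  simp only
  rw [exp_lcv, exp_lcv]

theorem sec_smooth (z0 : CC) : ContMDiffAt II 𝓘(ℝ, ℝ × ℝ) ∞ (sec z0) z0 := by
  have h1 := ContMDiffAt.comp (g := lcv z0.1) (f := (Prod.fst : CC → Circle)) z0
    ((lcv_contMDiffAt z0.1).of_le (m := ∞) le_top) (contMDiffAt_fst (I := 𝓡 1) (J := 𝓡 1))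
  have h2 := ContMDiffAt.comp (g := lcv z0.2) (f := (Prod.snd : CC → Circle)) z0
    ((lcv_contMDiffAt z0.2).of_le (m := ∞) le_top) (contMDiffAt_snd (I := 𝓡 1) (J := 𝓡 1))
  exact h1.prodMk_space h2

/-- the derivative of the covering is onto -/
theorem cov_surj (z0 : CC) (v : EE) :
    ∃ u : ℝ × ℝ, (mfderiv 𝓘(ℝ, ℝ × ℝ) II cov (sec z0 z0) u : EE) = v := by
  have hs : MDifferentiableAt II 𝓘(ℝ, ℝ × ℝ) (sec z0) z0 :=
    (sec_smooth z0).mdifferentiableAt (by simp)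
  have hc : MDifferentiableAt 𝓘(ℝ, ℝ × ℝ) II cov (sec z0 z0) :=
    (cov_smooth.mdifferentiable (by simp)) _
  have h1 := mfderiv_comp z0 hc hs
  have h2 : cov ∘ sec z0 = id := by
    funext z
    exact cov_sec z0 z
  rw [h2, mfderiv_id] at h1
  refine ⟨mfderiv II 𝓘(ℝ, ℝ × ℝ) (sec z0) z0 v, ?_⟩
  have h3 := congrArg (fun L => L v) h1
  exact h3.symm

/-- the derivative of the inclusion is injective -/
theorem inc_inj (z0 : CC) (v : EE)
    (h : (mfderiv II 𝓘(ℝ, ℂ × ℂ) inc z0 v : ℂ × ℂ) = 0) : v = 0 := by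
  have hA : ∀ z1 : Circle, ∃ S : ℂ → ℝ, DifferentiableAt ℝ S (z1 : ℂ) ∧
      ∀ z : Circle, S (z : ℂ) = lcv z1 z := by
    intro z1
    refine ⟨fun x : ℂ =>
      (Complex.arg (z1 : ℂ) + (Complex.log (x * ((z1⁻¹ : Circle) : ℂ))).im) / (2 * Real.pi), ?_,
      fun z => rfl⟩
    have hs : (z1:ℂ) * ((z1⁻¹ : Circle):ℂ) ∈ Complex.slitPlane := by
      rw [← Circle.coe_mul]; simp
    have hlog : DifferentiableAt ℝ Complex.log ((z1:ℂ) * ((z1⁻¹ : Circle):ℂ)) :=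
      (Complex.differentiableAt_log hs).restrictScalars ℝ
    have hm : DifferentiableAt ℝ (fun x : ℂ => x * ((z1⁻¹ : Circle):ℂ)) (z1 : ℂ) :=
      differentiableAt_id.mul_const _
    have h2 := DifferentiableAt.comp (g := Complex.log) (z1 : ℂ) hlog hm
    have h3 := DifferentiableAt.comp (g := Complex.imCLM) (z1 : ℂ)
      Complex.imCLM.differentiableAt h2
    have h4 : DifferentiableAt ℝ (fun x : ℂ =>
        Complex.arg (z1 : ℂ) + (Complex.log (x * ((z1⁻¹ : Circle) : ℂ))).im) (z1 : ℂ) :=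
      (differentiableAt_const _).add h3
    have h5 := h4.mul_const (2 * Real.pi)⁻¹
    simpa only [div_eq_mul_inv] using h5
  obtain ⟨S1, hS1, e1⟩ := hA z0.1
  obtain ⟨S2, hS2, e2⟩ := hA z0.2
  set S : ℂ × ℂ → ℝ × ℝ := fun x => (S1 x.1, S2 x.2) with hS
  have hSd : DifferentiableAt ℝ S (inc z0) := by
    have a1 := DifferentiableAt.comp (g := S1) (f := (Prod.fst : ℂ × ℂ → ℂ)) (inc z0) hS1
      differentiableAt_fst
    have a2 := DifferentiableAt.comp (g := S2) (f := (Prod.snd : ℂ × ℂ → ℂ)) (inc z0) hS2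
      differentiableAt_snd
    exact a1.prodMk a2
  have hi : MDifferentiableAt II 𝓘(ℝ, ℂ × ℂ) inc z0 := (inc_smooth.mdifferentiable (by simp)) _
  have hc : MDifferentiableAt 𝓘(ℝ, ℝ × ℝ) II cov (S (inc z0)) :=
    (cov_smooth.mdifferentiable (by simp)) _
  have h1 := mfderiv_comp z0 hSd.mdifferentiableAt hi
  have hSi : MDifferentiableAt II 𝓘(ℝ, ℝ × ℝ) (S ∘ inc) z0 :=
    MDifferentiableAt.comp z0 hSd.mdifferentiableAt hi
  have h2 := mfderiv_comp z0 (g := cov) (f := S ∘ inc) hc hSi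
  have h3 : cov ∘ (S ∘ inc) = id := by
    funext z
    show cov (S1 (z.1 : ℂ), S2 (z.2 : ℂ)) = z
    rw [e1, e2]
    exact cov_sec z0 z
  rw [h3, mfderiv_id, h1] at h2
  have h4 := congrArg (fun L => L v) h2
  have h5 : v = mfderiv 𝓘(ℝ, ℝ × ℝ) II cov ((S ∘ inc) z0)
      (mfderiv 𝓘(ℝ, ℂ × ℂ) 𝓘(ℝ, ℝ × ℝ) S (inc z0) (mfderiv II 𝓘(ℝ, ℂ × ℂ) inc z0 v)) := h4
  have h6 : mfderiv II 𝓘(ℝ, ℂ × ℂ) inc z0 v = 0 := h
  rw [h6, map_zero, map_zero] at h5
  exact h5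

/-- the norm of `ℂ²` -/
noncomputable def nv (w : ℂ × ℂ) : ℝ := ‖w‖

/-- the norm on the tangent bundle -/
noncomputable def tN (q : TangentBundle II CC) : ℝ :=
  nv (mfderiv II 𝓘(ℝ, ℂ × ℂ) inc q.1 q.2)

theorem tN_continuous : Continuous tN := by
  have h1 : Continuous (tangentMap II 𝓘(ℝ, ℂ × ℂ) inc) :=
    inc_smooth.continuous_tangentMap (by norm_num)
  have h2 : Continuous (tangentBundleModelSpaceHomeomorph 𝓘(ℝ, ℂ × ℂ)) :=
    (tangentBundleModelSpaceHomeomorph 𝓘(ℝ, ℂ × ℂ)).continuous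
  have h3 : Continuous (fun p : ModelProd (ℂ × ℂ) (ℂ × ℂ) => nv p.2) := continuous_snd.norm
  exact h3.comp (h2.comp h1)

theorem nv_smul (c : ℝ) (w : ℂ × ℂ) : nv (c • w) = |c| * nv w := norm_smul c w

theorem tN_isNorm : IsTangentNorm II tN where
  continuous := tN_continuous
  add_le x v w := by
    show nv (mfderiv II 𝓘(ℝ, ℂ × ℂ) inc x (v + w)) ≤ _
    rw [map_add]
    exact norm_add_le (E := ℂ × ℂ) _ _
  smul x c v := by
    show nv (mfderiv II 𝓘(ℝ, ℂ × ℂ) inc x (c • v)) = _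
    rw [map_smul]
    exact nv_smul _ _
  pos x v hv := by
    have h1 : (mfderiv II 𝓘(ℝ, ℂ × ℂ) inc x v) ≠ 0 := fun h => hv (inc_inj x v h)
    exact norm_pos_iff (E := ℂ × ℂ).2 h1

end Pool.Agent.H410R3.AX
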