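import Mathlib
import Pool.Agent.H410R3.AX.TN

/-!
# The Lyapunov function and the nonwandering set
-/

open Set Filter Topology
open scoped Manifold ContDiff
open Pool.Agent.Helper114.AB

namespace Pool.Agent.H410R3.AX

open Pool.Agent.H410R3.KS

theorem nw_of_lyap {M : Type} [TopologicalSpace M] {f : M → M} (hf : Continuous f) {L : M → ℝ}
    (hL : Continuous L) (h : ∀ z, f z ≠ z → L z < L (f z)) : nonwandering f = {z | f z = z} := by
  have hle : ∀ z, L z ≤ L (f z) := by
    intro z
    by_cases hz : f z = z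
    · rw [hz]
    · exact (h z hz).le
  have hiter : ∀ (n : ℕ) z, L z ≤ L (f^[n] z) := by
    intro n
    induction n with
    | zero => intro z; exact le_rfl
    | succ n ih =>
      intro z
      rw [Function.iterate_succ_apply]
      exact (hle z).trans (ih (f z))
  ext z
  constructor
  · intro hz
    by_contra hne
    have hne' : f z ≠ z := hne
    obtain ⟨c, hc1, hc2⟩ := exists_between (h z hne')
    have hU : {w | L w < c} ∩ {w | c < L (f w)} ∈ 𝓝 z :=
      inter_mem (hL.continuousAt.eventually (gt_mem_nhds hc1))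
        ((hL.comp hf).continuousAt.eventually (lt_mem_nhds hc2))
    obtain ⟨n, hn, w, ⟨u, hu, rfl⟩, hw⟩ := hz _ hU
    obtain ⟨m, rfl⟩ := Nat.exists_eq_succ_of_ne_zero hn.ne'
    have h1 : L (f^[m + 1] u) < c := hw.1
    have h2 : c < L (f u) := hu.2
    rw [Function.iterate_succ_apply] at h1
    have := hiter m (f u)
    linarith
  · intro hz U hU
    refine ⟨1, one_pos, z, ⟨z, mem_of_mem_nhds hU, ?_⟩, mem_of_mem_nhds hU⟩
    exact hz

theorem cos_per : Function.Periodic (fun x : ℝ => Real.cos (2 * Real.pi * x)) 1 := by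
  intro x
  simp only
  rw [mul_add, mul_one, Real.cos_add_two_pi]

/-- the cosine on the circle -/
noncomputable def c1 : T1 → ℝ := cos_per.lift

theorem c1_coe (x : ℝ) : c1 (x : T1) = Real.cos (2 * Real.pi * x) := rfl

theorem c1_continuous : Continuous c1 := by
  have h1 : Continuous (fun x : ℝ => Real.cos (2 * Real.pi * x)) := by fun_prop
  exact continuous_coinduced_dom.2 h1

theorem c1_le_one (b : T1) : c1 b ≤ 1 := by
  induction b using QuotientAddGroup.induction_on with
  | H x => exact Real.cos_le_one _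

theorem neg_one_le_c1 (b : T1) : -1 ≤ c1 b := by
  induction b using QuotientAddGroup.induction_on with
  | H x => exact Real.neg_one_le_cos _

/-- representatives -/
theorem rep (b : T1) : ∃ t : ℝ, |t| ≤ 1 / 2 ∧ (t : T1) = b := by
  induction b using QuotientAddGroup.induction_on with
  | H x =>
    refine ⟨x - round x, abs_sub_round x, ?_⟩
    have : ((round x : ℝ) : T1) = 0 := by
      rw [AddCircle.coe_eq_zero_iff]
      exact ⟨round x, by simp⟩
    rw [AddCircle.coe_sub, this, sub_zero]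

/-- the point `1/2` of the circle -/
noncomputable def hf : T1 := ((1 / 2 : ℝ) : T1)

theorem neg_half : ((-(1 / 2) : ℝ) : T1) = hf := by
  unfold hf
  have h : ((-(1/2) : ℝ) : T1) = ((-(1/2) + 1 : ℝ) : T1) := by
    rw [AddCircle.coe_add, AddCircle.coe_period, add_zero]
  rw [h]
  norm_num

theorem sin_pos' {t : ℝ} (h0 : 0 < t) (h1 : t < 1 / 2) : 0 < Real.sin (2 * Real.pi * t) := by
  have hpi := Real.pi_pos
  exact Real.sin_pos_of_pos_of_lt_pi (by positivity) (by nlinarith)

theorem G_lt {t : ℝ} (h0 : 0 < t) (h1 : t < 1 / 2) : G t < t := by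
  have := sin_pos' h0 h1
  unfold G; linarith

theorem cos_G_lt {t : ℝ} (h0 : 0 < t) (h1 : t < 1 / 2) :
    Real.cos (2 * Real.pi * t) < Real.cos (2 * Real.pi * G t) := by
  have hpi := Real.pi_pos
  apply Real.cos_lt_cos_of_nonneg_of_le_pi
  · exact mul_nonneg (by positivity) (G_nonneg h0.le)
  · nlinarith
  · have := G_lt h0 h1
    nlinarith

theorem cos_G_abs (t : ℝ) : Real.cos (2 * Real.pi * G t) = Real.cos (2 * Real.pi * G |t|) := by
  rcases le_total 0 t with h | h
  · rw [abs_of_nonneg h]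
  · rw [abs_of_nonpos h, G_neg, mul_neg, Real.cos_neg]

theorem cos_abs' (t : ℝ) : Real.cos (2 * Real.pi * t) = Real.cos (2 * Real.pi * |t|) := by
  rcases le_total 0 t with h | h
  · rw [abs_of_nonneg h]
  · rw [abs_of_nonpos h, mul_neg, Real.cos_neg]

theorem c1_lt {b : T1} (h0 : b ≠ 0) (h1 : b ≠ hf) : c1 b < c1 (gc b) := by
  obtain ⟨t, ht, rfl⟩ := rep b
  rw [gc_coe, c1_coe, c1_coe, cos_G_abs, cos_abs' t]
  apply cos_G_lt
  · rw [abs_pos]
    rintro rfl
    exact h0 rfl
  · refine lt_of_le_of_ne ht fun he => ?_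
    rcases (abs_eq (by norm_num)).1 he with h | h
    · apply h1; rw [h]; rfl
    · apply h1; rw [h]; exact neg_half

theorem gc_zero : gc 0 = 0 := by
  have := gc_coe 0
  rw [G_zero] at this
  simpa using this

theorem gc_half : gc hf = hf := by
  have := gc_coe (1 / 2)
  rw [G_half] at this
  exact this

theorem c1_le (b : T1) : c1 b ≤ c1 (gc b) := by
  by_cases h0 : b = 0
  · rw [h0, gc_zero]
  · by_cases h1 : b = hf
    · rw [h1, gc_half]
    · exact (c1_lt h0 h1).le

theorem c1_zero : c1 0 = 1 := by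
  have := c1_coe 0
  simpa using this

theorem c1_half : c1 hf = -1 := by
  have := c1_coe (1 / 2)
  rw [show 2 * Real.pi * (1 / 2) = Real.pi by ring, Real.cos_pi] at this
  exact this

theorem zero_ne_half : (0 : T1) ≠ hf := by
  intro h
  have := congrArg c1 h
  rw [c1_zero, c1_half] at this
  norm_num at this

/-- the function `Θ_x` -/
noncomputable def th (x : ℕ → Bool) (X : ℝ) : ℝ := 1 / 2 - del x X

/-- the torus homeomorphisms -/
noncomputable def A (x : ℕ → Bool) : T2 ≃ₜ T2 := AP (emb (ctrP x))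

/-- `Θ_x` on the circle -/
noncomputable def thc (x : ℕ → Bool) : T1 → T1 := tc (emb (ctrP x))

theorem thc_coe (x : ℕ → Bool) (X : ℝ) : thc x (X : T1) = ((th x X : ℝ) : T1) := rfl

theorem A_apply (x : ℕ → Bool) (z : T2) : A x z = (gc z.1, gc z.2 + thc x z.1) := rfl

theorem A_symm_apply (x : ℕ → Bool) (z : T2) :
    (A x).symm z = (gc.symm z.1, gc.symm (z.2 - thc x (gc.symm z.1))) := rfl

theorem A_coe (x : ℕ → Bool) (s t : ℝ) :
    A x ((s : T1), (t : T1)) = (((G s : ℝ) : T1), ((G t + th x s : ℝ) : T1)) := AP_coe _ s t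

theorem th_zero (x : ℕ → Bool) {X : ℝ} (h0 : 0 ≤ X) (h1 : X ≤ 1) (h : X ≤ 9 / 64 ∨ 15 / 64 ≤ X) :
    th x X = 0 := by
  unfold th; rw [del_half x h0 h1 h, sub_self]

/-- the window -/
def Win : Set T1 := (fun t : ℝ => (t : T1)) '' Ioo (9 / 64) (15 / 64)

theorem thc_zero (x : ℕ → Bool) {X : T1} (h : X ∉ Win) : thc x X = 0 := by
  obtain ⟨t, ht, rfl⟩ := AddCircle.eq_coe_Ico (p := 1) X
  rw [thc_coe, th_zero x ht.1 ht.2.le]
  · rfl
  · by_contra hc
    push Not at hc
    exact h ⟨t, hc, rfl⟩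

theorem win_gain : ∃ c0 > 0, ∀ X ∈ Win, c1 X + c0 ≤ c1 (gc X) := by
  have hcont : Continuous fun t : ℝ => Real.cos (2 * Real.pi * G t) - Real.cos (2 * Real.pi * t) := by
    have := G_continuous
    fun_prop
  obtain ⟨t0, ht0, hmin⟩ := (isCompact_Icc (a := (9 / 64 : ℝ)) (b := 15 / 64)).exists_isMinOn
    ⟨9 / 64, by constructor <;> norm_num⟩ hcont.continuousOn
  refine ⟨Real.cos (2 * Real.pi * G t0) - Real.cos (2 * Real.pi * t0), ?_, ?_⟩
  · exact sub_pos.2 (cos_G_lt (by linarith [ht0.1]) (by linarith [ht0.2]))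
  · rintro _ ⟨t, ht, rfl⟩
    have h1 : Real.cos (2 * Real.pi * G t0) - Real.cos (2 * Real.pi * t0) ≤
        Real.cos (2 * Real.pi * G t) - Real.cos (2 * Real.pi * t) := hmin ⟨ht.1.le, ht.2.le⟩
    simp only
    rw [gc_coe, c1_coe, c1_coe]
    linarith

/-- the weight -/
noncomputable def Lam : ℝ := 3 / win_gain.choose + 2

theorem Lam_spec {X : T1} (hX : X ∈ Win) : Lam * c1 X + 3 ≤ Lam * c1 (gc X) := by
  have h1 := win_gain.choose_spec.1
  have h2 := win_gain.choose_spec.2 X hX
  have h3 : Lam * win_gain.choose = 3 + 2 * win_gain.choose := by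
    unfold Lam
    field_simp
  have h4 : 0 < Lam := by
    unfold Lam
    positivity
  nlinarith

theorem Lam_pos : 2 < Lam := by
  have h1 := win_gain.choose_spec.1
  unfold Lam
  have : 0 < 3 / win_gain.choose := by positivity
  linarith

/-- the Lyapunov function -/
noncomputable def LL (z : T2) : ℝ := Lam * c1 z.1 + c1 z.2

theorem LL_continuous : Continuous LL := by
  have := c1_continuous
  unfold LL
  fun_prop

/-- the set of the fixed points -/
def Fx : Set T2 := {z | (z.1 = 0 ∨ z.1 = hf) ∧ (z.2 = 0 ∨ z.2 = hf)}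

theorem zero_not_win : (0 : T1) ∉ Win := by
  rintro ⟨t, ht, h⟩
  have h' : (t : T1) = ((0 : ℝ) : T1) := h
  have h2 := congrArg c1 h'
  rw [c1_coe, c1_coe, mul_zero, Real.cos_zero] at h2
  have hpi := Real.pi_pos
  have h3 : Real.cos (2 * Real.pi * t) < Real.cos 0 := by
    apply Real.cos_lt_cos_of_nonneg_of_le_pi le_rfl
    · nlinarith [ht.2]
    · have := ht.1; positivity
  rw [Real.cos_zero] at h3
  linarith

theorem half_not_win : hf ∉ Win := by
  rintro ⟨t, ht, h⟩
  have h' : (t : T1) = ((1 / 2 : ℝ) : T1) := h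
  have h2 := congrArg c1 h'
  rw [c1_coe, c1_coe] at h2
  have hpi := Real.pi_pos
  have h3 : Real.cos (2 * Real.pi * (1 / 2)) < Real.cos (2 * Real.pi * t) := by
    apply Real.cos_lt_cos_of_nonneg_of_le_pi
    · have := ht.1
      have : 0 < t := by linarith
      positivity
    · nlinarith [ht.2]
    · nlinarith [ht.2]
  linarith

theorem A_fix (x : ℕ → Bool) {z : T2} (hz : z ∈ Fx) : A x z = z := by
  obtain ⟨h1, h2⟩ := hz
  have h3 : gc z.1 = z.1 := by
    rcases h1 with h | h
    · rw [h, gc_zero]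
    · rw [h, gc_half]
  have h4 : gc z.2 = z.2 := by
    rcases h2 with h | h
    · rw [h, gc_zero]
    · rw [h, gc_half]
  have h5 : thc x z.1 = 0 := by
    apply thc_zero
    rcases h1 with h | h
    · rw [h]; exact zero_not_win
    · rw [h]; exact half_not_win
  rw [A_apply, h3, h4, h5, add_zero]

theorem LL_lt (x : ℕ → Bool) {z : T2} (hz : z ∉ Fx) : LL z < LL (A x z) := by
  rw [A_apply]
  unfold LL
  simp only
  by_cases hw : z.1 ∈ Win
  · have h1 := Lam_spec hw
    have h2 := c1_le_one z.2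
    have h3 := neg_one_le_c1 (gc z.2 + thc x z.1)
    linarith
  · rw [thc_zero x hw, add_zero]
    have h1 := c1_le z.1
    have h2 := c1_le z.2
    have hL := Lam_pos
    by_cases h3 : z.1 = 0 ∨ z.1 = hf
    · have h4 : z.2 ≠ 0 ∧ z.2 ≠ hf := by
        constructor
        · intro h; exact hz ⟨h3, Or.inl h⟩
        · intro h; exact hz ⟨h3, Or.inr h⟩
      have := c1_lt h4.1 h4.2
      nlinarith
    · push Not at h3
      have := c1_lt h3.1 h3.2
      nlinarith

theorem A_fix_iff (x : ℕ → Bool) (z : T2) : A x z = z ↔ z ∈ Fx := by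
  constructor
  · intro h
    by_contra hz
    have := LL_lt x hz
    rw [h] at this
    exact lt_irrefl _ this
  · exact A_fix x

theorem fam_nw (x : ℕ → Bool) : nonwandering (fam x).map = {z | (fam x).map z = z} := by
  refine nw_of_lyap (L := fun z => LL (EM.symm z)) ?_ ?_ ?_
  · exact (AP_smooth' (emb (ctrP x))).continuous
  · exact LL_continuous.comp EM.symm.continuous
  · intro z hz
    have e : EM.symm ((fam x).map z) = A x (EM.symm z) := by
      show EM.symm (EM (A x (EM.symm z))) = _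
      rw [EM.symm_apply_apply]
    rw [e]
    apply LL_lt
    intro hF
    apply hz
    apply EM.symm.injective
    rw [e, A_fix x hF]

theorem fam_fix_iff (x : ℕ → Bool) (z : CC) : (fam x).map z = z ↔ EM.symm z ∈ Fx := by
  rw [← A_fix_iff x]
  show EM (A x (EM.symm z)) = z ↔ _
  rw [← Homeomorph.eq_symm_apply]

theorem Fx_finite : Fx.Finite := by
  have : Fx = ({0, hf} : Set T1) ×ˢ ({0, hf} : Set T1) := by
    ext z
    simp [Fx, Set.mem_prod]
  rw [this]
  exact (Set.toFinite _).prod (Set.toFinite _)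

end Pool.Agent.H410R3.AX
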