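import Mathlib
import Pool.Agent.H410R3.AX.Lyap

/-!
# The maps satisfy Axiom A
-/

open Set Filter Topology
open scoped Manifold ContDiff
open Pool.Agent.Helper114.AB

namespace Pool.Agent.H410R3.AX

open Pool.Agent.H410R3.KS

/-- the lift -/
noncomputable def FL (x : ℕ → Bool) (w : ℝ × ℝ) : ℝ × ℝ := (G w.1, G w.2 + th x w.1)

/-- the derivative of the covering -/
noncomputable def PC (w : ℝ × ℝ) : ℝ × ℝ →L[ℝ] EE := mfderiv 𝓘(ℝ, ℝ × ℝ) II cov w

/-- the derivative of the diffeomorphism -/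
noncomputable def DD (x : ℕ → Bool) (z : CC) : EE →L[ℝ] EE := mfderiv II II (fam x).map z

theorem fam_smooth (x : ℕ → Bool) : ContMDiff II II ∞ (fam x).map := AP_smooth' (emb (ctrP x))

theorem fam_inv_smooth (x : ℕ → Bool) : ContMDiff II II ∞ (fam x).inv :=
  AP_symm_smooth (emb (ctrP x))

theorem fam_cov (x : ℕ → Bool) (w : ℝ × ℝ) : (fam x).map (cov w) = cov (FL x w) := by
  show EM (A x (EM.symm (cov w))) = _
  rw [EM_symm_cov, A_coe]
  exact EM_cov (FL x w)

theorem th_contDiff (x : ℕ → Bool) : ContDiff ℝ ∞ (th x) := contDiff_const.sub (del_contDiff x)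

theorem FL_contDiff (x : ℕ → Bool) : ContDiff ℝ ∞ (FL x) := by
  have e3 : ContDiff ℝ ∞ (fun q : ℝ × ℝ => G q.1) := G_contDiff.comp contDiff_fst
  have e4 : ContDiff ℝ ∞ (fun q : ℝ × ℝ => G q.2) := G_contDiff.comp contDiff_snd
  have e5 : ContDiff ℝ ∞ (fun q : ℝ × ℝ => th x q.1) := (th_contDiff x).comp contDiff_fst
  exact e3.prodMk (e4.add e5)

theorem DD_chain (x : ℕ → Bool) (w u : ℝ × ℝ) :
    DD x (cov w) (PC w u) = PC (FL x w) (fderiv ℝ (FL x) w u) := by
  have hf : MDifferentiableAt II II (fam x).map (cov w) :=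
    ((fam_smooth x).mdifferentiable (by simp)) _
  have hc : ∀ w, MDifferentiableAt 𝓘(ℝ, ℝ × ℝ) II cov w := cov_smooth.mdifferentiable (by simp)
  have hF : MDifferentiableAt 𝓘(ℝ, ℝ × ℝ) 𝓘(ℝ, ℝ × ℝ) (FL x) w :=
    ((FL_contDiff x).differentiable (by simp) w).mdifferentiableAt
  have h1 := mfderiv_comp w hf (hc w)
  have h2 := mfderiv_comp w (hc (FL x w)) hF
  have h3 : (fam x).map ∘ cov = cov ∘ FL x := funext (fam_cov x)
  rw [h3, h2, mfderiv_eq_fderiv] at h1
  have h4 := congrArg (fun L => L u) h1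
  exact h4.symm

/-- the contracting eigenvalue -/
noncomputable def lm : ℝ := 1 - Real.pi / 4
/-- the expanding eigenvalue -/
noncomputable def mu : ℝ := 1 + Real.pi / 4

theorem th_add_one (x : ℕ → Bool) (X : ℝ) : th x (X + 1) = th x X := by
  unfold th; rw [del_periodic]

theorem th_add_int (x : ℕ → Bool) (X : ℝ) (k : ℤ) : th x (X + k) = th x X := by
  have hp : Function.Periodic (th x) 1 := th_add_one x
  have := hp.int_mul k X
  simpa using this

theorem th_zero_near (x : ℕ → Bool) {t : ℝ} (k : ℤ) (h : |t| < 9 / 64 ∨ |t - 1 / 2| < 1 / 4) :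
    th x (t + k) = 0 := by
  rw [th_add_int]
  rcases h with h | h
  · rw [abs_lt] at h
    rcases le_total 0 t with h0 | h0
    · exact th_zero x h0 (by linarith [h.2]) (Or.inl h.2.le)
    · rw [← th_add_one]
      exact th_zero x (by linarith [h.1]) (by linarith) (Or.inr (by linarith [h.1]))
  · rw [abs_lt] at h
    exact th_zero x (by linarith [h.1]) (by linarith [h.2]) (Or.inr (by linarith [h.1]))

theorem int_of_zero {s : ℝ} (h : (s : T1) = 0) : ∃ k : ℤ, s = k := by
  rw [AddCircle.coe_eq_zero_iff] at h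
  obtain ⟨n, hn⟩ := h
  exact ⟨n, by simpa using hn.symm⟩

theorem int_of_half {s : ℝ} (h : (s : T1) = hf) : ∃ k : ℤ, s = 1 / 2 + k := by
  have : ((s - 1 / 2 : ℝ) : T1) = 0 := by
    rw [AddCircle.coe_sub, h]
    exact sub_self _
  obtain ⟨k, hk⟩ := int_of_zero this
  exact ⟨k, by linarith⟩

theorem th_deriv (x : ℕ → Bool) {s : ℝ} (h : (s : T1) = 0 ∨ (s : T1) = hf) :
    HasDerivAt (th x) 0 s ∧ th x s = 0 := by
  have key : ∀ (t0 : ℝ) (k : ℤ), (∀ᶠ t in 𝓝 t0, |t| < 9 / 64 ∨ |t - 1 / 2| < 1 / 4) →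
      HasDerivAt (th x) 0 (t0 + k) ∧ th x (t0 + k) = 0 := by
    intro t0 k ht
    refine ⟨?_, th_zero_near x k ht.self_of_nhds⟩
    refine (hasDerivAt_const (t0 + (k : ℝ)) (0 : ℝ)).congr_of_eventuallyEq ?_
    have h1 : Tendsto (fun s : ℝ => s - k) (𝓝 (t0 + k)) (𝓝 t0) := by
      have : Continuous fun s : ℝ => s - k := by fun_prop
      have h2 := this.tendsto (t0 + k)
      simpa using h2
    filter_upwards [h1.eventually ht] with s hs
    have := th_zero_near x k hs
    simpa using this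
  rcases h with h | h
  · obtain ⟨k, rfl⟩ := int_of_zero h
    have := key 0 k (by
      have hc : Continuous fun t : ℝ => |t| := continuous_abs
      have := hc.continuousAt.eventually (gt_mem_nhds (show |(0:ℝ)| < 9 / 64 by norm_num))
      filter_upwards [this] with t ht
      exact Or.inl ht)
    simpa using this
  · obtain ⟨k, rfl⟩ := int_of_half h
    exact key (1 / 2) k (by
      have hc : Continuous fun t : ℝ => |t - 1 / 2| := by fun_prop
      have := hc.continuousAt.eventually (gt_mem_nhds (show |(1 / 2:ℝ) - 1 / 2| < 1 / 4 by norm_num))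
      filter_upwards [this] with t ht
      exact Or.inr ht)

theorem G_at {s : ℝ} (h : (s : T1) = 0 ∨ (s : T1) = hf) :
    G s = s ∧ ∃ a, (a = lm ∨ a = mu) ∧ HasDerivAt G a s := by
  have hc : Real.cos (2 * Real.pi * s) = 1 ∨ Real.cos (2 * Real.pi * s) = -1 := by
    have := c1_coe s
    rcases h with h | h
    · left; rw [← this, h, c1_zero]
    · right; rw [← this, h, c1_half]
  have hs : Real.sin (2 * Real.pi * s) = 0 := by
    have h2 := Real.sin_sq_add_cos_sq (2 * Real.pi * s)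
    rcases hc with hc | hc <;> rw [hc] at h2 <;> nlinarith
  refine ⟨by unfold G; rw [hs]; ring, ?_⟩
  rcases hc with hc | hc
  · refine ⟨lm, Or.inl rfl, (G_hasDerivAt s).congr_deriv ?_⟩
    rw [hc]; unfold lm; ring
  · refine ⟨mu, Or.inr rfl, (G_hasDerivAt s).congr_deriv ?_⟩
    rw [hc]; unfold mu; ring

theorem DD_diag (x : ℕ → Bool) {z : CC} (hz : (fam x).map z = z) :
    ∃ a b : ℝ, (a = lm ∨ a = mu) ∧ (b = lm ∨ b = mu) ∧
      ∀ u : ℝ × ℝ, DD x z (PC (sec z z) u) = PC (sec z z) (a * u.1, b * u.2) := by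
  set w := sec z z with hw
  have hcw : cov w = z := cov_sec z z
  have hF : EM.symm z ∈ Fx := (fam_fix_iff x z).1 hz
  rw [← hcw, EM_symm_cov] at hF
  obtain ⟨h1, h2⟩ := hF
  simp only at h1 h2
  obtain ⟨g1, a, ha, da⟩ := G_at h1
  obtain ⟨g2, b, hb, db⟩ := G_at h2
  obtain ⟨d0, t0⟩ := th_deriv x h1
  refine ⟨a, b, ha, hb, fun u => ?_⟩
  have hfix : FL x w = w := by
    unfold FL
    rw [g1, g2, t0, add_zero]
  have hd : HasFDerivAt (FL x) ((a • ContinuousLinearMap.fst ℝ ℝ ℝ).prod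
      (b • ContinuousLinearMap.snd ℝ ℝ ℝ + (0 : ℝ) • ContinuousLinearMap.fst ℝ ℝ ℝ)) w := by
    have e1 : HasFDerivAt (fun q : ℝ × ℝ => G q.1) (a • ContinuousLinearMap.fst ℝ ℝ ℝ) w :=
      da.comp_hasFDerivAt w hasFDerivAt_fst
    have e2 : HasFDerivAt (fun q : ℝ × ℝ => G q.2) (b • ContinuousLinearMap.snd ℝ ℝ ℝ) w :=
      db.comp_hasFDerivAt w hasFDerivAt_snd
    have e3 : HasFDerivAt (fun q : ℝ × ℝ => th x q.1) ((0:ℝ) • ContinuousLinearMap.fst ℝ ℝ ℝ) w :=
      d0.comp_hasFDerivAt w hasFDerivAt_fst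
    exact e1.prodMk (e2.add e3)
  have h3 := DD_chain x w u
  rw [hcw, hfix, hd.fderiv] at h3
  rw [h3]
  congr 1
  ext <;> simp

theorem DD_quad (x : ℕ → Bool) {z : CC} (hz : (fam x).map z = z) (v : EE) :
    DD x z (DD x z v) = (lm + mu) • DD x z v - (lm * mu) • v := by
  obtain ⟨a, b, ha, hb, h⟩ := DD_diag x hz
  obtain ⟨u, hu⟩ : ∃ u : ℝ × ℝ, PC (sec z z) u = v := cov_surj z v
  rw [← hu, h, h, ← map_smul, ← map_smul, ← map_sub]
  congr 1
  refine Prod.ext ?_ ?_
  · simp only [Prod.fst_sub, Prod.smul_fst, smul_eq_mul]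
    rcases ha with rfl | rfl <;> ring
  · simp only [Prod.snd_sub, Prod.smul_snd, smul_eq_mul]
    rcases hb with rfl | rfl <;> ring

theorem lm_pos : 0 < lm := by
  have := Real.pi_lt_four
  unfold lm; linarith

theorem lm_lt : lm < 3 / 5 := by
  have := Real.pi_gt_three
  unfold lm; linarith

theorem mu_pos : 0 < mu := by
  have := Real.pi_pos
  unfold mu; linarith

theorem mu_inv : mu⁻¹ < 3 / 5 := by
  have := Real.pi_gt_three
  rw [inv_lt_comm₀ mu_pos (by norm_num)]
  unfold mu; linarith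

theorem mu_sub : mu - lm ≠ 0 := by
  have := Real.pi_pos
  unfold mu lm
  intro h
  linarith

section lin

variable {V : Type} [AddCommGroup V] [Module ℝ V]

/-- eigenspaces -/
def eigE (D : V →ₗ[ℝ] V) (c : ℝ) : Submodule ℝ V := LinearMap.ker (D - c • LinearMap.id)

theorem mem_eigE (D : V →ₗ[ℝ] V) (c : ℝ) (v : V) : v ∈ eigE D c ↔ D v = c • v := by
  unfold eigE
  rw [LinearMap.mem_ker]
  simp [sub_eq_zero]

theorem eigE_compl {D : V →ₗ[ℝ] V} {l m : ℝ} (hlm : m - l ≠ 0)
    (hD : ∀ v, D (D v) = (l + m) • D v - (l * m) • v) : IsCompl (eigE D l) (eigE D m) := by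
  constructor
  · rw [Submodule.disjoint_def]
    intro v h1 h2
    rw [mem_eigE] at h1 h2
    rw [h1] at h2
    have h3 : (m - l) • v = 0 := by rw [sub_smul, h2, sub_self]
    exact (smul_eq_zero.1 h3).resolve_left hlm
  · rw [codisjoint_iff, eq_top_iff]
    intro v _
    rw [Submodule.mem_sup]
    refine ⟨(m - l)⁻¹ • (m • v - D v), ?_, (m - l)⁻¹ • (D v - l • v), ?_, ?_⟩
    · rw [mem_eigE, map_smul, smul_comm l]
      congr 1
      rw [map_sub, map_smul, hD]
      module
    · rw [mem_eigE, map_smul, smul_comm m]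
      congr 1
      rw [map_sub, map_smul, hD]
      module
    · rw [← smul_add, show m • v - D v + (D v - l • v) = (m - l) • v by module,
        smul_smul, inv_mul_cancel₀ hlm, one_smul]

theorem eigE_map (D : V →ₗ[ℝ] V) {c : ℝ} (hc : c ≠ 0) : (eigE D c).map D = eigE D c := by
  ext v
  constructor
  · rintro ⟨u, hu, rfl⟩
    have h1 : D u = c • u := (mem_eigE D c u).1 hu
    rw [mem_eigE, h1, map_smul, h1]
  · intro hv
    rw [mem_eigE] at hv
    refine ⟨c⁻¹ • v, ?_, ?_⟩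
    · show c⁻¹ • v ∈ eigE D c
      rw [mem_eigE, map_smul, hv, smul_comm]
    · rw [map_smul, hv, smul_smul, inv_mul_cancel₀ hc, one_smul]

end lin

/-- eigenspaces -/
noncomputable def eig (x : ℕ → Bool) (c : ℝ) (z : CC) : Submodule ℝ (TangentSpace II z) :=
  eigE (V := EE) (DD x z).toLinearMap c

theorem mem_eig (x : ℕ → Bool) (c : ℝ) (z : CC) (v : EE) (h : v ∈ eigE (V := EE) (DD x z).toLinearMap c) :
    DD x z v = c • v := (mem_eigE _ c v).1 h

theorem eig_compl (x : ℕ → Bool) {z : CC} (hz : (fam x).map z = z) :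
    IsCompl (eig x lm z) (eig x mu z) :=
  eigE_compl (V := EE) (D := (DD x z).toLinearMap) mu_sub (DD_quad x hz)

theorem eig_map (x : ℕ → Bool) {z : CC} (hz : (fam x).map z = z) {c : ℝ} (hc : c ≠ 0) :
    (eig x c z).map (mfderiv II II (fam x).map z).toLinearMap = eig x c ((fam x).map z) := by
  have h1 : (eigE (V := EE) (DD x z).toLinearMap c).map (DD x z).toLinearMap =
      eigE (V := EE) (DD x ((fam x).map z)).toLinearMap c := by
    rw [hz]
    exact eigE_map _ hc
  exact h1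

theorem mk_eq' {z z' : CC} (h : z' = z) (u : EE) :
    (⟨z', u⟩ : TangentBundle II CC) = ⟨z, u⟩ := by
  subst h; rfl

theorem tan_map (x : ℕ → Bool) {z : CC} (hz : (fam x).map z = z) (v : EE) :
    tangentMap II II (fam x).map ⟨z, v⟩ = ⟨z, DD x z v⟩ :=
  mk_eq' hz (DD x z v)

theorem tan_inv (x : ℕ → Bool) {z : CC} (hz : (fam x).map z = z) {c : ℝ} (hc : c ≠ 0) {v : EE}
    (hv : DD x z v = c • v) :
    tangentMap II II (fam x).inv ⟨z, v⟩ = ⟨z, c⁻¹ • v⟩ := by
  have h1 : DD x z (c⁻¹ • v) = v := by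
    rw [map_smul, hv, smul_smul, inv_mul_cancel₀ hc, one_smul]
  have h2 := tan_map x hz (c⁻¹ • v)
  rw [h1] at h2
  rw [← h2]
  have hf : MDifferentiable II II (fam x).map := (fam_smooth x).mdifferentiable (by simp)
  have hg : MDifferentiable II II (fam x).inv := (fam_inv_smooth x).mdifferentiable (by simp)
  have h3 := tangentMap_comp (I := II) (I' := II) (I'' := II) hg hf
  have h4 : (fam x).inv ∘ (fam x).map = id := by
    funext q
    exact Equiv.symm_apply_apply _ q
  rw [h4, tangentMap_id] at h3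
  exact (congrFun h3 _).symm

theorem tan_iter (f : CC → CC) (hf : MDifferentiable II II f) (z : CC) (c : ℝ) (v : EE)
    (h : ∀ a : ℝ, tangentMap II II f ⟨z, a • v⟩ = ⟨z, (c * a) • v⟩) (n : ℕ) :
    ∀ a : ℝ, tangentMap II II (f^[n]) ⟨z, a • v⟩ = ⟨z, (c ^ n * a) • v⟩ := by
  induction n with
  | zero =>
    intro a
    rw [Function.iterate_zero, tangentMap_id]
    simp
  | succ n ih =>
    intro a
    have hfn : MDifferentiable II II (f^[n]) := by
      clear ih
      induction n with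
      | zero => exact mdifferentiable_id
      | succ m ihm =>
        rw [Function.iterate_succ]
        exact ihm.comp hf
    rw [Function.iterate_succ, tangentMap_comp (I' := II) hfn hf, Function.comp_apply, h, ih]
    rw [← mul_assoc, pow_succ]

theorem hyp_s (x : ℕ → Bool) {z : CC} (hz' : (fam x).map z = z) (v : EE)
    (hv : v ∈ eigE (V := EE) (DD x z).toLinearMap lm) (n : ℕ) :
    tN (tangentMap II II ((fam x).map^[n]) ⟨z, v⟩) ≤ 1 * (3 / 5) ^ n * tN ⟨z, v⟩ := by
  have hv' := mem_eig x lm z v hv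
  have h1 := tan_iter (fam x).map ((fam_smooth x).mdifferentiable (by simp)) z lm v (by
    intro a
    rw [tan_map x hz', map_smul, hv', smul_smul, mul_comm lm a]) n 1
  rw [one_smul, mul_one] at h1
  have h2 := tN_isNorm.smul z (lm ^ n) v
  have h3 : tN (tangentMap II II ((fam x).map^[n]) ⟨z, v⟩) = |lm ^ n| * tN ⟨z, v⟩ := by
    rw [h1]; exact h2
  rw [h3, one_mul, abs_of_nonneg (pow_nonneg lm_pos.le n)]
  exact mul_le_mul_of_nonneg_right (pow_le_pow_left₀ lm_pos.le lm_lt.le n)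
    (norm_nonneg (E := ℂ × ℂ) _)

theorem hyp_u (x : ℕ → Bool) {z : CC} (hz' : (fam x).map z = z) (v : EE)
    (hv : v ∈ eigE (V := EE) (DD x z).toLinearMap mu) (n : ℕ) :
    tN (tangentMap II II ((fam x).inv^[n]) ⟨z, v⟩) ≤ 1 * (3 / 5) ^ n * tN ⟨z, v⟩ := by
  have hv' := mem_eig x mu z v hv
  have h1 := tan_iter (fam x).inv ((fam_inv_smooth x).mdifferentiable (by simp)) z mu⁻¹ v (by
    intro a
    rw [tan_inv x hz' mu_pos.ne' (v := a • v) (by rw [map_smul, hv', smul_comm]), smul_smul]) n 1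
  rw [one_smul, mul_one] at h1
  have h2 := tN_isNorm.smul z (mu⁻¹ ^ n) v
  have h3 : tN (tangentMap II II ((fam x).inv^[n]) ⟨z, v⟩) = |mu⁻¹ ^ n| * tN ⟨z, v⟩ := by
    rw [h1]; exact h2
  have hm : 0 ≤ mu⁻¹ := (inv_pos.2 mu_pos).le
  rw [h3, one_mul, abs_of_nonneg (pow_nonneg hm n)]
  exact mul_le_mul_of_nonneg_right (pow_le_pow_left₀ hm mu_inv.le n)
    (norm_nonneg (E := ℂ × ℂ) _)

theorem fam_hyp (x : ℕ → Bool) : IsHyperbolicSet II (fam x) (nonwandering (fam x).map) := by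
  rw [fam_nw]
  refine ⟨?_, ?_, tN, eig x lm, eig x mu, 1, 3 / 5, tN_isNorm, one_pos, by norm_num, by norm_num, ?_⟩
  · have : {z | (fam x).map z = z} = EM.symm ⁻¹' Fx := by
      ext z; exact fam_fix_iff x z
    rw [this]
    exact (Fx_finite.preimage EM.symm.injective.injOn).isCompact
  · ext z
    constructor
    · rintro ⟨u, hu, rfl⟩
      have hu' : (fam x).map u = u := hu
      show (fam x).map ((fam x).map u) = (fam x).map u
      rw [hu']
      exact hu'
    · intro hz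
      exact ⟨z, hz, hz⟩
  · intro z hz
    have hz' : (fam x).map z = z := hz
    refine ⟨eig_compl x hz', eig_map x hz' lm_pos.ne', eig_map x hz' mu_pos.ne', ?_, ?_⟩
    · intro v hv n
      exact hyp_s x hz' v hv n
    · intro v hv n
      exact hyp_u x hz' v hv n

theorem fam_axiomA (x : ℕ → Bool) : AxiomA II (fam x) where
  hyperbolic := fam_hyp x
  dense := by
    rw [fam_nw]
    intro z hz
    apply subset_closure
    exact ⟨1, one_pos, hz⟩

end Pool.Agent.H410R3.AX
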