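import Mathlib
import Pool.Agent.H410R3.AX.Lyap

/-!
# Fibre homeomorphisms
-/

open Set Filter Topology

namespace Pool.Agent.H410R3.AX

/-- the trapezoid -/
noncomputable def kz (r0 a f : ℝ) : ℝ :=
  max 0 (min 1 (min ((f - r0) / (a - 2 * r0)) ((1 - r0 - f) / (1 - a - 2 * r0))))

section

variable {r0 a b : ℝ} (h0 : 0 < r0) (h1 : r0 ≤ 1 / 16) (ha : 4 * r0 ≤ a) (ha' : a ≤ 5 / 8)

include h0 h1 ha ha'

theorem kz_zero_left {f : ℝ} (hf : f ≤ r0) : kz r0 a f = 0 := by
  unfold kz
  apply max_eq_left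
  refine (min_le_right _ _).trans ((min_le_left _ _).trans ?_)
  exact div_nonpos_of_nonpos_of_nonneg (by linarith) (by linarith)

theorem kz_zero_right {f : ℝ} (hf : 1 - r0 ≤ f) : kz r0 a f = 0 := by
  unfold kz
  apply max_eq_left
  refine (min_le_right _ _).trans ((min_le_right _ _).trans ?_)
  exact div_nonpos_of_nonpos_of_nonneg (by linarith) (by linarith)

theorem kz_one {f : ℝ} (hf : |f - a| ≤ r0) : kz r0 a f = 1 := by
  rw [abs_le] at hf
  have e1 : 1 ≤ (f - r0) / (a - 2 * r0) := by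
    rw [one_le_div (by linarith)]; linarith [hf.1]
  have e2 : 1 ≤ (1 - r0 - f) / (1 - a - 2 * r0) := by
    rw [one_le_div (by linarith)]; linarith [hf.2]
  unfold kz
  rw [min_eq_left (le_min e1 e2)]
  norm_num

theorem kz_upper {f f' : ℝ} (h : f ≤ f') : kz r0 a f' ≤ kz r0 a f + (f' - f) / (a - 2 * r0) := by
  have hd : 0 < a - 2 * r0 := by linarith
  have hd' : 0 < 1 - a - 2 * r0 := by linarith
  set s := (f' - f) / (a - 2 * r0) with hs
  have hs0 : 0 ≤ s := div_nonneg (by linarith) hd.le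
  have e1 : (f' - r0) / (a - 2 * r0) = (f - r0) / (a - 2 * r0) + s := by
    rw [hs]; ring
  have e2 : (1 - r0 - f') / (1 - a - 2 * r0) ≤ (1 - r0 - f) / (1 - a - 2 * r0) + s := by
    have : (1 - r0 - f') / (1 - a - 2 * r0) ≤ (1 - r0 - f) / (1 - a - 2 * r0) :=
      div_le_div_of_nonneg_right (by linarith) hd'.le
    linarith
  unfold kz
  apply max_le
  · have := le_max_left 0 (min 1 (min ((f - r0) / (a - 2 * r0)) ((1 - r0 - f) / (1 - a - 2 * r0))))
    linarith
  · have h3 := le_max_right 0 (min 1 (min ((f - r0) / (a - 2 * r0)) ((1 - r0 - f) / (1 - a - 2 * r0))))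
    have h4 : min 1 (min ((f' - r0) / (a - 2 * r0)) ((1 - r0 - f') / (1 - a - 2 * r0))) ≤
        min 1 (min ((f - r0) / (a - 2 * r0)) ((1 - r0 - f) / (1 - a - 2 * r0))) + s := by
      rw [← min_add_add_right, ← min_add_add_right]
      apply min_le_min (by linarith)
      exact min_le_min e1.le e2
    linarith

theorem kz_lower {f f' : ℝ} (h : f ≤ f') : kz r0 a f ≤ kz r0 a f' + (f' - f) / (1 - a - 2 * r0) := by
  have hd : 0 < a - 2 * r0 := by linarith
  have hd' : 0 < 1 - a - 2 * r0 := by linarith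
  set s := (f' - f) / (1 - a - 2 * r0) with hs
  have hs0 : 0 ≤ s := div_nonneg (by linarith) hd'.le
  have e1 : (f - r0) / (a - 2 * r0) ≤ (f' - r0) / (a - 2 * r0) + s := by
    have : (f - r0) / (a - 2 * r0) ≤ (f' - r0) / (a - 2 * r0) :=
      div_le_div_of_nonneg_right (by linarith) hd.le
    linarith
  have e2 : (1 - r0 - f) / (1 - a - 2 * r0) = (1 - r0 - f') / (1 - a - 2 * r0) + s := by
    rw [hs]; ring
  unfold kz
  apply max_le
  · have := le_max_left 0 (min 1 (min ((f' - r0) / (a - 2 * r0)) ((1 - r0 - f') / (1 - a - 2 * r0))))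
    linarith
  · have h3 := le_max_right 0
      (min 1 (min ((f' - r0) / (a - 2 * r0)) ((1 - r0 - f') / (1 - a - 2 * r0))))
    have h4 : min 1 (min ((f - r0) / (a - 2 * r0)) ((1 - r0 - f) / (1 - a - 2 * r0))) ≤
        min 1 (min ((f' - r0) / (a - 2 * r0)) ((1 - r0 - f') / (1 - a - 2 * r0))) + s := by
      rw [← min_add_add_right, ← min_add_add_right]
      apply min_le_min (by linarith)
      exact min_le_min e1 e2.le
    linarith

theorem hz_strictMono (hb : 4 * r0 ≤ b) (hb' : b ≤ 5 / 8) :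
    StrictMono (fun f => f + (b - a) * kz r0 a f) := by
  intro f f' h
  simp only
  have hd : 0 < a - 2 * r0 := by linarith
  have hd' : 0 < 1 - a - 2 * r0 := by linarith
  have k1 := kz_upper h0 h1 ha ha' h.le
  have k2 := kz_lower h0 h1 ha ha' h.le
  rcases le_total a b with hab | hab
  · have e : (b - a) * ((f' - f) / (1 - a - 2 * r0)) < f' - f := by
      rw [← mul_div_assoc, div_lt_iff₀ hd']
      nlinarith
    nlinarith
  · have e : (a - b) * ((f' - f) / (a - 2 * r0)) < f' - f := by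
      rw [← mul_div_assoc, div_lt_iff₀ hd]
      nlinarith
    nlinarith

end

/-- the trapezoid on the circle -/
noncomputable def tz (r0 a u : ℝ) : ℝ := kz r0 a (Int.fract u)

theorem tz_add_one (r0 a u : ℝ) : tz r0 a (u + 1) = tz r0 a u := by
  unfold tz; rw [Int.fract_add_one]

section

variable {r0 a b : ℝ} (h0 : 0 < r0) (h1 : r0 ≤ 1 / 16) (ha : 4 * r0 ≤ a) (ha' : a ≤ 5 / 8)

include h0 h1 ha ha'

theorem tz_zero {u : ℝ} (k : ℤ) (h : |u - k| ≤ r0) : tz r0 a u = 0 := by
  unfold tz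
  rw [abs_le] at h
  rcases le_or_gt (k : ℝ) u with hk | hk
  · have : Int.fract u = u - k := by
      rw [Int.fract, show ⌊u⌋ = k from Int.floor_eq_iff.2 ⟨hk, by linarith [h.2]⟩]
    rw [this]
    exact kz_zero_left h0 h1 ha ha' h.2
  · have : Int.fract u = u - k + 1 := by
      rw [Int.fract, show ⌊u⌋ = k - 1 from Int.floor_eq_iff.2 ⟨by push_cast; linarith [h.1],
        by push_cast; linarith⟩]
      push_cast; ring
    rw [this]
    exact kz_zero_right h0 h1 ha ha' (by linarith [h.1])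

theorem tz_one {u : ℝ} (h : |u - a| ≤ r0) : tz r0 a u = 1 := by
  unfold tz
  have h' := abs_le.1 h
  have : Int.fract u = u := Int.fract_eq_self.2 ⟨by linarith [h'.1], by linarith [h'.2]⟩
  rw [this]
  exact kz_one h0 h1 ha ha' h

theorem Hz_strictMono (hb : 4 * r0 ≤ b) (hb' : b ≤ 5 / 8) :
    StrictMono (fun u => u + (b - a) * tz r0 a u) := by
  have hm := hz_strictMono h0 h1 ha ha' hb hb'
  have e0 : kz r0 a 0 = 0 := kz_zero_left h0 h1 ha ha' h0.le
  have e1 : kz r0 a 1 = 0 := kz_zero_right h0 h1 ha ha' (by linarith)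
  intro u u' h
  simp only
  have d : ∀ u : ℝ, u + (b - a) * tz r0 a u =
      ⌊u⌋ + (Int.fract u + (b - a) * kz r0 a (Int.fract u)) := by
    intro u
    unfold tz
    have := Int.floor_add_fract u
    linarith
  rw [d u, d u']
  rcases lt_or_eq_of_le (Int.floor_le_floor h.le) with hlt | heq
  · have g1 : Int.fract u + (b - a) * kz r0 a (Int.fract u) < 1 := by
      have := hm (Int.fract_lt_one u)
      simp only [e1] at this
      linarith
    have g2 : 0 ≤ Int.fract u' + (b - a) * kz r0 a (Int.fract u') := by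
      have := hm.monotone (Int.fract_nonneg u')
      simp only [e0] at this
      linarith
    have g3 : (⌊u⌋ : ℝ) + 1 ≤ ⌊u'⌋ := by exact_mod_cast hlt
    linarith
  · have g : Int.fract u < Int.fract u' := by
      unfold Int.fract
      rw [heq]
      linarith
    have := hm g
    simp only at this
    rw [heq]
    linarith

end

theorem kz_continuousAt {r0 a0 f0 : ℝ} (h0 : 0 < r0) (h1 : r0 ≤ 1 / 16) (ha : 4 * r0 ≤ a0)
    (ha' : a0 ≤ 5 / 8) : ContinuousAt (fun q : ℝ × ℝ => kz r0 q.1 q.2) (a0, f0) := by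
  unfold kz
  have d1 : a0 - 2 * r0 ≠ 0 := by
    have : 0 < a0 - 2 * r0 := by linarith
    exact this.ne'
  have d2 : 1 - a0 - 2 * r0 ≠ 0 := by
    have : 0 < 1 - a0 - 2 * r0 := by linarith
    exact this.ne'
  have c1 : ContinuousAt (fun q : ℝ × ℝ => (q.2 - r0) / (q.1 - 2 * r0)) (a0, f0) := by
    refine ContinuousAt.div ?_ ?_ d1 <;> fun_prop
  have c2 : ContinuousAt (fun q : ℝ × ℝ => (1 - r0 - q.2) / (1 - q.1 - 2 * r0)) (a0, f0) := by
    refine ContinuousAt.div ?_ ?_ d2 <;> fun_prop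
  exact continuousAt_const.max (continuousAt_const.min (c1.min c2))

theorem tz_continuous {r0 : ℝ} (h0 : 0 < r0) (h1 : r0 ≤ 1 / 16) {α : ℝ → ℝ} (hα : Continuous α)
    (ha : ∀ X, 4 * r0 ≤ α X) (ha' : ∀ X, α X ≤ 5 / 8) :
    Continuous (fun q : ℝ × ℝ => tz r0 (α q.1) q.2) := by
  rw [continuous_iff_continuousAt]
  rintro ⟨X, u⟩
  by_cases hu : (⌊u⌋ : ℝ) = u
  · -- locally zero
    have hev : ∀ᶠ q : ℝ × ℝ in 𝓝 (X, u), |q.2 - ⌊u⌋| < r0 := by
      have hc : Continuous fun q : ℝ × ℝ => |q.2 - ⌊u⌋| := by fun_prop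
      refine hc.continuousAt.eventually (gt_mem_nhds ?_)
      simp only
      rw [hu, sub_self, abs_zero]
      exact h0
    have hz : (fun q : ℝ × ℝ => tz r0 (α q.1) q.2) =ᶠ[𝓝 (X, u)] fun _ => 0 := by
      filter_upwards [hev] with q hq
      exact tz_zero h0 h1 (ha _) (ha' _) _ hq.le
    exact (continuousAt_congr hz).2 continuousAt_const
  · have hlt : (⌊u⌋ : ℝ) < u := lt_of_le_of_ne (Int.floor_le u) hu
    have hfr : ContinuousAt Int.fract u :=
      (continuousOn_fract (⌊u⌋)).continuousAt (Ico_mem_nhds hlt (Int.lt_floor_add_one u))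
    have c0 : ContinuousAt (fun q : ℝ × ℝ => Int.fract q.2) (X, u) :=
      ContinuousAt.comp (g := (Int.fract : ℝ → ℝ)) (f := (Prod.snd : ℝ × ℝ → ℝ)) (x := (X, u)) hfr
        continuousAt_snd
    have c1 : ContinuousAt (fun q : ℝ × ℝ => (α q.1, Int.fract q.2)) (X, u) :=
      ContinuousAt.prodMk ((hα.comp continuous_fst).continuousAt) c0
    exact ContinuousAt.comp (f := fun q : ℝ × ℝ => (α q.1, Int.fract q.2)) (x := (X, u))
      (g := fun q : ℝ × ℝ => kz r0 q.1 q.2) (kz_continuousAt h0 h1 (ha X) (ha' X)) c1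

/-- a map which moves few points is conjugated to a map which moves points little -/
theorem disp {Z K Ki : ℝ → ℝ} (hZ : StrictMono Z) (hZ1 : ∀ u, Z (u + 1) = Z u + 1)
    (hK : Monotone K) (hK1 : ∀ u, K (u + 1) = K u + 1) (hKi : ∀ u, K (Ki u) = u) {c r0 ε : ℝ}
    (h0 : 0 < r0) (h1 : r0 < 1 / 2)
    (hfix : ∀ u, |u - c| ≤ r0 → Z u = u) (hε : K (c + 1 - r0) - K (c + r0) ≤ ε) (y : ℝ) :
    |K (Z (Ki y)) - y| ≤ ε := by
  set u := Ki y with hu
  have hy : y = K u := (hKi y).symm
  rw [hy]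
  have hε0 : 0 ≤ ε := by
    have : K (c + r0) ≤ K (c + 1 - r0) := hK (by linarith)
    linarith
  -- integer translations
  have shZ : ∀ (k : ℤ) u, Z (u + k) = Z u + k := by
    intro k u
    have hp : Function.Periodic (fun u => Z u - u) 1 := by
      intro u; simp only [hZ1]; ring
    have := hp.int_mul k u
    simp only [mul_one] at this
    linarith
  have shK : ∀ (k : ℤ) u, K (u + k) = K u + k := by
    intro k u
    have hp : Function.Periodic (fun u => K u - u) 1 := by
      intro u; simp only [hK1]; ring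
    have := hp.int_mul k u
    simp only [mul_one] at this
    linarith
  set m := ⌊u - c + r0⌋ with hm
  have m1 : (m : ℝ) ≤ u - c + r0 := Int.floor_le _
  have m2 : u - c + r0 < m + 1 := Int.lt_floor_add_one _
  have e1 : u = (u - m) + m := by ring
  have e2 : Z u = Z (u - m) + m := by
    conv_lhs => rw [e1]
    exact shZ m _
  have e3 : K (Z u) - K u = K (Z (u - m)) - K (u - m) := by
    rw [e2, shK]
    conv_lhs => rw [e1]
    rw [shK]
    ring_nf
  rw [e3]
  rcases le_or_gt (u - m) (c + r0) with h | h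
  · rw [hfix (u - m) (by rw [abs_le]; constructor <;> linarith), sub_self, abs_zero]
    exact hε0
  · have f1 : Z (c + r0) = c + r0 := hfix _ (by
      rw [show c + r0 - c = r0 by ring, abs_of_pos h0])
    have f2 : Z (c + 1 - r0) = c + 1 - r0 := by
      rw [show c + 1 - r0 = (c - r0) + 1 by ring, hZ1, hfix (c - r0) (by
        rw [show c - r0 - c = -r0 by ring, abs_neg, abs_of_pos h0])]
    have g1 : c + r0 ≤ Z (u - m) := by
      have := hZ.monotone h.le
      rwa [f1] at this
    have g2 : Z (u - m) ≤ c + 1 - r0 := by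
      have := hZ.monotone (show u - m ≤ c + 1 - r0 by linarith)
      rwa [f2] at this
    have k1 := hK g1
    have k2 := hK g2
    have k3 := hK h.le
    have k4 := hK (show u - m ≤ c + 1 - r0 by linarith)
    rw [abs_le]
    constructor <;> linarith

end Pool.Agent.H410R3.AX
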