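import Mathlib
import Pool.Agent.H410R3.AX.Trap
import Pool.Agent.H410R3.AX.Hyp

/-!
# `E_0`-equivalent sequences give conjugate maps
-/

open Set Filter Topology
open Pool.Agent.Helper114.AB

namespace Pool.Agent.H410R3.AX

open Pool.Agent.H410R3.KS

/-- the inverse lift -/
noncomputable def Gs : ℝ → ℝ := GH.symm

theorem Gs_continuous : Continuous Gs := GH.symm.continuous

theorem Gs_G (x : ℝ) : Gs (G x) = x := G_symm_G x

theorem G_Gs (x : ℝ) : G (Gs x) = x := G_G_symm x

theorem Gs_strictMono : StrictMono Gs := GH_symm_strictMono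

theorem Gs_add_one (x : ℝ) : Gs (x + 1) = Gs x + 1 := GH_symm_add_one x

theorem G_Gs_iter (n : ℕ) (x : ℝ) : G^[n] (Gs^[n] x) = x :=
  Function.LeftInverse.iterate G_Gs n x

theorem Gs_G_iter (n : ℕ) (x : ℝ) : Gs^[n] (G^[n] x) = x :=
  Function.LeftInverse.iterate Gs_G n x

theorem iter_add_one {f : ℝ → ℝ} (hf : ∀ x, f (x + 1) = f x + 1) (n : ℕ) (x : ℝ) :
    f^[n] (x + 1) = f^[n] x + 1 := by
  induction n generalizing x with
  | zero => rfl
  | succ n ih => rw [Function.iterate_succ_apply, hf, ih, Function.iterate_succ_apply]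

theorem add_int_of_add_one {f : ℝ → ℝ} (hf : ∀ x, f (x + 1) = f x + 1) (k : ℤ) (x : ℝ) :
    f (x + k) = f x + k := by
  have hp : Function.Periodic (fun u => f u - u) 1 := by
    intro u; simp only [hf]; ring
  have := hp.int_mul k x
  simp only [mul_one] at this
  linarith

/-- the lift of the window -/
def WinR : Set ℝ := {X | ∃ k : ℤ, 9 / 64 < X - k ∧ X - k < 15 / 64}

theorem WinR_iter {X : ℝ} (h : X ∈ WinR) (n : ℕ) : G^[n + 1] X ∉ WinR := by
  obtain ⟨k, h1, h2⟩ := h
  rintro ⟨l, h3, h4⟩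
  have e : G^[n + 1] X = G^[n + 1] (X - k) + k := by
    have := add_int_of_add_one (iter_add_one G_add_one (n + 1)) k (X - k)
    rw [← this]
    ring_nf
  have hpos : 0 < G^[n + 1] (X - k) := by
    have := G_iter_mono (n + 1) (show (0:ℝ) < X - k by linarith)
    rwa [G_iter_zero] at this
  have hlt : G^[n + 1] (X - k) < 1 / 8 := by
    rw [Function.iterate_succ_apply]
    have g1 : G (X - k) < 1 / 8 := by
      rw [← G_quarter]
      exact G_strictMono (by linarith)
    have g0 : 0 ≤ G (X - k) := G_nonneg (by linarith)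
    have := (G_iter_le le_rfl (by norm_num) g0 (by linarith) n).2
    simp only [sub_zero, one_pow, one_mul] at this
    linarith
  rw [e] at h3 h4
  have k1 : (l : ℝ) - k < 1 := by linarith
  have k2 : -1 < (l : ℝ) - k := by linarith
  have k3 : l = k := by
    have a1 : ((l - k : ℤ) : ℝ) < 1 := by push_cast; exact k1
    have a2 : ((-1 : ℤ) : ℝ) < ((l - k : ℤ) : ℝ) := by push_cast; exact k2
    have a3 : l - k < 1 := by exact_mod_cast a1
    have a4 : -1 < l - k := by exact_mod_cast a2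
    omega
  rw [k3] at h3
  linarith

theorem del_add_int (x : ℕ → Bool) (X : ℝ) (k : ℤ) : del x (X + k) = del x X := by
  have hp : Function.Periodic (del x) 1 := del_periodic x
  have := hp.int_mul k X
  simpa using this

theorem del_half_out (x : ℕ → Bool) {X : ℝ} (h : X ∉ WinR) : del x X = 1 / 2 := by
  have e : X = Int.fract X + ⌊X⌋ := (Int.fract_add_floor X).symm
  rw [e, del_add_int]
  refine del_half x (Int.fract_nonneg X) (Int.fract_lt_one X).le ?_
  by_contra hc
  push Not at hc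
  exact h ⟨⌊X⌋, hc.1, hc.2⟩

theorem th_zero_out (x : ℕ → Bool) {X : ℝ} (h : X ∉ WinR) : th x X = 0 := by
  unfold th; rw [del_half_out x h, sub_self]

section

variable (x y : ℕ → Bool) (r0 : ℝ)

/-- the fibre homeomorphisms -/
noncomputable def Hf (X u : ℝ) : ℝ := u + (del y X - del x X) * tz r0 (max (del x X) (4 * r0)) u

/-- the fibre homeomorphisms after one iteration -/
noncomputable def Zf (X w : ℝ) : ℝ := Hf x y r0 X (w - th x X) + th y X

theorem Hf_add_one (X u : ℝ) : Hf x y r0 X (u + 1) = Hf x y r0 X u + 1 := by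
  unfold Hf; rw [tz_add_one]; ring

theorem Hf_per (X u : ℝ) : Hf x y r0 (X + 1) u = Hf x y r0 X u := by
  unfold Hf; rw [del_periodic, del_periodic]

theorem Zf_add_one (X u : ℝ) : Zf x y r0 X (u + 1) = Zf x y r0 X u + 1 := by
  unfold Zf; rw [show u + 1 - th x X = (u - th x X) + 1 by ring, Hf_add_one]; ring

theorem Zf_per (X u : ℝ) : Zf x y r0 (X + 1) u = Zf x y r0 X u := by
  unfold Zf; rw [th_add_one, th_add_one, Hf_per]

theorem Hf_id {X : ℝ} (h : del x X = del y X) (u : ℝ) : Hf x y r0 X u = u := by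
  unfold Hf; rw [h, sub_self, zero_mul, add_zero]

theorem Zf_id {X : ℝ} (h : del x X = del y X) (u : ℝ) : Zf x y r0 X u = u := by
  unfold Zf
  rw [Hf_id x y r0 h]
  unfold th
  rw [h]; ring

variable {x y r0} (h0 : 0 < r0) (h1 : r0 ≤ 1 / 16)
  (hr : ∀ X, del x X ≠ del y X → 4 * r0 ≤ del x X ∧ 4 * r0 ≤ del y X)

include h0 h1 hr

theorem Hf_strictMono (X : ℝ) : StrictMono (Hf x y r0 X) := by
  by_cases h : del x X = del y X
  · have : Hf x y r0 X = fun u => u := funext (Hf_id x y r0 h)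
    rw [this]
    exact strictMono_id
  · obtain ⟨h2, h3⟩ := hr X h
    have := Hz_strictMono h0 h1 h2 (del_le x X) h3 (del_le y X)
    unfold Hf
    rw [max_eq_left h2]
    exact this

theorem Hf_fix (X : ℝ) (u : ℝ) (hu : |u - 0| ≤ r0) : Hf x y r0 X u = u := by
  by_cases h : del x X = del y X
  · exact Hf_id x y r0 h u
  · obtain ⟨h2, h3⟩ := hr X h
    unfold Hf
    rw [max_eq_left h2, tz_zero h0 h1 h2 (del_le x X) 0 (by simpa using hu), mul_zero, add_zero]

theorem Zf_strictMono (X : ℝ) : StrictMono (Zf x y r0 X) := by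
  intro u v huv
  unfold Zf
  have := Hf_strictMono h0 h1 hr X (show u - th x X < v - th x X by linarith)
  linarith

theorem Zf_fix (X : ℝ) (w : ℝ) (hw : |w - 1 / 2| ≤ r0) : Zf x y r0 X w = w := by
  by_cases h : del x X = del y X
  · exact Zf_id x y r0 h w
  · obtain ⟨h2, h3⟩ := hr X h
    unfold Zf Hf
    rw [max_eq_left h2, tz_one h0 h1 h2 (del_le x X)]
    · unfold th; ring
    · unfold th
      rw [show w - (1 / 2 - del x X) - del x X = w - 1 / 2 by ring]
      exact hw

omit hr in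
theorem Hf_continuous : Continuous (fun q : ℝ × ℝ => Hf x y r0 q.1 q.2) := by
  unfold Hf
  have c1 : Continuous (del x) := (del_contDiff x).continuous
  have c2 : Continuous (del y) := (del_contDiff y).continuous
  have c3 : Continuous (fun q : ℝ × ℝ => tz r0 (max (del x q.1) (4 * r0)) q.2) := by
    refine tz_continuous h0 h1 (α := fun X => max (del x X) (4 * r0)) (c1.max continuous_const)
      (fun X => le_max_right _ _) (fun X => max_le (del_le x X) (by linarith))
  fun_prop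

omit hr in
theorem Zf_continuous : Continuous (fun q : ℝ × ℝ => Zf x y r0 q.1 q.2) := by
  unfold Zf
  have c1 : Continuous (th x) := (th_contDiff x).continuous
  have c2 : Continuous (th y) := (th_contDiff y).continuous
  have c3 : Continuous (fun q : ℝ × ℝ => Hf x y r0 q.1 (q.2 - th x q.1)) :=
    (Hf_continuous h0 h1).comp (continuous_fst.prodMk
      (continuous_snd.sub (c1.comp continuous_fst)))
  exact c3.add (c2.comp continuous_fst)

end

section

variable (x y : ℕ → Bool) (r0 : ℝ)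

/-- past -/
noncomputable def PA (n : ℕ) (q : ℝ × ℝ) : ℝ :=
  Gs^[n + 1] (Hf x y r0 (G^[n] q.1) (G^[n + 1] q.2)) - q.2

/-- future -/
noncomputable def PB (n : ℕ) (q : ℝ × ℝ) : ℝ :=
  G^[n] (Zf x y r0 (Gs^[n + 1] q.1) (Gs^[n] q.2)) - q.2

/-- the displacement -/
noncomputable def PH (q : ℝ × ℝ) : ℝ := (∑' n, PA x y r0 n q) + ∑' n, PB x y r0 n q

/-- the lift of the conjugacy -/
noncomputable def EL (X Y : ℝ) : ℝ := Y + PH x y r0 (X, Y)

theorem PA_zero {n : ℕ} {X : ℝ} (h : G^[n] X ∉ WinR) (Y : ℝ) : PA x y r0 n (X, Y) = 0 := by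
  unfold PA
  simp only
  rw [Hf_id x y r0 (by rw [del_half_out x h, del_half_out y h]), Gs_G_iter, sub_self]

theorem PB_zero {n : ℕ} {X : ℝ} (h : Gs^[n + 1] X ∉ WinR) (Y : ℝ) : PB x y r0 n (X, Y) = 0 := by
  unfold PB
  simp only
  rw [Zf_id x y r0 (by rw [del_half_out x h, del_half_out y h]), G_Gs_iter, sub_self]

theorem EL_past {n : ℕ} {X : ℝ} (h : G^[n] X ∈ WinR) (Y : ℝ) :
    EL x y r0 X Y = Gs^[n + 1] (Hf x y r0 (G^[n] X) (G^[n + 1] Y)) := by
  have e1 : ∑' m, PA x y r0 m (X, Y) = PA x y r0 n (X, Y) := by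
    refine tsum_eq_single n fun m hm => PA_zero x y r0 ?_ Y
    intro hmem
    rcases lt_or_gt_of_ne hm with hlt | hlt
    · obtain ⟨k, rfl⟩ := Nat.exists_eq_add_of_lt hlt
      apply WinR_iter hmem k
      rw [← Function.iterate_add_apply]
      rw [show k + 1 + m = m + k + 1 by ring]
      exact h
    · obtain ⟨k, rfl⟩ := Nat.exists_eq_add_of_lt hlt
      apply WinR_iter h k
      rw [← Function.iterate_add_apply]
      rw [show k + 1 + n = n + k + 1 by ring]
      exact hmem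
  have e2 : ∑' m, PB x y r0 m (X, Y) = 0 := by
    have : (fun m => PB x y r0 m (X, Y)) = fun _ => 0 := by
      funext m
      refine PB_zero x y r0 ?_ Y
      intro hmem
      apply WinR_iter hmem (m + n)
      rw [show m + n + 1 = n + (m + 1) by ring, Function.iterate_add_apply, G_Gs_iter]
      exact h
    rw [this, tsum_zero]
  unfold EL PH
  rw [e1, e2]
  unfold PA
  simp only
  ring

theorem EL_fut {n : ℕ} {X : ℝ} (h : Gs^[n + 1] X ∈ WinR) (Y : ℝ) :
    EL x y r0 X Y = G^[n] (Zf x y r0 (Gs^[n + 1] X) (Gs^[n] Y)) := by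
  have e1 : ∑' m, PB x y r0 m (X, Y) = PB x y r0 n (X, Y) := by
    refine tsum_eq_single n fun m hm => PB_zero x y r0 ?_ Y
    intro hmem
    rcases lt_or_gt_of_ne hm with hlt | hlt
    · obtain ⟨k, rfl⟩ := Nat.exists_eq_add_of_lt hlt
      apply WinR_iter h k
      have e : Gs^[m + k + 1 + 1] X = Gs^[k + 1] (Gs^[m + 1] X) := by
        rw [← Function.iterate_add_apply, show k + 1 + (m + 1) = m + k + 1 + 1 by ring]
      rw [e, G_Gs_iter]
      exact hmem
    · obtain ⟨k, rfl⟩ := Nat.exists_eq_add_of_lt hlt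
      apply WinR_iter hmem k
      have e : Gs^[n + k + 1 + 1] X = Gs^[k + 1] (Gs^[n + 1] X) := by
        rw [← Function.iterate_add_apply, show k + 1 + (n + 1) = n + k + 1 + 1 by ring]
      rw [e, G_Gs_iter]
      exact h
  have e2 : ∑' m, PA x y r0 m (X, Y) = 0 := by
    have : (fun m => PA x y r0 m (X, Y)) = fun _ => 0 := by
      funext m
      refine PA_zero x y r0 ?_ Y
      intro hmem
      apply WinR_iter h (m + n)
      rw [show m + n + 1 = m + (n + 1) by ring, Function.iterate_add_apply, G_Gs_iter]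
      exact hmem
    rw [this, tsum_zero]
  unfold EL PH
  rw [e1, e2]
  unfold PB
  simp only
  ring

theorem EL_none {X : ℝ} (h : ∀ n, G^[n] X ∉ WinR) (h' : ∀ n, Gs^[n + 1] X ∉ WinR) (Y : ℝ) :
    EL x y r0 X Y = Y := by
  have e1 : (fun m => PA x y r0 m (X, Y)) = fun _ => 0 :=
    funext fun m => PA_zero x y r0 (h m) Y
  have e2 : (fun m => PB x y r0 m (X, Y)) = fun _ => 0 :=
    funext fun m => PB_zero x y r0 (h' m) Y
  unfold EL PH
  rw [e1, e2, tsum_zero, add_zero, add_zero]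

theorem PA_per (n : ℕ) (X Y : ℝ) : PA x y r0 n (X + 1, Y) = PA x y r0 n (X, Y) := by
  unfold PA
  simp only
  rw [iter_add_one G_add_one, Hf_per]

theorem PB_per (n : ℕ) (X Y : ℝ) : PB x y r0 n (X + 1, Y) = PB x y r0 n (X, Y) := by
  unfold PB
  simp only
  rw [iter_add_one Gs_add_one, Zf_per]

theorem PA_per' (n : ℕ) (X Y : ℝ) : PA x y r0 n (X, Y + 1) = PA x y r0 n (X, Y) := by
  unfold PA
  simp only
  rw [iter_add_one G_add_one, Hf_add_one, iter_add_one Gs_add_one]
  ring

theorem PB_per' (n : ℕ) (X Y : ℝ) : PB x y r0 n (X, Y + 1) = PB x y r0 n (X, Y) := by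
  unfold PB
  simp only
  rw [iter_add_one Gs_add_one n Y, Zf_add_one, iter_add_one G_add_one]
  ring

theorem EL_per (X Y : ℝ) : EL x y r0 (X + 1) Y = EL x y r0 X Y := by
  unfold EL PH
  simp only [PA_per, PB_per]

theorem EL_add_one (X Y : ℝ) : EL x y r0 X (Y + 1) = EL x y r0 X Y + 1 := by
  unfold EL PH
  simp only [PA_per', PB_per']
  ring

/-- the functional equation -/
theorem EL_eq (X Y : ℝ) : EL x y r0 (G X) (G Y + th x X) = G (EL x y r0 X Y) + th y X := by
  by_cases hW : X ∈ WinR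
  · have h1 : Gs^[0 + 1] (G X) ∈ WinR := by
      show Gs (G X) ∈ WinR
      rw [Gs_G]; exact hW
    rw [EL_fut x y r0 h1, EL_past x y r0 (n := 0) (X := X) hW]
    show Zf x y r0 (Gs (G X)) (G Y + th x X) = G (Gs (Hf x y r0 X (G Y))) + th y X
    rw [Gs_G, G_Gs]
    unfold Zf
    rw [add_sub_cancel_right]
  · rw [th_zero_out x hW, th_zero_out y hW, add_zero, add_zero]
    by_cases h1 : ∃ n, G^[n] X ∈ WinR
    · obtain ⟨n, hn⟩ := h1
      cases n with
      | zero => exact absurd hn hW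
      | succ m =>
        have hn' : G^[m] (G X) ∈ WinR := hn
        rw [EL_past x y r0 hn, EL_past x y r0 hn', Function.iterate_succ_apply' Gs (m + 1), G_Gs]
        rfl
    · by_cases h2 : ∃ n, Gs^[n + 1] X ∈ WinR
      · obtain ⟨n, hn⟩ := h2
        have hn' : Gs^[n + 1 + 1] (G X) ∈ WinR := by
          rw [Function.iterate_succ_apply, Gs_G]; exact hn
        rw [EL_fut x y r0 hn, EL_fut x y r0 hn', Function.iterate_succ_apply' G n,
          Function.iterate_succ_apply Gs (n + 1), Gs_G, Function.iterate_succ_apply Gs n (G Y), Gs_G]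
      · push Not at h1 h2
        rw [EL_none x y r0 h1 h2, EL_none x y r0]
        · intro n
          exact h1 (n + 1)
        · intro n
          rw [Function.iterate_succ_apply, Gs_G]
          cases n with
          | zero => exact hW
          | succ m => exact h2 m

end

theorem surj_of_add_one {f : ℝ → ℝ} (hc : Continuous f) (hf : ∀ x, f (x + 1) = f x + 1) :
    Function.Surjective f := by
  intro c
  obtain ⟨n, hn⟩ := exists_nat_ge |c - f 0|
  have h1 := add_int_of_add_one hf n 0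
  have h2 := add_int_of_add_one hf (-n) 0
  rw [abs_le] at hn
  refine mem_range_of_exists_le_of_exists_ge hc ⟨0 + ((-n : ℤ) : ℝ), ?_⟩ ⟨0 + ((n : ℤ) : ℝ), ?_⟩
  · rw [h2]; push_cast; linarith [hn.1]
  · rw [h1]; push_cast; linarith [hn.2]

section

variable {x y : ℕ → Bool} {r0 : ℝ} (h0 : 0 < r0) (h1 : r0 ≤ 1 / 16)
  (hr : ∀ X, del x X ≠ del y X → 4 * r0 ≤ del x X ∧ 4 * r0 ≤ del y X)

include h0 h1 hr

theorem PA_le (n : ℕ) (q : ℝ × ℝ) : |PA x y r0 n q| ≤ (1 / (1 + r0)) ^ n := by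
  have hK : Monotone (Gs^[n + 1]) := (Gs_strictMono.iterate (n + 1)).monotone
  have hb : Gs^[n + 1] (0 + 1 - r0) - Gs^[n + 1] (0 + r0) ≤ (1 / (1 + r0)) ^ n := by
    have k1 := Gs_iter h0.le (by linarith) (s := 1 / 2 - r0) (by
      rw [abs_of_nonneg (by linarith)]) (n + 1)
    have k2 := Gs_iter h0.le (by linarith) (s := -(1 / 2 - r0)) (by
      rw [abs_neg, abs_of_nonneg (by linarith)]) (n + 1)
    rw [abs_neg] at k2
    rw [abs_of_nonneg (show (0:ℝ) ≤ 1 / 2 - r0 by linarith)] at k1 k2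
    rw [show (1:ℝ) / 2 + (1 / 2 - r0) = 0 + 1 - r0 by ring] at k1
    rw [show (1:ℝ) / 2 + -(1 / 2 - r0) = 0 + r0 by ring] at k2
    have k3 := (abs_le.1 k1).2
    have k4 := (abs_le.1 k2).1
    have k5 : (1 / 2 - r0) / (1 + r0) ^ (n + 1) ≤ 1 / 2 * (1 / (1 + r0)) ^ n := by
      rw [one_div_pow, pow_succ, div_le_iff₀ (by positivity)]
      have : 1 / 2 * (1 / (1 + r0) ^ n) * ((1 + r0) ^ n * (1 + r0)) = 1 / 2 * (1 + r0) := by
        field_simp
      rw [this]
      linarith
    have k6 : GH.symm^[n + 1] (0 + 1 - r0) - GH.symm^[n + 1] (0 + r0) ≤ (1 / (1 + r0)) ^ n := by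
      linarith
    exact k6
  exact disp (Hf_strictMono h0 h1 hr _) (Hf_add_one x y r0 _) hK (iter_add_one Gs_add_one (n + 1))
    (Gs_G_iter (n + 1)) h0 (by linarith) (Hf_fix h0 h1 hr _) hb q.2

theorem PB_le (n : ℕ) (q : ℝ × ℝ) : |PB x y r0 n q| ≤ (1 - r0) ^ n := by
  have hK : Monotone (G^[n]) := (G_iter_mono n).monotone
  have hb : G^[n] (1 / 2 + 1 - r0) - G^[n] (1 / 2 + r0) ≤ (1 - r0) ^ n := by
    have k1 := (G_iter_le h0.le (by linarith) (s := 1 / 2 - r0) (by linarith) le_rfl n).2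
    have e1 : G^[n] (1 / 2 + 1 - r0) = G^[n] (1 / 2 - r0) + 1 := by
      rw [← iter_add_one G_add_one]; congr 1; ring
    have neg : ∀ (n : ℕ) (s : ℝ), G^[n] (-s) = -G^[n] s := by
      intro n
      induction n with
      | zero => intro s; rfl
      | succ n ih =>
        intro s
        rw [Function.iterate_succ_apply, G_neg, ih, Function.iterate_succ_apply]
    have e2 : G^[n] (1 / 2 + r0) = 1 - G^[n] (1 / 2 - r0) := by
      rw [show 1 / 2 + r0 = -(1 / 2 - r0) + 1 by ring, iter_add_one G_add_one, neg]; ring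
    rw [e1, e2]
    have : (0:ℝ) < (1 - r0) ^ n := pow_pos (by linarith) n
    nlinarith
  exact disp (Zf_strictMono h0 h1 hr _) (Zf_add_one x y r0 _) hK (iter_add_one G_add_one n)
    (G_Gs_iter n) h0 (by linarith) (Zf_fix h0 h1 hr _) hb q.2

theorem PH_continuous : Continuous (PH x y r0) := by
  have cG : ∀ n, Continuous (G^[n]) := fun n => G_continuous.iterate n
  have cGs : ∀ n, Continuous (Gs^[n]) := fun n => Gs_continuous.iterate n
  refine Continuous.add ?_ ?_
  · refine continuous_tsum (u := fun n => (1 / (1 + r0)) ^ n) (fun n => ?_)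
      (summable_geometric_of_lt_one (by positivity) ?_) (fun n q => ?_)
    · have c1 : Continuous (fun q : ℝ × ℝ => (G^[n] q.1, G^[n + 1] q.2)) :=
        ((cG n).comp continuous_fst).prodMk ((cG (n + 1)).comp continuous_snd)
      exact ((cGs (n + 1)).comp ((Hf_continuous h0 h1).comp c1)).sub continuous_snd
    · rw [div_lt_one (by linarith)]; linarith
    · exact PA_le h0 h1 hr n q
  · refine continuous_tsum (u := fun n => (1 - r0) ^ n) (fun n => ?_)
      (summable_geometric_of_lt_one (by linarith) (by linarith)) (fun n q => ?_)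
    · have c1 : Continuous (fun q : ℝ × ℝ => (Gs^[n + 1] q.1, Gs^[n] q.2)) :=
        ((cGs (n + 1)).comp continuous_fst).prodMk ((cGs n).comp continuous_snd)
      exact ((cG n).comp ((Zf_continuous h0 h1).comp c1)).sub continuous_snd
    · exact PB_le h0 h1 hr n q

theorem EL_continuous : Continuous (fun q : ℝ × ℝ => EL x y r0 q.1 q.2) :=
  continuous_snd.add (PH_continuous h0 h1 hr)

theorem EL_strictMono (X : ℝ) : StrictMono (EL x y r0 X) := by
  by_cases h2 : ∃ n, G^[n] X ∈ WinR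
  · obtain ⟨n, hn⟩ := h2
    have : EL x y r0 X = Gs^[n + 1] ∘ Hf x y r0 (G^[n] X) ∘ G^[n + 1] :=
      funext (EL_past x y r0 hn)
    rw [this]
    exact (Gs_strictMono.iterate _).comp ((Hf_strictMono h0 h1 hr _).comp (G_iter_mono _))
  · by_cases h3 : ∃ n, Gs^[n + 1] X ∈ WinR
    · obtain ⟨n, hn⟩ := h3
      have : EL x y r0 X = G^[n] ∘ Zf x y r0 (Gs^[n + 1] X) ∘ Gs^[n] :=
        funext (EL_fut x y r0 hn)
      rw [this]
      exact (G_iter_mono _).comp ((Zf_strictMono h0 h1 hr _).comp (Gs_strictMono.iterate _))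
    · push Not at h2 h3
      have : EL x y r0 X = fun Y => Y := funext (EL_none x y r0 h2 h3)
      rw [this]
      exact strictMono_id

theorem conj_of_r : ∃ H : T2 ≃ₜ T2, ∀ q, H (A x q) = A y (H q) := by
  -- representatives
  have hrep : ∀ a : T1, ∃ s : ℝ, (s : T1) = a := fun a => by
    induction a using QuotientAddGroup.induction_on with
    | H s => exact ⟨s, rfl⟩
  choose rp hrp using hrep
  have hint : ∀ s t : ℝ, (s : T1) = (t : T1) → ∃ k : ℤ, s = t + k := by
    intro s t h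
    have : ((s - t : ℝ) : T1) = 0 := by rw [AddCircle.coe_sub, h, sub_self]
    obtain ⟨k, hk⟩ := int_of_zero this
    exact ⟨k, by linarith⟩
  have hcoe : ∀ (s : ℝ) (k : ℤ), ((s + k : ℝ) : T1) = (s : T1) := by
    intro s k
    rw [AddCircle.coe_add]
    have : ((k : ℝ) : T1) = 0 := by
      rw [AddCircle.coe_eq_zero_iff]; exact ⟨k, by simp⟩
    rw [this, add_zero]
  have perX : ∀ (k : ℤ) X Y, EL x y r0 (X + k) Y = EL x y r0 X Y := by
    intro k X Y
    have hp : Function.Periodic (fun X => EL x y r0 X Y) 1 := fun X => EL_per x y r0 X Y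
    have := hp.int_mul k X
    simpa using this
  have perY : ∀ (k : ℤ) X Y, EL x y r0 X (Y + k) = EL x y r0 X Y + k := by
    intro k X Y
    exact add_int_of_add_one (EL_add_one x y r0 X) k Y
  set h : T2 → T2 := fun z => (z.1, ((EL x y r0 (rp z.1) (rp z.2) : ℝ) : T1)) with hh
  have h_coe : ∀ X Y : ℝ, h ((X : T1), (Y : T1)) = ((X : T1), ((EL x y r0 X Y : ℝ) : T1)) := by
    intro X Y
    simp only [hh]
    obtain ⟨k, hk⟩ := hint _ _ (hrp (X : T1))
    obtain ⟨l, hl⟩ := hint _ _ (hrp (Y : T1))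
    rw [hk, hl, perX, perY, hcoe]
  have hcont : Continuous h := by
    have hq : IsOpenQuotientMap (fun s : ℝ => (s : T1)) := QuotientAddGroup.isOpenQuotientMap_mk
    have hq2 := hq.prodMap hq
    rw [← hq2.continuous_comp_iff]
    have : h ∘ Prod.map (fun s : ℝ => (s : T1)) (fun s : ℝ => (s : T1)) =
        fun q : ℝ × ℝ => ((q.1 : T1), ((EL x y r0 q.1 q.2 : ℝ) : T1)) := by
      funext q
      exact h_coe q.1 q.2
    rw [this]
    have cc : Continuous (fun s : ℝ => (s : T1)) := AddCircle.continuous_mk' 1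
    exact (cc.comp continuous_fst).prodMk (cc.comp (EL_continuous h0 h1 hr))
  have hinj : Function.Injective h := by
    rintro ⟨a, b⟩ ⟨a', b'⟩ he
    obtain ⟨X, rfl⟩ : ∃ X : ℝ, (X : T1) = a := ⟨_, hrp a⟩
    obtain ⟨Y, rfl⟩ : ∃ X : ℝ, (X : T1) = b := ⟨_, hrp b⟩
    obtain ⟨X', rfl⟩ : ∃ X : ℝ, (X : T1) = a' := ⟨_, hrp a'⟩
    obtain ⟨Y', rfl⟩ : ∃ X : ℝ, (X : T1) = b' := ⟨_, hrp b'⟩
    rw [h_coe, h_coe] at he
    have he1 : (X : T1) = (X' : T1) := congrArg Prod.fst he
    have he2 : ((EL x y r0 X Y : ℝ) : T1) = ((EL x y r0 X' Y' : ℝ) : T1) := congrArg Prod.snd he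
    obtain ⟨k, rfl⟩ := hint _ _ he1
    obtain ⟨l, hl⟩ := hint _ _ he2
    rw [perX, ← perY] at hl
    have := (EL_strictMono h0 h1 hr X').injective hl
    rw [this, hcoe, hcoe]
  have hsurj : Function.Surjective h := by
    rintro ⟨a, b⟩
    obtain ⟨X, rfl⟩ : ∃ X : ℝ, (X : T1) = a := ⟨_, hrp a⟩
    obtain ⟨Y, rfl⟩ : ∃ X : ℝ, (X : T1) = b := ⟨_, hrp b⟩
    have hc : Continuous (EL x y r0 X) :=
      (EL_continuous h0 h1 hr).comp (continuous_const.prodMk continuous_id)
    obtain ⟨Z, hZ⟩ := surj_of_add_one hc (EL_add_one x y r0 X) Y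
    exact ⟨((X : T1), (Z : T1)), by rw [h_coe, hZ]⟩
  refine ⟨Continuous.homeoOfEquivCompactToT2 (f := Equiv.ofBijective h ⟨hinj, hsurj⟩) hcont, ?_⟩
  rintro ⟨a, b⟩
  obtain ⟨X, rfl⟩ : ∃ X : ℝ, (X : T1) = a := ⟨_, hrp a⟩
  obtain ⟨Y, rfl⟩ : ∃ X : ℝ, (X : T1) = b := ⟨_, hrp b⟩
  show h (A x ((X : T1), (Y : T1))) = A y (h ((X : T1), (Y : T1)))
  rw [A_coe, h_coe, h_coe, A_coe, EL_eq]

end

/-- `E_0`-equivalent sequences give conjugate maps -/
theorem conj_of_E0 {x y : ℕ → Bool} (hxy : E0 x y) : ∃ H : T2 ≃ₜ T2, ∀ q, H (A x q) = A y (H q) := by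
  obtain ⟨r, hr, h⟩ := del_diff hxy
  refine conj_of_r (r0 := min (r / 4) (1 / 16)) (lt_min (by linarith) (by norm_num))
    (min_le_right _ _) fun X hX => ?_
  have h1 := h X hX
  have h2 : min (r / 4) (1 / 16) ≤ r / 4 := min_le_left _ _
  constructor <;> linarith [h1.1, h1.2]

end Pool.Agent.H410R3.AX
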