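import Mathlib
import Pool.Agent.H410R3.AX.Fwd

/-!
# Dynamics of the maps, fixed points and their order
-/

open Set Filter Topology
open Pool.Agent.Helper114.AB

namespace Pool.Agent.H410R3.AX

open Pool.Agent.H410R3.KS

theorem norm_coe' {t : ℝ} (h : |t| ≤ 1 / 2) : ‖(t : T1)‖ = |t| :=
  (AddCircle.norm_coe_eq_abs_iff (p := (1 : ℝ)) one_ne_zero).2 (by rwa [abs_one])

theorem norm_rep (b : T1) : ∃ t : ℝ, |t| ≤ 1 / 2 ∧ (t : T1) = b ∧ ‖b‖ = |t| := by
  obtain ⟨t, ht, rfl⟩ := rep b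
  exact ⟨t, ht, rfl, norm_coe' ht⟩

theorem G_abs (t : ℝ) : |G t| = G |t| := by
  rcases le_total 0 t with h | h
  · rw [abs_of_nonneg h, abs_of_nonneg (G_nonneg h)]
  · have h1 : 0 ≤ G (-t) := G_nonneg (by linarith)
    rw [abs_of_nonpos h, G_neg] at *
    rw [abs_of_nonpos (by linarith)]

theorem norm_gc_le {b : T1} (h : ‖b‖ ≤ 1 / 4) : ‖gc b‖ ≤ 3 / 4 * ‖b‖ := by
  obtain ⟨t, ht, rfl, hn⟩ := norm_rep b
  rw [hn] at h ⊢
  have h1 : G |t| ≤ 3 / 4 * |t| := by
    have := G_le (r := 1 / 4) (by norm_num) le_rfl (abs_nonneg t) (by linarith)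
    linarith
  rw [gc_coe, norm_coe']
  · rw [G_abs]; exact h1
  · rw [G_abs]; linarith [abs_nonneg t]

theorem gc_iter_coe (n : ℕ) (t : ℝ) : gc^[n] (t : T1) = ((G^[n] t : ℝ) : T1) := by
  induction n generalizing t with
  | zero => rfl
  | succ n ih => rw [Function.iterate_succ_apply, gc_coe, ih, Function.iterate_succ_apply]

theorem gcs_iter_coe (n : ℕ) (t : ℝ) : gc.symm^[n] (t : T1) = ((Gs^[n] t : ℝ) : T1) := by
  induction n generalizing t with
  | zero => rfl
  | succ n ih =>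
    rw [Function.iterate_succ_apply, gc_symm_coe]
    rw [show (GH.symm t : ℝ) = Gs t from rfl, ih, Function.iterate_succ_apply]

theorem tends_G {t : ℝ} (h0 : 0 ≤ t) (h1 : t < 1 / 2) :
    Tendsto (fun n => G^[n] t) atTop (𝓝 0) := by
  set r := min (1 / 2 - t) (1 / 4) with hr
  have hr0 : 0 < r := lt_min (by linarith) (by norm_num)
  have hr1 : r ≤ 1 / 4 := min_le_right _ _
  have hr2 : t ≤ 1 / 2 - r := by
    have := min_le_left (1 / 2 - t) (1 / 4)
    linarith
  have hz : Tendsto (fun n : ℕ => (1 - r) ^ n * t) atTop (𝓝 0) := by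
    have := (tendsto_pow_atTop_nhds_zero_of_lt_one (show 0 ≤ 1 - r by linarith)
      (by linarith)).mul_const t
    simpa using this
  exact squeeze_zero (fun n => (G_iter_le hr0.le hr1 h0 hr2 n).1)
    (fun n => (G_iter_le hr0.le hr1 h0 hr2 n).2) hz

theorem tends_Gs {t : ℝ} (h0 : 0 < t) (h1 : t ≤ 1 / 2) :
    Tendsto (fun n => Gs^[n] t) atTop (𝓝 (1 / 2)) := by
  set r := min t (1 / 4) with hr
  have hr0 : 0 < r := lt_min h0 (by norm_num)
  have hr1 : r ≤ 1 / 4 := min_le_right _ _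
  have hr2 : |t - 1 / 2| ≤ 1 / 2 - r := by
    have := min_le_left t (1 / 4)
    rw [abs_of_nonpos (by linarith)]; linarith
  rw [tendsto_iff_norm_sub_tendsto_zero]
  have hz : Tendsto (fun n : ℕ => |t - 1 / 2| / (1 + r) ^ n) atTop (𝓝 0) := by
    have h3 : Tendsto (fun n : ℕ => |t - 1 / 2| * (1 / (1 + r)) ^ n) atTop (𝓝 0) := by
      have := (tendsto_pow_atTop_nhds_zero_of_lt_one (r := 1 / (1 + r)) (by positivity) (by
        rw [div_lt_one (by linarith)]; linarith)).const_mul |t - 1 / 2|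
      simpa using this
    refine h3.congr fun n => ?_
    rw [one_div_pow]; ring
  refine squeeze_zero (fun n => norm_nonneg _) (fun n => ?_) hz
  have h4 := Gs_iter hr0.le hr1 hr2 n
  rw [show 1 / 2 + (t - 1 / 2) = t by ring] at h4
  exact h4

theorem coe_cont : Continuous (fun s : ℝ => (s : T1)) := AddCircle.continuous_mk' 1

/-- the fixed points -/
noncomputable def pR : T2 := (hf, hf)
noncomputable def pp : T2 := (hf, 0)
noncomputable def pq : T2 := (0, hf)
noncomputable def pA : T2 := (0, 0)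

theorem thc_zero_fx (x : ℕ → Bool) {a : T1} (h : a = 0 ∨ a = hf) : thc x a = 0 := by
  apply thc_zero
  rcases h with h | h
  · rw [h]; exact zero_not_win
  · rw [h]; exact half_not_win

theorem gc_fx {a : T1} (h : a = 0 ∨ a = hf) : gc a = a := by
  rcases h with h | h
  · rw [h, gc_zero]
  · rw [h, gc_half]

theorem gcs_fx {a : T1} (h : a = 0 ∨ a = hf) : gc.symm a = a := by
  rw [Homeomorph.symm_apply_eq, gc_fx h]

theorem A_iter_fx (x : ℕ → Bool) {a : T1} (h : a = 0 ∨ a = hf) (b : T1) (n : ℕ) :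
    (A x)^[n] (a, b) = (a, gc^[n] b) := by
  induction n generalizing b with
  | zero => rfl
  | succ n ih =>
    rw [Function.iterate_succ_apply, A_apply, thc_zero_fx x h, gc_fx h, add_zero, ih,
      Function.iterate_succ_apply]

theorem As_iter_fx (x : ℕ → Bool) {a : T1} (h : a = 0 ∨ a = hf) (b : T1) (n : ℕ) :
    (A x).symm^[n] (a, b) = (a, gc.symm^[n] b) := by
  induction n generalizing b with
  | zero => rfl
  | succ n ih =>
    rw [Function.iterate_succ_apply, A_symm_apply]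
    simp only
    rw [gcs_fx h, thc_zero_fx x h, sub_zero, ih, Function.iterate_succ_apply]

/-- heteroclinic connections -/
def Het (x : ℕ → Bool) (a b : T2) : Prop :=
  ∃ z : T2, z ∉ Fx ∧ Tendsto (fun n => (A x).symm^[n] z) atTop (𝓝 a) ∧
    Tendsto (fun n => (A x)^[n] z) atTop (𝓝 b)

theorem LL_le (x : ℕ → Bool) (z : T2) : LL z ≤ LL (A x z) := by
  by_cases hz : z ∈ Fx
  · rw [A_fix x hz]
  · exact (LL_lt x hz).le

theorem LL_iter (x : ℕ → Bool) (n : ℕ) (z : T2) : LL z ≤ LL ((A x)^[n] z) := by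
  induction n generalizing z with
  | zero => exact le_rfl
  | succ n ih =>
    rw [Function.iterate_succ_apply]
    exact (LL_le x z).trans (ih _)

theorem A_As_iter (x : ℕ → Bool) (n : ℕ) (z : T2) : (A x)^[n] ((A x).symm^[n] z) = z :=
  Function.LeftInverse.iterate (A x).apply_symm_apply n z

theorem As_A_iter (x : ℕ → Bool) (n : ℕ) (z : T2) : (A x).symm^[n] ((A x)^[n] z) = z :=
  Function.LeftInverse.iterate (A x).symm_apply_apply n z

theorem Het.lt {x : ℕ → Bool} {a b : T2} (h : Het x a b) : LL a < LL b := by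
  obtain ⟨z, hz, ha, hb⟩ := h
  have h1 : LL a ≤ LL z := by
    refine le_of_tendsto ((LL_continuous.tendsto a).comp ha) (Eventually.of_forall fun n => ?_)
    have := LL_iter x n ((A x).symm^[n] z)
    rwa [A_As_iter] at this
  have h2 : LL (A x z) ≤ LL b := by
    refine ge_of_tendsto ((LL_continuous.tendsto b).comp (hb.comp (tendsto_add_atTop_nat 1)))
      (Eventually.of_forall fun n => ?_)
    have := LL_iter x n (A x z)
    rw [← Function.iterate_succ_apply] at this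
    exact this
  exact h1.trans_lt ((LL_lt x hz).trans_le h2)

theorem coe_ne {t : ℝ} (h0 : 0 < t) (h1 : t < 1 / 2) : (t : T1) ≠ 0 ∧ (t : T1) ≠ hf := by
  constructor
  · intro h
    obtain ⟨k, hk⟩ := int_of_zero h
    have h2 : (0:ℝ) < k := by linarith
    have h3 : (k:ℝ) < 1 := by linarith
    have h4 : 0 < k := by exact_mod_cast h2
    have h5 : k < 1 := by exact_mod_cast h3
    omega
  · intro h
    obtain ⟨k, hk⟩ := int_of_half h
    have h2 : (-1:ℝ) < k := by linarith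
    have h3 : (k:ℝ) < 0 := by linarith
    have h4 : -1 < k := by exact_mod_cast h2
    have h5 : k < 0 := by exact_mod_cast h3
    omega

theorem tends_coe_G {t : ℝ} (h0 : 0 ≤ t) (h1 : t < 1 / 2) :
    Tendsto (fun n => ((G^[n] t : ℝ) : T1)) atTop (𝓝 0) := by
  have := (coe_cont.tendsto 0).comp (tends_G h0 h1)
  exact this

theorem tends_coe_Gs {t : ℝ} (h0 : 0 < t) (h1 : t ≤ 1 / 2) :
    Tendsto (fun n => ((Gs^[n] t : ℝ) : T1)) atTop (𝓝 hf) :=
  (coe_cont.tendsto (1 / 2)).comp (tends_Gs h0 h1)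

theorem het_fib (x : ℕ → Bool) {a : T1} (h : a = 0 ∨ a = hf) : Het x (a, hf) (a, 0) := by
  have hq := coe_ne (t := 1 / 4) (by norm_num) (by norm_num)
  refine ⟨(a, ((1 / 4 : ℝ) : T1)), ?_, ?_, ?_⟩
  · rintro ⟨-, h2 | h2⟩
    · exact hq.1 h2
    · exact hq.2 h2
  · simp only [As_iter_fx x h, gcs_iter_coe]
    exact tendsto_const_nhds.prodMk_nhds (tends_coe_Gs (by norm_num) (by norm_num))
  · simp only [A_iter_fx x h, gc_iter_coe]
    exact tendsto_const_nhds.prodMk_nhds (tends_coe_G (by norm_num) (by norm_num))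

theorem Gs_mem {t : ℝ} (h0 : 0 ≤ t) (h1 : t ≤ 1 / 2) : t ≤ Gs t ∧ Gs t ≤ 1 / 2 := by
  have h2 : Gs t ≤ 1 / 2 := by
    have := Gs_strictMono.monotone h1
    rwa [show Gs (1 / 2) = 1 / 2 from Gs_half] at this
  have h3 : 0 ≤ Gs t := by
    have := Gs_strictMono.monotone h0
    rwa [show Gs 0 = 0 from Gs_zero] at this
  refine ⟨?_, h2⟩
  have := G_le (r := 0) le_rfl (by norm_num) h3 (by linarith)
  rw [G_Gs] at this
  linarith

theorem Gs_iter_mem {t : ℝ} (h0 : 0 ≤ t) (h1 : t ≤ 1 / 2) (n : ℕ) :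
    t ≤ Gs^[n] t ∧ Gs^[n] t ≤ 1 / 2 := by
  induction n with
  | zero => exact ⟨le_rfl, h1⟩
  | succ n ih =>
    rw [Function.iterate_succ_apply']
    have := Gs_mem (h0.trans ih.1) ih.2
    exact ⟨ih.1.trans this.1, this.2⟩

theorem G_mem {t : ℝ} (h0 : 0 ≤ t) (h1 : t ≤ 1 / 2) : 0 ≤ G t ∧ G t ≤ t := by
  refine ⟨G_nonneg h0, ?_⟩
  have := G_le (r := 0) le_rfl (by norm_num) h0 (by linarith)
  linarith

theorem G_iter_mem {t : ℝ} (h0 : 0 ≤ t) (h1 : t ≤ 1 / 2) (n : ℕ) :
    0 ≤ G^[n] t ∧ G^[n] t ≤ t := by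
  induction n with
  | zero => exact ⟨h0, le_rfl⟩
  | succ n ih =>
    rw [Function.iterate_succ_apply']
    have := G_mem ih.1 (ih.2.trans h1)
    exact ⟨this.1, this.2.trans ih.2⟩

theorem Gs_eighth : Gs (1 / 8) = 1 / 4 := by rw [← G_quarter, Gs_G]

/-- backward step on the unstable manifold of `p` -/
theorem As_step (x : ℕ → Bool) {W : ℝ} (h0 : 1 / 8 ≤ W) (h1 : W ≤ 7 / 8) (Z : ℝ) :
    (A x).symm ((W : T1), (Z : T1)) = (((Gs W : ℝ) : T1), ((Gs Z : ℝ) : T1)) := by
  have hg : 1 / 4 ≤ Gs W ∧ Gs W ≤ 1 := by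
    constructor
    · rw [← Gs_eighth]; exact Gs_strictMono.monotone h0
    · have := Gs_strictMono.monotone (show W ≤ 0 + 1 by linarith)
      rw [Gs_add_one, show Gs 0 = 0 from Gs_zero] at this
      linarith
  have ht : th x (Gs W) = 0 := th_zero x (by linarith [hg.1]) hg.2 (Or.inr (by linarith [hg.1]))
  rw [A_symm_apply]
  simp only
  rw [gc_symm_coe, show (GH.symm W : ℝ) = Gs W from rfl, thc_coe, ht]
  rw [show ((0:ℝ) : T1) = 0 from rfl, sub_zero, gc_symm_coe]
  rfl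

/-- forward step -/
theorem A_step (x : ℕ → Bool) {W : ℝ} (h0 : 0 ≤ W) (h1 : W ≤ 1) (h : W ≤ 9 / 64 ∨ 15 / 64 ≤ W)
    (Z : ℝ) : A x ((W : T1), (Z : T1)) = (((G W : ℝ) : T1), ((G Z : ℝ) : T1)) := by
  rw [A_coe, th_zero x h0 h1 h, add_zero]

theorem A_back (x : ℕ → Bool) {W : ℝ} (h0 : 1 / 8 ≤ W) (h1 : W ≤ 1 / 2) (n : ℕ) :
    (A x)^[n] (((Gs^[n] W : ℝ) : T1), 0) = ((W : T1), 0) := by
  induction n with
  | zero => rfl
  | succ n ih =>
    have h2 := Gs_iter_mem (by linarith) h1 n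
    have h3 := As_step x (h0.trans h2.1) (by linarith [h2.2]) 0
    rw [show Gs 0 = 0 from Gs_zero, ← Function.iterate_succ_apply' Gs,
      Homeomorph.symm_apply_eq] at h3
    rw [Function.iterate_succ_apply]
    have h4 : A x (((Gs^[n + 1] W : ℝ) : T1), (0 : T1)) = (((Gs^[n] W : ℝ) : T1), (0 : T1)) := h3.symm
    rw [h4, ih]

theorem As_iter' (x : ℕ → Bool) {W : ℝ} (h0 : 1 / 8 ≤ W) (h1 : W ≤ 1 / 2) (n : ℕ) :
    (A x).symm^[n] ((W : T1), 0) = (((Gs^[n] W : ℝ) : T1), 0) := by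
  rw [← A_back x h0 h1 n, As_A_iter]

theorem A_small (x : ℕ → Bool) {W : ℝ} (h0 : 0 ≤ W) (h1 : W ≤ 1 / 8) (Z : ℝ) (n : ℕ) :
    (A x)^[n] ((W : T1), (Z : T1)) = (((G^[n] W : ℝ) : T1), ((G^[n] Z : ℝ) : T1)) := by
  induction n generalizing W Z with
  | zero => rfl
  | succ n ih =>
    have h2 := G_mem h0 (by linarith)
    rw [Function.iterate_succ_apply, A_step x h0 (by linarith) (Or.inl (by linarith)),
      ih h2.1 (h2.2.trans h1), Function.iterate_succ_apply, Function.iterate_succ_apply]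

theorem A_thru (x : ℕ → Bool) {W : ℝ} (h0 : 1 / 8 ≤ W) (h1 : W ≤ 1 / 4) (n : ℕ) :
    (A x)^[n + 1] ((W : T1), 0) = (((G^[n + 1] W : ℝ) : T1), ((G^[n] (th x W) : ℝ) : T1)) := by
  have h2 : 0 ≤ G W := G_nonneg (by linarith)
  have h3 : G W ≤ 1 / 8 := by
    rw [← G_quarter]; exact G_strictMono.monotone h1
  rw [Function.iterate_succ_apply, show ((W : T1), (0 : T1)) = ((W : T1), ((0 : ℝ) : T1)) from rfl,
    A_coe, G_zero, zero_add, A_small x h2 h3, Function.iterate_succ_apply]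

theorem het_pq (x : ℕ → Bool) : Het x pp pq := by
  have hq := coe_ne (t := 3 / 16) (by norm_num) (by norm_num)
  have hth : th x (3 / 16) = 1 / 2 := by
    unfold th
    rw [(del_eq_zero_iff x (by norm_num) (by norm_num)).2 (Or.inl rfl), sub_zero]
  refine ⟨(((3 / 16 : ℝ) : T1), 0), ?_, ?_, ?_⟩
  · rintro ⟨h1 | h1, -⟩
    · exact hq.1 h1
    · exact hq.2 h1
  · simp only [As_iter' x (show (1:ℝ) / 8 ≤ 3 / 16 by norm_num) (by norm_num)]
    exact (tends_coe_Gs (by norm_num) (by norm_num)).prodMk_nhds tendsto_const_nhds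
  · rw [← tendsto_add_atTop_iff_nat 1]
    simp only [A_thru x (show (1:ℝ) / 8 ≤ 3 / 16 by norm_num) (by norm_num), hth, G_iter_half]
    have := (tendsto_add_atTop_iff_nat 1).2
      (tends_coe_G (t := 3 / 16) (by norm_num) (by norm_num))
    exact this.prodMk_nhds tendsto_const_nhds

section

variable {x y : ℕ → Bool} {H : T2 ≃ₜ T2} (hH : ∀ q, H (A x q) = A y (H q))

include hH

theorem H_symm (q : T2) : H.symm (A y q) = A x (H.symm q) := by
  rw [Homeomorph.symm_apply_eq, hH, H.apply_symm_apply]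

theorem H_As (q : T2) : H ((A x).symm q) = (A y).symm (H q) := by
  rw [Homeomorph.eq_symm_apply, ← hH, (A x).apply_symm_apply]

theorem H_iter (n : ℕ) (q : T2) : H ((A x)^[n] q) = (A y)^[n] (H q) := by
  induction n generalizing q with
  | zero => rfl
  | succ n ih => rw [Function.iterate_succ_apply, ih, hH, Function.iterate_succ_apply]

theorem H_As_iter (n : ℕ) (q : T2) : H ((A x).symm^[n] q) = (A y).symm^[n] (H q) := by
  induction n generalizing q with
  | zero => rfl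
  | succ n ih => rw [Function.iterate_succ_apply, ih, H_As hH, Function.iterate_succ_apply]

theorem H_fx {z : T2} (hz : z ∈ Fx) : H z ∈ Fx := by
  rw [← A_fix_iff y, ← hH, A_fix x hz]

theorem H_fx' {z : T2} (hz : H z ∈ Fx) : z ∈ Fx := by
  rw [← A_fix_iff x]
  apply H.injective
  rw [hH, A_fix y hz]

theorem Het.map {a b : T2} (h : Het x a b) : Het y (H a) (H b) := by
  obtain ⟨z, hz, h1, h2⟩ := h
  refine ⟨H z, fun hn => hz (H_fx' hH hn), ?_, ?_⟩
  · have := (H.continuous.tendsto a).comp h1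
    refine this.congr fun n => ?_
    exact H_As_iter hH n z
  · have := (H.continuous.tendsto b).comp h2
    refine this.congr fun n => ?_
    exact H_iter hH n z

theorem H_fixed : H pp = pp ∧ H pq = pq ∧ H pA = pA := by
  have h1 : LL (H pR) < LL (H pp) := (Het.map hH (het_fib x (Or.inr rfl))).lt
  have h2 : LL (H pp) < LL (H pq) := (Het.map hH (het_pq x)).lt
  have h3 : LL (H pq) < LL (H pA) := (Het.map hH (het_fib x (Or.inl rfl))).lt
  have vR : LL pR = -Lam - 1 := by unfold LL pR; simp only [c1_half]; ring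
  have vp : LL pp = -Lam + 1 := by unfold LL pp; simp only [c1_half, c1_zero]; ring
  have vq : LL pq = Lam - 1 := by unfold LL pq; simp only [c1_half, c1_zero]; ring
  have vA : LL pA = Lam + 1 := by unfold LL pA; simp only [c1_zero]; ring
  have hL := Lam_pos
  have cases' : ∀ z ∈ Fx, z = pR ∨ z = pp ∨ z = pq ∨ z = pA := by
    rintro ⟨a, b⟩ ⟨h1, h2⟩
    simp only at h1 h2
    rcases h1 with rfl | rfl <;> rcases h2 with rfl | rfl
    · right; right; right; rfl
    · right; right; left; rfl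
    · right; left; rfl
    · left; rfl
  have fR : pR ∈ Fx := ⟨Or.inr rfl, Or.inr rfl⟩
  have fp : pp ∈ Fx := ⟨Or.inr rfl, Or.inl rfl⟩
  have fq : pq ∈ Fx := ⟨Or.inl rfl, Or.inr rfl⟩
  have fA : pA ∈ Fx := ⟨Or.inl rfl, Or.inl rfl⟩
  have lR : -Lam - 1 ≤ LL (H pR) := by
    rcases cases' _ (H_fx hH fR) with h | h | h | h <;> rw [h] <;> linarith
  have lp : -Lam + 1 ≤ LL (H pp) := by
    rcases cases' _ (H_fx hH fp) with h | h | h | h <;> rw [h] at h1 ⊢ <;> linarith
  have lq : Lam - 1 ≤ LL (H pq) := by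
    rcases cases' _ (H_fx hH fq) with h | h | h | h <;> rw [h] at h2 ⊢ <;> linarith
  have eA : H pA = pA := by
    rcases cases' _ (H_fx hH fA) with h | h | h | h
    · rw [h] at h3; linarith
    · rw [h] at h3; linarith
    · rw [h] at h3; linarith
    · exact h
  have eq : H pq = pq := by
    rcases cases' _ (H_fx hH fq) with h | h | h | h
    · rw [h] at h2; linarith
    · rw [h] at h2; linarith
    · exact h
    · rw [h, eA] at h3; linarith
  refine ⟨?_, eq, eA⟩
  rcases cases' _ (H_fx hH fp) with h | h | h | h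
  · rw [h] at h1; linarith
  · exact h
  · rw [h, eq] at h2; linarith
  · rw [h, eq] at h2; linarith

end

end Pool.Agent.H410R3.AX
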