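import Mathlib
import Pool.Agent.H410R3.AX.Bwd1

/-!
# The conjugacy on the unstable manifold of `p`
-/

open Set Filter Topology
open Pool.Agent.Helper114.AB

namespace Pool.Agent.H410R3.AX

open Pool.Agent.H410R3.KS

theorem norm_sub_rep {b : T1} {r : ℝ} (h : ‖b - hf‖ ≤ r) :
    ∃ t : ℝ, |t| ≤ r ∧ b = ((1 / 2 + t : ℝ) : T1) := by
  obtain ⟨t, ht, h1, h2⟩ := norm_rep (b - hf)
  refine ⟨t, by rwa [← h2], ?_⟩
  rw [AddCircle.coe_add, h1]
  show b = hf + (b - hf)
  abel

theorem As_near (y : ℕ → Bool) {z : T2} (h : ‖z.1 - hf‖ ≤ 1 / 8) :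
    (A y).symm z = (gc.symm z.1, gc.symm z.2) := by
  obtain ⟨t, ht, h1⟩ := norm_sub_rep h
  obtain ⟨Z, -, hZ⟩ := rep z.2
  rw [abs_le] at ht
  have e : z = (((1 / 2 + t : ℝ) : T1), (Z : T1)) := Prod.ext h1 hZ.symm
  rw [e, As_step y (by linarith [ht.1]) (by linarith [ht.2])]
  rfl

theorem norm_gc_iter {b : T1} (h : ‖b‖ ≤ 1 / 4) (n : ℕ) : ‖gc^[n] b‖ ≤ (3 / 4) ^ n * ‖b‖ := by
  induction n with
  | zero => simp
  | succ n ih =>
    rw [Function.iterate_succ_apply']
    have h1 : ((3:ℝ) / 4) ^ n ≤ 1 := pow_le_one₀ (by norm_num) (by norm_num)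
    have h2 : ‖gc^[n] b‖ ≤ 1 / 4 := by nlinarith [norm_nonneg b]
    have h3 := norm_gc_le h2
    rw [pow_succ]
    nlinarith

theorem unst (y : ℕ → Bool) {z : T2}
    (h : ∀ n, ‖((A y).symm^[n] z).1 - hf‖ ≤ 1 / 8 ∧ ‖((A y).symm^[n] z).2‖ ≤ 1 / 4) : z.2 = 0 := by
  have h1 : ∀ n, (A y).symm^[n] z = (gc.symm^[n] z.1, gc.symm^[n] z.2) := by
    intro n
    induction n with
    | zero => rfl
    | succ n ih =>
      rw [Function.iterate_succ_apply', As_near y (h n).1, ih]
      simp only [Function.iterate_succ_apply']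
  have h2 : ∀ n : ℕ, ‖z.2‖ ≤ (3 / 4) ^ n * (1 / 4) := by
    intro n
    have h3 := (h n).2
    rw [h1 n] at h3
    simp only at h3
    have h4 := norm_gc_iter h3 n
    have h5 : gc^[n] (gc.symm^[n] z.2) = z.2 := Function.LeftInverse.iterate gc.apply_symm_apply n z.2
    rw [h5] at h4
    refine h4.trans ?_
    exact mul_le_mul_of_nonneg_left h3 (by positivity)
  have h3 : Tendsto (fun n : ℕ => ((3:ℝ) / 4) ^ n * (1 / 4)) atTop (𝓝 0) := by
    have := (tendsto_pow_atTop_nhds_zero_of_lt_one (r := (3:ℝ) / 4) (by norm_num)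
      (by norm_num)).mul_const (1 / 4)
    simpa using this
  have h4 : ‖z.2‖ ≤ 0 := ge_of_tendsto' h3 h2
  exact norm_le_zero_iff.1 h4

theorem coe_inj {s t : ℝ} (h : (s : T1) = (t : T1)) (h' : |s - t| < 1) : s = t := by
  have : ((s - t : ℝ) : T1) = 0 := by rw [AddCircle.coe_sub, h, sub_self]
  obtain ⟨k, hk⟩ := int_of_zero this
  rw [hk, abs_lt] at h'
  have h4 : (-1 : ℤ) < k := by exact_mod_cast h'.1
  have h5 : k < 1 := by exact_mod_cast h'.2
  have h6 : k = 0 := by omega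
  rw [h6] at hk
  simp at hk
  linarith

section

variable {x y : ℕ → Bool} {H : T2 ≃ₜ T2} (hH : ∀ q, H (A x q) = A y (H q))

include hH

theorem exists_psi : ∃ (s0 : ℝ) (ψ : ℝ → ℝ), 1 / 4 ≤ s0 ∧ s0 < 1 / 2 ∧
    ContinuousOn ψ (Icc s0 (1 / 2)) ∧
    (∀ s ∈ Icc s0 (1 / 2), H ((s : T1), 0) = ((ψ s : T1), 0) ∧ 3 / 8 ≤ ψ s ∧ ψ s ≤ 5 / 8) ∧
    ψ (1 / 2) = 1 / 2 := by
  have hp := (H_fixed hH).1
  have hc : Continuous (fun s : ℝ => H ((s : T1), 0)) :=
    H.continuous.comp (coe_cont.prodMk continuous_const)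
  have hp' : H (((1 / 2 : ℝ) : T1), 0) = pp := hp
  have hV : ∀ᶠ s : ℝ in 𝓝 (1 / 2 : ℝ), ‖(H ((s : T1), 0)).1 - hf‖ ≤ 1 / 8 ∧
      ‖(H ((s : T1), 0)).2‖ ≤ 1 / 4 := by
    have c1 : Continuous (fun s : ℝ => ‖(H ((s : T1), 0)).1 - hf‖) :=
      ((continuous_fst.comp hc).sub continuous_const).norm
    have c2 : Continuous (fun s : ℝ => ‖(H ((s : T1), 0)).2‖) := (continuous_snd.comp hc).norm
    have l1 : ‖(H (((1 / 2 : ℝ) : T1), 0)).1 - hf‖ < 1 / 8 := by
      rw [hp']; show ‖hf - hf‖ < 1 / 8; rw [sub_self, norm_zero]; norm_num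
    have l2 : ‖(H (((1 / 2 : ℝ) : T1), 0)).2‖ < 1 / 4 := by
      rw [hp']; show ‖(0 : T1)‖ < 1 / 4; rw [norm_zero]; norm_num
    have e1 := c1.continuousAt.eventually (gt_mem_nhds l1)
    have e2 := c2.continuousAt.eventually (gt_mem_nhds l2)
    filter_upwards [e1, e2] with s h1 h2
    exact ⟨h1.le, h2.le⟩
  rw [Metric.eventually_nhds_iff] at hV
  obtain ⟨ε, hε, hV⟩ := hV
  set s0 : ℝ := 1 / 2 - min (ε / 2) (1 / 4) with hs0
  have hm1 : 0 < min (ε / 2) (1 / 4) := lt_min (by linarith) (by norm_num)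
  have hm2 : min (ε / 2) (1 / 4) ≤ 1 / 4 := min_le_right _ _
  have hm3 : min (ε / 2) (1 / 4) ≤ ε / 2 := min_le_left _ _
  have hV' : ∀ s ∈ Icc s0 (1 / 2), ‖(H ((s : T1), 0)).1 - hf‖ ≤ 1 / 8 ∧
      ‖(H ((s : T1), 0)).2‖ ≤ 1 / 4 := by
    intro s hs
    apply hV
    rw [Real.dist_eq, abs_of_nonpos (by linarith [hs.2])]
    linarith [hs.1]
  set ψ : ℝ → ℝ := fun s => (AddCircle.equivIco 1 0 (H ((s : T1), 0)).1 : ℝ) with hψ
  have hψ1 : ∀ s, (ψ s : T1) = (H ((s : T1), 0)).1 := fun s => AddCircle.coe_equivIco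
  have hψ2 : ∀ s, 0 ≤ ψ s ∧ ψ s < 1 := by
    intro s
    have := (AddCircle.equivIco 1 0 (H ((s : T1), 0)).1).2
    exact ⟨this.1, by simpa using this.2⟩
  have hψ3 : ∀ s ∈ Icc s0 (1 / 2), 3 / 8 ≤ ψ s ∧ ψ s ≤ 5 / 8 := by
    intro s hs
    have h1 := (hV' s hs).1
    rw [← hψ1] at h1
    have h2 : (ψ s : T1) - hf = ((ψ s - 1 / 2 : ℝ) : T1) := by
      rw [AddCircle.coe_sub]; rfl
    rw [h2, norm_coe' (by rw [abs_le]; constructor <;> linarith [(hψ2 s).1, (hψ2 s).2]), abs_le] at h1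
    constructor <;> linarith [h1.1, h1.2]
  refine ⟨s0, ψ, by linarith, by linarith, ?_, ?_, ?_⟩
  · intro s hs
    apply ContinuousAt.continuousWithinAt
    have hne : (H ((s : T1), 0)).1 ≠ ((0 : ℝ) : T1) := by
      rw [← hψ1]
      intro h
      have h3 := hψ3 s hs
      have := coe_inj h (by rw [abs_lt]; constructor <;> linarith [h3.1, h3.2])
      linarith [h3.1]
    have c1 : ContinuousAt (AddCircle.equivIco (1 : ℝ) 0) (H ((s : T1), 0)).1 :=
      AddCircle.continuousAt_equivIco 1 0 hne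
    have c2 : ContinuousAt (fun s : ℝ => (H ((s : T1), 0)).1) s :=
      (continuous_fst.comp hc).continuousAt
    have c3 := ContinuousAt.comp (f := fun s : ℝ => (H ((s : T1), 0)).1) (x := s) c1 c2
    exact (continuous_subtype_val.continuousAt).comp c3
  · intro s hs
    refine ⟨?_, hψ3 s hs⟩
    refine Prod.ext (hψ1 s).symm ?_
    simp only
    apply unst y
    intro n
    rw [← H_As_iter hH, As_iter' x (by linarith [hs.1]) hs.2]
    apply hV'
    have := Gs_iter_mem (show 0 ≤ s by linarith [hs.1]) hs.2 n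
    exact ⟨hs.1.trans this.1, this.2⟩
  · have h1 := hψ1 (1 / 2)
    rw [hp'] at h1
    have h2 : (ψ (1 / 2) : T1) = ((1 / 2 : ℝ) : T1) := h1
    refine coe_inj h2 ?_
    rw [abs_lt]
    constructor <;> linarith [(hψ2 (1 / 2)).1, (hψ2 (1 / 2)).2]

end

/-- points of the unstable manifold of `p` in the stable manifold of `q` -/
def Sq (x : ℕ → Bool) (X : ℝ) : Prop := Tendsto (fun n => (A x)^[n] ((X : T1), 0)) atTop (𝓝 pq)

/-- points of tangency in a fundamental domain -/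
def T0 (t : ℝ) : Prop := t = 3 / 16 ∨ ∃ n, t = cc n

/-- points of tangency -/
def TT (X : ℝ) : Prop := ∃ m t, T0 t ∧ X = Gs^[m] t

theorem T0_bd {t : ℝ} (h : T0 t) : 5 / 32 ≤ t ∧ t ≤ 3 / 16 := by
  rcases h with rfl | ⟨n, rfl⟩
  · constructor <;> norm_num
  · exact ⟨cc_ge n, (cc_lt n).le⟩

theorem Sq_of_TT (x : ℕ → Bool) {X : ℝ} (h : TT X) : Sq x X := by
  obtain ⟨m, t, ht, rfl⟩ := h
  have hb := T0_bd ht
  unfold Sq
  rw [← tendsto_add_atTop_iff_nat (1 + m)]
  have h1 : ∀ n, (A x)^[n + (1 + m)] (((Gs^[m] t : ℝ) : T1), 0) =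
      (((G^[n + 1] t : ℝ) : T1), hf) := by
    intro n
    rw [← add_assoc, Function.iterate_add_apply, A_back x (by linarith [hb.1]) (by linarith [hb.2]),
      A_thru x (by linarith [hb.1]) (by linarith [hb.2])]
    have hth : th x t = 1 / 2 := by
      unfold th
      rw [(del_eq_zero_iff x (by linarith [hb.1]) (by linarith [hb.2])).2 ht, sub_zero]
    rw [hth, G_iter_half]
    rfl
  simp only [h1]
  have := (tendsto_add_atTop_iff_nat 1).2
      (tends_coe_G (t := t) (by linarith [hb.1]) (by linarith [hb.2]))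
  exact this.prodMk_nhds tendsto_const_nhds

theorem G_iter_neg (n : ℕ) (s : ℝ) : G^[n] (-s) = -G^[n] s := by
  induction n generalizing s with
  | zero => rfl
  | succ n ih => rw [Function.iterate_succ_apply, G_neg, ih, Function.iterate_succ_apply]

theorem TT_of_Sq (x : ℕ → Bool) {X : ℝ} (h0 : 1 / 8 < X) (h1 : X < 1 / 2) (h : Sq x X) : TT X := by
  classical
  have hex : ∃ n, G^[n] X ≤ 1 / 8 := by
    have := (tends_G (by linarith) h1).eventually (gt_mem_nhds (show (0:ℝ) < 1 / 8 by norm_num))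
    obtain ⟨n, hn⟩ := this.exists
    exact ⟨n, hn.le⟩
  have hne : Nat.find hex ≠ 0 := by
    intro hz
    have := Nat.find_spec hex
    rw [hz] at this
    simp at this
    linarith
  obtain ⟨k, hk⟩ := Nat.exists_eq_succ_of_ne_zero hne
  set W := G^[k] X with hW
  have hW1 : 1 / 8 < W := by
    by_contra hc
    exact Nat.find_min hex (m := k) (by omega) (not_lt.1 hc)
  have hW2 : W ≤ 1 / 4 := by
    have h2 := Nat.find_spec hex
    rw [hk, Nat.succ_eq_add_one, Function.iterate_succ_apply', ← G_quarter] at h2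
    exact G_strictMono.le_iff_le.1 h2
  have hX : X = Gs^[k] W := (Gs_G_iter k X).symm
  refine ⟨k, W, ?_, hX⟩
  have hth : th x W = 1 / 2 := by
    by_contra hne
    have hb1 : th x W ≤ 1 / 2 := by
      unfold th; linarith [del_nonneg x W]
    have hb2 : -(1 / 8) ≤ th x W := by
      unfold th; linarith [del_le x W]
    have hlt : th x W < 1 / 2 := lt_of_le_of_ne hb1 hne
    have hz : Tendsto (fun n => ((G^[n] (th x W) : ℝ) : T1)) atTop (𝓝 0) := by
      rcases le_total 0 (th x W) with h2 | h2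
      · exact tends_coe_G h2 hlt
      · have h3 := tends_G (t := -th x W) (by linarith) (by linarith)
        have h4 : Tendsto (fun n => G^[n] (th x W)) atTop (𝓝 0) := by
          have h5 := h3.neg
          simp only [G_iter_neg, neg_neg, neg_zero] at h5
          exact h5
        have h6 := (coe_cont.tendsto 0).comp h4
        exact h6
    unfold Sq at h
    rw [← tendsto_add_atTop_iff_nat (1 + k)] at h
    have h1 : ∀ n, (A x)^[n + (1 + k)] ((X : T1), 0) =
        (((G^[n + 1] W : ℝ) : T1), ((G^[n] (th x W) : ℝ) : T1)) := by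
      intro n
      rw [← add_assoc, Function.iterate_add_apply]
      conv_lhs => rw [hX]
      rw [A_back x hW1.le (by linarith), A_thru x hW1.le hW2]
    simp only [h1] at h
    have h7 := ((continuous_snd (X := T1) (Y := T1)).tendsto pq).comp h
    have h8 : (0 : T1) = hf := tendsto_nhds_unique hz h7
    exact zero_ne_half h8
  have hd : del x W = 0 := by
    unfold th at hth
    linarith
  exact (del_eq_zero_iff x (by linarith) (by linarith)).1 hd

theorem not_Sq (x : ℕ → Bool) {X : ℝ} (h0 : 1 / 2 ≤ X) (h1 : X ≤ 1) : ¬ Sq x X := by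
  intro h
  have h2 : ∀ (n : ℕ) (X : ℝ), 1 / 2 ≤ X → X ≤ 1 → ((A x)^[n] ((X : T1), 0)).2 = 0 := by
    intro n
    induction n with
    | zero => intro X _ _; rfl
    | succ n ih =>
      intro X h0 h1
      rw [Function.iterate_succ_apply, show ((X : T1), (0 : T1)) = ((X : T1), ((0 : ℝ) : T1)) from rfl,
        A_step x (by linarith) h1 (Or.inr (by linarith)), G_zero]
      refine ih (G X) ?_ ?_
      · rw [← G_half]; exact G_strictMono.monotone h0
      · have := G_strictMono.monotone (show X ≤ 0 + 1 by linarith)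
        rwa [G_add_one, G_zero, zero_add] at this
  have h7 := ((continuous_snd (X := T1) (Y := T1)).tendsto pq).comp h
  have h8 : (Prod.snd ∘ fun n => (A x)^[n] ((X : T1), 0)) = fun _ => (0 : T1) :=
    funext fun n => h2 n X h0 h1
  rw [h8] at h7
  have : (0 : T1) = hf := tendsto_nhds_unique tendsto_const_nhds h7
  exact zero_ne_half this

/-- the limits of the points of tangency -/
noncomputable def aa (k : ℕ) : ℝ := Gs^[k] (3 / 16)

theorem G_316 : G (3 / 16) < 1 / 8 := by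
  rw [← G_quarter]; exact G_strictMono (by norm_num)

theorem aa_strictMono : StrictMono aa := by
  apply strictMono_nat_of_lt_succ
  intro n
  unfold aa
  rw [Function.iterate_succ_apply]
  apply Gs_strictMono.iterate n
  have h := G_316
  have := Gs_strictMono h
  rw [Gs_G, Gs_eighth] at this
  apply G_strictMono.lt_iff_lt.1
  rw [G_Gs]
  linarith

theorem aa_lt_of {m : ℕ} {t : ℝ} (h : 5 / 32 ≤ t) : aa m < Gs^[m + 1] t := by
  unfold aa
  rw [Function.iterate_succ_apply]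
  apply Gs_strictMono.iterate m
  apply G_strictMono.lt_iff_lt.1
  rw [G_Gs]
  linarith [G_316]

theorem le_aa_of {m : ℕ} {t : ℝ} (h : t ≤ 3 / 16) : Gs^[m] t ≤ aa m :=
  (Gs_strictMono.iterate m).monotone h

theorem lt_aa_of {m : ℕ} {t : ℝ} (h : t < 3 / 16) : Gs^[m] t < aa m :=
  (Gs_strictMono.iterate m) h

theorem TT_between {X : ℝ} (h : TT X) {l : ℕ} (h1 : aa l < X) (h2 : X < aa (l + 1)) :
    ∃ i, X = Gs^[l + 1] (cc i) := by
  obtain ⟨m, t, ht, rfl⟩ := h
  have hb := T0_bd ht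
  cases m with
  | zero =>
    exfalso
    have h3 : aa 0 ≤ aa l := aa_strictMono.monotone (Nat.zero_le l)
    have h4 : t ≤ aa 0 := hb.2
    have h5 : aa l < t := h1
    linarith
  | succ j =>
    have h3 := aa_lt_of (m := j) hb.1
    have h4 := le_aa_of (m := j + 1) hb.2
    have h5 : l < j + 1 := aa_strictMono.lt_iff_lt.1 (h1.trans_le h4)
    have h6 : j < l + 1 := aa_strictMono.lt_iff_lt.1 (h3.trans h2)
    have h7 : j = l := by omega
    subst h7
    rcases ht with rfl | ⟨i, rfl⟩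
    · exact absurd h2 (lt_irrefl _)
    · exact ⟨i, rfl⟩

theorem aa_bd (k : ℕ) : 3 / 16 ≤ aa k ∧ aa k < 1 / 2 := by
  refine ⟨(Gs_iter_mem (by norm_num) (by norm_num) k).1, ?_⟩
  have := (Gs_strictMono.iterate k) (show (3:ℝ) / 16 < 1 / 2 by norm_num)
  have h2 : Gs^[k] (1 / 2) = 1 / 2 := Function.iterate_fixed Gs_half k
  rw [h2] at this
  exact this

theorem TT_aa (k : ℕ) : TT (aa k) := ⟨k, 3 / 16, Or.inl rfl, rfl⟩

theorem TT_cc (k i : ℕ) : TT (Gs^[k] (cc i)) := ⟨k, cc i, Or.inr ⟨i, rfl⟩, rfl⟩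

section

variable {x y : ℕ → Bool} {H : T2 ≃ₜ T2} (hH : ∀ q, H (A x q) = A y (H q))

include hH

theorem exists_levels : ∃ k l : ℕ, ∀ i, ∃ s, cc i < s ∧ s < cc (i + 1) ∧
    H (((Gs^[k] (md i) : ℝ) : T1), 0) = (((Gs^[l] s : ℝ) : T1), 0) := by
  obtain ⟨s0, ψ, hs1, hs2, hψc, hψ, hψh⟩ := exists_psi hH
  have hq := (H_fixed hH).2.1
  -- the invariance of the stable manifold
  have hS : ∀ s ∈ Icc s0 (1 / 2), (Sq x s ↔ Sq y (ψ s)) := by
    intro s hs
    have e1 : ∀ n, (A y)^[n] ((ψ s : T1), 0) = H ((A x)^[n] ((s : T1), 0)) := by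
      intro n
      rw [H_iter hH, (hψ s hs).1]
    constructor
    · intro h
      have h2 := (H.continuous.tendsto pq).comp h
      rw [hq] at h2
      unfold Sq
      simp only [e1]
      exact h2
    · intro h
      unfold Sq at h
      simp only [e1] at h
      have h2 := (H.symm.continuous.tendsto pq).comp h
      have h3 : H.symm pq = pq := by rw [Homeomorph.symm_apply_eq, hq]
      rw [h3] at h2
      refine h2.congr fun n => ?_
      exact H.symm_apply_apply _
  have hT : ∀ s ∈ Icc s0 (1 / 2), TT s → ψ s < 1 / 2 ∧ TT (ψ s) := by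
    intro s hs h
    have h2 := (hS s hs).1 (Sq_of_TT x h)
    have h3 : ψ s < 1 / 2 := by
      by_contra hc
      exact not_Sq y (not_lt.1 hc) (by linarith [(hψ s hs).2.2]) h2
    exact ⟨h3, TT_of_Sq y (by linarith [(hψ s hs).2.1]) h3 h2⟩
  have hT' : ∀ s ∈ Icc s0 (1 / 2), TT (ψ s) → TT s := by
    intro s hs h
    have h2 := (hS s hs).2 (Sq_of_TT y h)
    have h3 : s < 1 / 2 := by
      by_contra hc
      exact not_Sq x (not_lt.1 hc) (by linarith [hs.2]) h2
    exact TT_of_Sq x (by linarith [hs.1]) h3 h2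
  -- large levels
  obtain ⟨K, hK⟩ : ∃ K, s0 < aa K := by
    have := (tends_Gs (t := 3 / 16) (by norm_num) (by norm_num)).eventually (lt_mem_nhds hs2)
    exact this.exists
  have hinj : InjOn ψ (Icc s0 (1 / 2)) := by
    intro s hs t ht he
    have h1 := (hψ s hs).1
    have h2 := (hψ t ht).1
    rw [he, ← h2] at h1
    have h3 := congrArg Prod.fst (H.injective h1)
    exact coe_inj h3 (by rw [abs_lt]; constructor <;> linarith [hs.1, hs.2, ht.1, ht.2])
  have haI : ∀ k, K ≤ k → aa k ∈ Icc s0 (1 / 2) := fun k hk =>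
    ⟨(hK.trans_le (aa_strictMono.monotone hk)).le, (aa_bd k).2.le⟩
  have hmono : StrictMonoOn ψ (Icc s0 (1 / 2)) := by
    rcases ContinuousOn.strictMonoOn_of_injOn_Icc' hs2.le hψc hinj with h | h
    · exact h
    · exfalso
      have h1 := h (haI K le_rfl) (right_mem_Icc.2 hs2.le) (aa_bd K).2
      rw [hψh] at h1
      have h2 := (hT _ (haI K le_rfl) (TT_aa K)).1
      linarith
  have heq : ∀ s ∈ Icc s0 (1 / 2), ψ (Gs s) = Gs (ψ s) := by
    intro s hs
    have hGs := Gs_mem (show 0 ≤ s by linarith [hs.1]) hs.2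
    have hs' : Gs s ∈ Icc s0 (1 / 2) := ⟨hs.1.trans hGs.1, hGs.2⟩
    have h1 := H_As hH ((s : T1), ((0 : ℝ) : T1))
    rw [As_step x (by linarith [hs.1]) (by linarith [hs.2]), show Gs 0 = 0 from Gs_zero] at h1
    have h2 : H (((Gs s : ℝ) : T1), ((0 : ℝ) : T1)) = ((ψ (Gs s) : T1), 0) := (hψ _ hs').1
    have h3 : H ((s : T1), ((0 : ℝ) : T1)) = ((ψ s : T1), ((0:ℝ) : T1)) := (hψ s hs).1
    rw [h2, h3, As_step y (by linarith [(hψ s hs).2.1]) (by linarith [(hψ s hs).2.2])] at h1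
    have h4 := congrArg Prod.fst h1
    simp only at h4
    have h5 : 0 ≤ Gs (ψ s) ∧ Gs (ψ s) ≤ 1 := by
      constructor
      · have := Gs_strictMono.monotone (show 0 ≤ ψ s by linarith [(hψ s hs).2.1])
        rwa [show Gs 0 = 0 from Gs_zero] at this
      · have := Gs_strictMono.monotone (show ψ s ≤ 0 + 1 by linarith [(hψ s hs).2.2])
        rw [Gs_add_one, show Gs 0 = 0 from Gs_zero] at this
        linarith
    have h6 := (hψ _ hs').2
    exact coe_inj h4 (by rw [abs_lt]; constructor <;> linarith [h5.1, h5.2, h6.1, h6.2])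
  -- points of tangency of level `K + 1` and more
  have hcI : ∀ j, K ≤ j → ∀ t, 5 / 32 ≤ t → t ≤ 3 / 16 → Gs^[j + 1] t ∈ Icc s0 (1 / 2) := by
    intro j hj t h1 h2
    have h3 := aa_lt_of (m := j) h1
    have h4 := le_aa_of (m := j + 1) h2
    exact ⟨(haI j hj).1.trans h3.le, h4.trans (aa_bd _).2.le⟩
  have hmI : ∀ m, StrictMono (fun i => Gs^[m] (cc i)) := fun m =>
    (Gs_strictMono.iterate m).comp cc_strictMono
  -- limits are mapped to limits
  have claim1 : ∀ j, K ≤ j → ∃ m, ψ (aa (j + 1)) = aa m := by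
    intro j hj
    have hjI := haI (j + 1) (by omega)
    obtain ⟨m, t, ht, he⟩ := (hT _ hjI (TT_aa (j + 1))).2
    rcases ht with rfl | ⟨i0, rfl⟩
    · exact ⟨m, he⟩
    exfalso
    cases m with
    | zero =>
      have h1 := (hψ _ hjI).2.1
      rw [he] at h1
      have h2 : (3:ℝ) / 8 ≤ cc i0 := h1
      linarith [cc_lt i0]
    | succ m =>
      have hlim : Tendsto (fun i => ψ (Gs^[j + 1] (cc i))) atTop (𝓝 (ψ (aa (j + 1)))) := by
        have h1 : Tendsto (fun i => Gs^[j + 1] (cc i)) atTop (𝓝 (aa (j + 1))) :=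
          ((Gs_continuous.iterate (j + 1)).tendsto _).comp cc_tendsto
        have h2 := (hψc _ hjI).tendsto
        exact h2.comp (tendsto_nhdsWithin_iff.2 ⟨h1, Eventually.of_forall fun i =>
          hcI j hj _ (cc_ge i) (cc_lt i).le⟩)
      have hlt : aa m < ψ (aa (j + 1)) := by
        rw [he]; exact aa_lt_of (cc_ge i0)
      obtain ⟨i1, hi1⟩ := eventually_atTop.1 (hlim.eventually (lt_mem_nhds hlt))
      have hτ : ∀ n, ∃ i, ψ (Gs^[j + 1] (cc (i1 + n))) = Gs^[m + 1] (cc i) := by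
        intro n
        have hI := hcI j hj _ (cc_ge (i1 + n)) (cc_lt (i1 + n)).le
        refine TT_between (hT _ hI (TT_cc _ _)).2 (hi1 _ (Nat.le_add_right _ _)) ?_
        have h1 := hmono hI hjI (lt_aa_of (m := j + 1) (cc_lt (i1 + n)))
        rw [he] at h1
        exact h1.trans (lt_aa_of (cc_lt i0))
      choose τ hτ' using hτ
      have hτm : StrictMono τ := by
        intro n n' hn
        have h1 := hmono (hcI j hj _ (cc_ge (i1 + n)) (cc_lt (i1 + n)).le)
          (hcI j hj _ (cc_ge (i1 + n')) (cc_lt (i1 + n')).le)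
          (hmI (j + 1) (show i1 + n < i1 + n' by omega))
        rw [hτ', hτ'] at h1
        exact (hmI (m + 1)).lt_iff_lt.1 h1
      have h1 := hτm.le_apply (x := i0)
      have h2 := hmono (hcI j hj _ (cc_ge (i1 + i0)) (cc_lt (i1 + i0)).le) hjI
        (lt_aa_of (m := j + 1) (cc_lt (i1 + i0)))
      rw [hτ', he] at h2
      have h3 := (hmI (m + 1)).lt_iff_lt.1 h2
      omega
  obtain ⟨m, hm⟩ := claim1 K le_rfl
  have hm' : ψ (aa (K + 2)) = aa (m + 1) := by
    have h1 : aa (K + 2) = Gs (aa (K + 1)) := Function.iterate_succ_apply' Gs (K + 1) _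
    have h2 : aa (m + 1) = Gs (aa m) := Function.iterate_succ_apply' Gs m _
    rw [h1, heq _ (haI (K + 1) (by omega)), hm, h2]
  have hcI2 := hcI (K + 1) (by omega)
  have hI1 := haI (K + 1) (by omega)
  have hI2 := haI (K + 2) (by omega)
  have hσ : ∀ i, ∃ i', ψ (Gs^[K + 2] (cc i)) = Gs^[m + 1] (cc i') := by
    intro i
    have hI := hcI2 _ (cc_ge i) (cc_lt i).le
    refine TT_between (hT _ hI (TT_cc _ _)).2 ?_ ?_
    · rw [← hm]; exact hmono hI1 hI (aa_lt_of (cc_ge i))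
    · rw [← hm']; exact hmono hI hI2 (lt_aa_of (cc_lt i))
  choose σ hσ' using hσ
  have hσm : StrictMono σ := by
    intro n n' hn
    have h1 := hmono (hcI2 _ (cc_ge n) (cc_lt n).le) (hcI2 _ (cc_ge n') (cc_lt n').le)
      (hmI (K + 2) hn)
    rw [hσ', hσ'] at h1
    exact (hmI (m + 1)).lt_iff_lt.1 h1
  have hσs : Function.Surjective σ := by
    intro j
    have hlt : aa (K + 1) ≤ aa (K + 2) := aa_strictMono.monotone (by omega)
    have hc' : ContinuousOn ψ (Icc (aa (K + 1)) (aa (K + 2))) :=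
      hψc.mono (Icc_subset_Icc hI1.1 hI2.2)
    have h1 : Gs^[m + 1] (cc j) ∈ Icc (ψ (aa (K + 1))) (ψ (aa (K + 2))) := by
      rw [hm, hm']
      exact ⟨(aa_lt_of (cc_ge j)).le, (lt_aa_of (cc_lt j)).le⟩
    obtain ⟨s, hs, hse⟩ := intermediate_value_Icc hlt hc' h1
    have hsI : s ∈ Icc s0 (1 / 2) := ⟨hI1.1.trans hs.1, hs.2.trans hI2.2⟩
    have h2 : TT s := hT' s hsI (by rw [hse]; exact TT_cc _ _)
    have h3 : aa (K + 1) < s := by
      refine lt_of_le_of_ne hs.1 ?_
      rintro rfl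
      rw [hm] at hse
      exact absurd hse (aa_lt_of (cc_ge j)).ne
    have h4 : s < aa (K + 2) := by
      refine lt_of_le_of_ne hs.2 ?_
      rintro rfl
      rw [hm'] at hse
      exact absurd hse (lt_aa_of (cc_lt j)).ne'
    obtain ⟨i, rfl⟩ := TT_between h2 h3 h4
    refine ⟨i, ?_⟩
    rw [hσ'] at hse
    exact (hmI (m + 1)).injective hse
  have hid : σ = id := (StrictMono.range_inj hσm strictMono_id).1 (by
    rw [hσs.range_eq, range_id])
  refine ⟨K + 2, m + 1, fun i => ?_⟩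
  have hmd : cc i < md i ∧ md i < cc (i + 1) := by
    have := v_pos i
    rw [md_eq, cc_succ]
    constructor <;> linarith
  have hmdb := md_bd i
  have hWI := hcI2 (md i) hmdb.1 hmdb.2
  have e1 : ψ (Gs^[K + 2] (cc i)) = Gs^[m + 1] (cc i) := by rw [hσ', hid]; rfl
  have e2 : ψ (Gs^[K + 2] (cc (i + 1))) = Gs^[m + 1] (cc (i + 1)) := by rw [hσ', hid]; rfl
  have h1 := hmono (hcI2 _ (cc_ge i) (cc_lt i).le) hWI ((Gs_strictMono.iterate (K + 2)) hmd.1)
  have h2 := hmono hWI (hcI2 _ (cc_ge (i + 1)) (cc_lt (i + 1)).le)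
    ((Gs_strictMono.iterate (K + 2)) hmd.2)
  rw [e1] at h1
  rw [e2] at h2
  refine ⟨G^[m + 1] (ψ (Gs^[K + 2] (md i))), ?_, ?_, ?_⟩
  · have := (G_iter_mono (m + 1)) h1
    rwa [G_Gs_iter] at this
  · have := (G_iter_mono (m + 1)) h2
    rwa [G_Gs_iter] at this
  · rw [Gs_G_iter]
    exact (hψ _ hWI).1

end

end Pool.Agent.H410R3.AX
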