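import Mathlib
import Pool.Agent.H410R3.AX.Bwd2

/-!
# Conjugate maps come from `E_0`-equivalent sequences
-/

open Set Filter Topology
open scoped Manifold ContDiff
open Pool.Agent.Helper114.AB

namespace Pool.Agent.H410R3.AX

open Pool.Agent.H410R3.KS

/-- a neighbourhood of the attracting fixed point -/
def B0 : Set T2 := {z | ‖z.1‖ ≤ 1 / 8 ∧ ‖z.2‖ ≤ 1 / 8}

theorem A_B0 (x : ℕ → Bool) {z : T2} (hz : z ∈ B0) : A x z = (gc z.1, gc z.2) := by
  obtain ⟨t, ht, h1, h2⟩ := norm_rep z.1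
  have hw : z.1 ∉ Win := by
    rintro ⟨s, hs, h3⟩
    have h3' : (s : T1) = z.1 := h3
    have h4 := hz.1
    rw [h2, abs_le] at h4
    rw [← h1] at h3'
    have := coe_inj h3' (by rw [abs_lt]; constructor <;> linarith [hs.1, hs.2, h4.1, h4.2])
    linarith [hs.1, h4.2]
  rw [A_apply, thc_zero x hw, add_zero]

theorem A_B0_iter (x : ℕ → Bool) {z : T2} (hz : z ∈ B0) (n : ℕ) :
    (A x)^[n] z ∈ B0 ∧ ‖((A x)^[n] z).1‖ ≤ (3 / 4) ^ n ∧ ‖((A x)^[n] z).2‖ ≤ (3 / 4) ^ n := by
  induction n with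
  | zero =>
    refine ⟨hz, ?_, ?_⟩
    · simpa using hz.1.trans (by norm_num)
    · simpa using hz.2.trans (by norm_num)
  | succ n ih =>
    obtain ⟨h1, h2, h3⟩ := ih
    rw [Function.iterate_succ_apply', A_B0 x h1]
    have g1 := norm_gc_le (h1.1.trans (by norm_num))
    have g2 := norm_gc_le (h1.2.trans (by norm_num))
    have k1 := h1.1
    have k2 := h1.2
    have n1 := norm_nonneg ((A x)^[n] z).1
    have n2 := norm_nonneg ((A x)^[n] z).2
    refine ⟨⟨?_, ?_⟩, ?_, ?_⟩
    · simp only; linarith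
    · simp only; linarith
    · simp only [pow_succ]; linarith
    · simp only [pow_succ]; linarith

theorem kap_half : kap (1 / 2) = 1 / 2 := by
  unfold kap
  rw [show 2 * Real.pi * (1 / 2) = Real.pi by ring, Real.sin_pi]; ring

theorem kap_mem {s : ℝ} (h0 : 0 ≤ s) (h1 : s ≤ 1 / 2) : s ≤ kap s ∧ kap s ≤ 1 / 2 := by
  constructor
  · have := le_kap (r := 0) le_rfl (by norm_num) h0 (by linarith)
    linarith
  · have := kap_strictMono.monotone h1
    rwa [kap_half] at this

theorem kap_iter_mem {s : ℝ} (h0 : 0 ≤ s) (h1 : s ≤ 1 / 2) (n : ℕ) :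
    s ≤ kap^[n] s ∧ kap^[n] s ≤ 1 / 2 := by
  induction n with
  | zero => exact ⟨le_rfl, h1⟩
  | succ n ih =>
    rw [Function.iterate_succ_apply']
    have := kap_mem (h0.trans ih.1) ih.2
    exact ⟨ih.1.trans this.1, this.2⟩

theorem kap_iter_mono (n : ℕ) : Monotone (kap^[n]) := kap_strictMono.monotone.iterate n

theorem G_iter_half_sub (n : ℕ) (s : ℝ) : G^[n] (1 / 2 - s) = 1 / 2 - kap^[n] s := by
  induction n generalizing s with
  | zero => rfl
  | succ n ih => rw [Function.iterate_succ_apply, G_half_sub, ih, Function.iterate_succ_apply]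

theorem kap_halves {D : ℝ} (h0 : 0 ≤ D) (i : ℕ) : kap^[i] (D / 2 ^ i) ≤ D := by
  induction i with
  | zero => simp
  | succ i ih =>
    rw [Function.iterate_succ_apply]
    refine le_trans (kap_iter_mono i ?_) ih
    refine (kap_le (by positivity)).trans (le_of_eq ?_)
    rw [pow_succ]
    field_simp

section

variable {x y : ℕ → Bool} {H : T2 ≃ₜ T2} (hH : ∀ q, H (A x q) = A y (H q))

include hH

theorem exists_M : ∃ M, ∀ z ∈ B0, H ((A x)^[M] z) ∈ B0 := by
  have hA := (H_fixed hH).2.2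
  have hn : ∀ᶠ z in 𝓝 pA, ‖(H z).1‖ ≤ 1 / 8 ∧ ‖(H z).2‖ ≤ 1 / 8 := by
    have c1 : Continuous (fun z : T2 => ‖(H z).1‖) := (continuous_fst.comp H.continuous).norm
    have c2 : Continuous (fun z : T2 => ‖(H z).2‖) := (continuous_snd.comp H.continuous).norm
    have l1 : ‖(H pA).1‖ < 1 / 8 := by
      rw [hA]; show ‖(0 : T1)‖ < 1 / 8; rw [norm_zero]; norm_num
    have l2 : ‖(H pA).2‖ < 1 / 8 := by
      rw [hA]; show ‖(0 : T1)‖ < 1 / 8; rw [norm_zero]; norm_num
    filter_upwards [c1.continuousAt.eventually (gt_mem_nhds l1),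
      c2.continuousAt.eventually (gt_mem_nhds l2)] with s h1 h2
    exact ⟨h1.le, h2.le⟩
  rw [Metric.eventually_nhds_iff] at hn
  obtain ⟨ε, hε, hn⟩ := hn
  obtain ⟨M, hM⟩ := exists_pow_lt_of_lt_one hε (show (3:ℝ) / 4 < 1 by norm_num)
  refine ⟨M, fun z hz => ?_⟩
  obtain ⟨-, h1, h2⟩ := A_B0_iter x hz M
  apply hn
  rw [Prod.dist_eq, max_lt_iff]
  constructor
  · show dist ((A x)^[M] z).1 0 < ε
    rw [dist_zero_right]
    exact h1.trans_lt hM
  · show dist ((A x)^[M] z).2 0 < ε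
    rw [dist_zero_right]
    exact h2.trans_lt hM

theorem bounded_diff : ∃ N, ∀ i, x i = true → y i = false → i < N := by
  classical
  obtain ⟨k, l, hkl⟩ := exists_levels hH
  obtain ⟨M, hM⟩ := exists_M hH
  refine ⟨M + k + 2, fun i hx hy => ?_⟩
  by_contra hi
  rw [not_lt] at hi
  obtain ⟨s, hs1, hs2, hs3⟩ := hkl i
  obtain ⟨hD1, hD2⟩ := del_md hx
  set D := del x (md i) with hD
  have hD0 : 0 < D := (big_pos i).trans_le hD1
  have hmd := md_bd i
  -- the first time
  have hex : ∃ n, 3 / 8 ≤ kap^[n] D := by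
    have h1 := (tends_G (t := 1 / 2 - D) (by linarith) (by linarith)).eventually
      (gt_mem_nhds (show (0:ℝ) < 1 / 8 by norm_num))
    obtain ⟨n, hn⟩ := h1.exists
    refine ⟨n, ?_⟩
    have h2 := G_iter_half_sub n D
    rw [h2] at hn
    linarith
  have hne : Nat.find hex ≠ 0 := by
    intro hz
    have := Nat.find_spec hex
    rw [hz] at this
    simp at this
    linarith
  obtain ⟨n', hn'⟩ := Nat.exists_eq_succ_of_ne_zero hne
  have hlow : kap^[n'] D < 3 / 8 := by
    by_contra hc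
    exact Nat.find_min hex (m := n') (by omega) (not_lt.1 hc)
  have hup : 3 / 8 ≤ kap^[n' + 1] D := by
    have := Nat.find_spec hex
    rwa [hn'] at this
  have hupp := (kap_iter_mem hD0.le (by linarith) (n' + 1)).2
  -- the orbit for `x`
  have hP : (A x)^[n' + 1 + 1] ((md i : T1), 0) ∈ B0 := by
    rw [A_thru x (by linarith [hmd.1]) (by linarith [hmd.2])]
    have hg0 := G_iter_mem (t := G (md i)) (G_nonneg (by linarith [hmd.1])) (by
      have := (G_mem (t := md i) (by linarith [hmd.1]) (by linarith [hmd.2])).2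
      linarith [hmd.2]) (n' + 1)
    have hg1 : G (md i) ≤ 1 / 8 := by
      have := G_strictMono.monotone (show md i ≤ 1 / 4 by linarith [hmd.2])
      rwa [G_quarter] at this
    refine ⟨?_, ?_⟩
    · show ‖((G^[n' + 1 + 1] (md i) : ℝ) : T1)‖ ≤ 1 / 8
      rw [Function.iterate_succ_apply]
      rw [norm_coe' (by rw [abs_of_nonneg hg0.1]; linarith [hg0.2]), abs_of_nonneg hg0.1]
      linarith [hg0.2]
    · show ‖((G^[n' + 1] (th x (md i)) : ℝ) : T1)‖ ≤ 1 / 8
      have e : th x (md i) = 1 / 2 - D := rfl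
      rw [e, G_iter_half_sub, norm_coe' (by rw [abs_le]; constructor <;> linarith), abs_le]
      constructor <;> linarith
  have hQ := hM _ hP
  rw [← A_back x (show 1 / 8 ≤ md i by linarith [hmd.1]) (show md i ≤ 1 / 2 by linarith [hmd.2]) k,
    ← Function.iterate_add_apply, ← Function.iterate_add_apply, H_iter hH, hs3] at hQ
  have hR := (A_B0_iter y hQ l).1
  have hsb1 : 5 / 32 ≤ s := (cc_ge i).trans hs1.le
  have hsb2 : s ≤ 3 / 16 := hs2.le.trans (cc_lt _).le
  rw [← Function.iterate_add_apply,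
    show l + (M + (n' + 1 + 1) + k) = (M + n' + k + 1 + 1) + l by ring,
    Function.iterate_add_apply, A_back y (by linarith) (by linarith),
    A_thru y (by linarith) (by linarith)] at hR
  have hR2 : ‖((G^[M + n' + k + 1] (th y s) : ℝ) : T1)‖ ≤ 1 / 8 := hR.2
  set δ := del y s with hδ
  have e : th y s = 1 / 2 - δ := rfl
  have hδ0 : 0 ≤ δ := del_nonneg y s
  have hδ1 : δ ≤ tau i := del_gap hy hs1.le hs2.le
  have hδ2 : δ ≤ D / 2 ^ i := by
    refine hδ1.trans ((min_le_right _ _).trans ?_)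
    exact div_le_div_of_nonneg_right hD1 (by positivity)
  have hδ3 : δ ≤ 1 / 8 := by
    refine hδ2.trans ((div_le_self hD0.le ?_).trans hD2)
    exact one_le_pow₀ (by norm_num)
  have hkm := kap_iter_mem hδ0 (by linarith) (M + n' + k + 1)
  rw [e, G_iter_half_sub, norm_coe' (by rw [abs_le]; constructor <;> linarith [hkm.1, hkm.2]),
    abs_of_nonneg (by linarith [hkm.2])] at hR2
  -- the estimate
  obtain ⟨j, hj⟩ : ∃ j, n' + i = j + (M + n' + k + 1) := ⟨n' + i - (M + n' + k + 1), by omega⟩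
  have h1 : kap^[M + n' + k + 1] δ ≤ kap^[n' + i] δ := by
    rw [hj, Function.iterate_add_apply kap j (M + n' + k + 1)]
    exact (kap_iter_mem (hδ0.trans hkm.1) hkm.2 j).1
  have h2 : kap^[n' + i] δ ≤ kap^[n' + i] (D / 2 ^ i) := kap_iter_mono _ hδ2
  have h3 : kap^[n' + i] (D / 2 ^ i) ≤ kap^[n'] D := by
    rw [Function.iterate_add_apply]
    exact kap_iter_mono n' (kap_halves hD0.le i)
  linarith

theorem E0_of_conj : E0 x y := by
  obtain ⟨N, hN⟩ := bounded_diff hH
  obtain ⟨N', hN'⟩ := bounded_diff (x := y) (y := x) (H := H.symm) (H_symm hH)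
  refine (Set.finite_lt_nat (max N N')).subset fun i hi => ?_
  have hi' : x i ≠ y i := hi
  show i < max N N'
  cases hx : x i <;> cases hy : y i
  · rw [hx, hy] at hi'; exact absurd rfl hi'
  · exact lt_max_of_lt_right (hN' i hy hx)
  · exact lt_max_of_lt_left (hN i hx hy)
  · rw [hx, hy] at hi'; exact absurd rfl hi'

end

/-- The reduction. -/
theorem E0_iff (x y : ℕ → Bool) : E0 x y ↔ TopConj (fam x).map (fam y).map := by
  rw [show TopConj (fam x).map (fam y).map ↔ ∃ H : T2 ≃ₜ T2, ∀ q, H (A x q) = A y (H q) from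
    conj_iff (emb (ctrP x)) (emb (ctrP y))]
  exact ⟨conj_of_E0, fun ⟨_, hH⟩ => E0_of_conj hH⟩

theorem fam_meas : @Measurable (ℕ → Bool) (DiffR II CC ⊤) (borel (ℕ → Bool))
    (@borel _ (crTopology II CC ⊤)) fam := by
  let _ : TopologicalSpace (DiffR II CC ⊤) := crTopology II CC ⊤
  let _ : MeasurableSpace (DiffR II CC ⊤) := borel (DiffR II CC ⊤)
  have : BorelSpace (DiffR II CC ⊤) := ⟨rfl⟩
  let _ : MeasurableSpace (ℕ → Bool) := borel (ℕ → Bool)
  have : BorelSpace (ℕ → Bool) := ⟨rfl⟩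
  exact fam_cont.measurable

theorem main : E0Embeds II CC := ⟨fam, fam_meas, fam_axiomA, E0_iff⟩

end Pool.Agent.H410R3.AX
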